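import Pool.Agent.MP_1b52a1_al.H21.Defs

namespace Pool.Agent.MP_1b52a1_al.H21

open Pointwise

variable {G : Type} [Group G]

section wl

/-- basic facts about word length -/
lemma wordLength_le_of_list {S : Set G} {l : List G} (hl : ∀ x ∈ l, x ∈ S ∨ x⁻¹ ∈ S) :
    wordLength S l.prod ≤ l.length :=
  Nat.sInf_le ⟨l, rfl, hl, rfl⟩

lemma exists_list_of_closure {S : Set G} (hS : Subgroup.closure S = ⊤) (g : G) :
    ∃ l : List G, (∀ x ∈ l, x ∈ S ∨ x⁻¹ ∈ S) ∧ l.prod = g := by
  have hg : g ∈ Subgroup.closure S := by rw [hS]; trivial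
  induction hg using Subgroup.closure_induction_left with
  | one => exact ⟨[], by simp, rfl⟩
  | mul_left x hx y hy ih =>
    obtain ⟨l, hl, rfl⟩ := ih
    refine ⟨x :: l, ?_, by simp⟩
    intro z hz
    rcases List.mem_cons.1 hz with rfl | hz
    · exact Or.inl hx
    · exact hl z hz
  | inv_mul_cancel x hx y hy ih =>
    obtain ⟨l, hl, rfl⟩ := ih
    refine ⟨x⁻¹ :: l, ?_, by simp⟩
    intro z hz
    rcases List.mem_cons.1 hz with rfl | hz
    · exact Or.inr (by simpa using hx)
    · exact hl z hz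

lemma exists_geodesic {S : Set G} (hS : Subgroup.closure S = ⊤) (g : G) :
    ∃ l : List G, l.length = wordLength S g ∧ (∀ x ∈ l, x ∈ S ∨ x⁻¹ ∈ S) ∧ l.prod = g := by
  obtain ⟨l, hl, hp⟩ := exists_list_of_closure hS g
  have hne : {n | ∃ l : List G, l.length = n ∧ (∀ x ∈ l, x ∈ S ∨ x⁻¹ ∈ S) ∧ l.prod = g}.Nonempty :=
    ⟨l.length, l, rfl, hl, hp⟩
  exact Nat.sInf_mem hne

lemma wordLength_mul_le {S : Set G} (hS : Subgroup.closure S = ⊤) {x : G}
    (hx : x ∈ S ∨ x⁻¹ ∈ S) (g : G) : wordLength S (x * g) ≤ wordLength S g + 1 := by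
  obtain ⟨l, hlen, hl, rfl⟩ := exists_geodesic hS g
  have := wordLength_le_of_list (S := S) (l := x :: l) (by
    intro z hz
    rcases List.mem_cons.1 hz with rfl | hz
    · exact hx
    · exact hl z hz)
  simpa [hlen] using this

lemma exists_wordLength_eq {S : Set G} (hS : Subgroup.closure S = ⊤) (g : G) (n : ℕ)
    (hn : n ≤ wordLength S g) : ∃ h, wordLength S h = n := by
  obtain ⟨l, hl, rfl⟩ := exists_list_of_closure hS g
  induction l with
  | nil =>
    have := wordLength_le_of_list (S := S) (l := []) (by simp)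
    refine ⟨1, ?_⟩
    simp only [List.prod_nil, List.length_nil] at this hn
    omega
  | cons x l ih =>
    by_cases h : n ≤ wordLength S l.prod
    · exact ih (fun z hz => hl z (List.mem_cons_of_mem _ hz)) h
    · have := wordLength_mul_le hS (hl x List.mem_cons_self) l.prod
      refine ⟨(x :: l).prod, ?_⟩
      simp only [List.prod_cons] at hn ⊢
      omega

lemma finite_ball {S : Set G} (hfin : S.Finite) (hS : Subgroup.closure S = ⊤) (n : ℕ) :
    {g | wordLength S g ≤ n}.Finite := by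
  have h1 : (S ∪ S⁻¹).Finite := hfin.union hfin.inv
  have h2 : {l : List G | l.length ≤ n ∧ ∀ x ∈ l, x ∈ S ∪ S⁻¹}.Finite := by
    have := h1.to_subtype
    have h3 := List.finite_length_le (↥(S ∪ S⁻¹)) n
    refine (h3.image (List.map Subtype.val)).subset ?_
    rintro l ⟨hl, hm⟩
    refine ⟨l.pmap (fun x hx => ⟨x, hx⟩) hm, by simpa using hl, ?_⟩
    rw [List.map_pmap]; simp
  refine (h2.image List.prod).subset ?_
  intro g hg
  obtain ⟨l, hlen, hl, rfl⟩ := exists_geodesic hS g
  exact ⟨l, ⟨by rw [hlen]; exact hg, fun x hx => by simpa using hl x hx⟩, rfl⟩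

lemma finite_sphere {S : Set G} (hfin : S.Finite) (hS : Subgroup.closure S = ⊤) (n : ℕ) :
    {g | wordLength S g = n}.Finite :=
  (finite_ball hfin hS n).subset (fun _ hg => le_of_eq hg)

lemma sph_pos [Infinite G] {S : Set G} (hfin : S.Finite) (hS : Subgroup.closure S = ⊤) (n : ℕ) :
    0 < sph S n := by
  have : ∃ g, ¬ wordLength S g ≤ n := by
    by_contra h
    push Not at h
    exact Set.infinite_univ ((finite_ball hfin hS n).subset (fun g _ => h g))
  obtain ⟨g, hg⟩ := this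
  obtain ⟨h, hh⟩ := exists_wordLength_eq hS g n (by omega)
  exact (Set.ncard_pos (finite_sphere hfin hS n)).2 ⟨h, hh⟩

end wl

variable (V W : Subgroup G)

def XX (β : Bool) : Subgroup G := if β then V else W

/-- products of `m` alternating syllables whose last syllable is in `XX β` -/
def alt : ℕ → Bool → Set G
  | 0, _ => {1}
  | m + 1, β => alt m (!β) * (XX V W β : Set G)

variable {V W}

lemma mem_alt_succ {m : ℕ} {β : Bool} {g : G} :
    g ∈ alt V W (m + 1) β ↔ ∃ h ∈ alt V W m (!β), ∃ s ∈ XX V W β, h * s = g := by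
  simp [alt, Set.mem_mul]

lemma alt_subset_succ (m : ℕ) : ∀ β β' : Bool, alt V W m β ⊆ alt V W (m + 1) β' := by
  induction m with
  | zero =>
    intro β β' g hg
    exact mem_alt_succ.2 ⟨g, hg, 1, one_mem _, mul_one _⟩
  | succ m ih =>
    intro β β' g hg
    by_cases h : β' = β
    · subst h
      obtain ⟨h, hh, s, hs, rfl⟩ := mem_alt_succ.1 hg
      exact mem_alt_succ.2 ⟨h, ih _ _ hh, s, hs, rfl⟩
    · have : β = !β' := by revert h; cases β <;> cases β' <;> simp
      subst this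
      exact mem_alt_succ.2 ⟨g, hg, 1, one_mem _, mul_one _⟩

lemma alt_mono {m m' : ℕ} (h : m < m') (β β' : Bool) : alt V W m β ⊆ alt V W m' β' := by
  induction m' generalizing β' with
  | zero => omega
  | succ k ih =>
    rcases Nat.lt_succ_iff_lt_or_eq.1 h with h | rfl
    · exact (ih h β).trans (alt_subset_succ k _ _)
    · exact alt_subset_succ _ _ _

lemma alt_mul_mem {m : ℕ} {β : Bool} {g s : G} (hg : g ∈ alt V W (m + 1) β)
    (hs : s ∈ XX V W β) : g * s ∈ alt V W (m + 1) β := by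
  obtain ⟨h, hh, s', hs', rfl⟩ := mem_alt_succ.1 hg
  exact mem_alt_succ.2 ⟨h, hh, s' * s, mul_mem hs' hs, by rw [mul_assoc]⟩

def st (m : ℕ) (β : Bool) : Bool := if Even m then !β else β

lemma st_succ (m : ℕ) (β : Bool) : st (m + 1) β = st m (!β) := by
  unfold st
  by_cases h : Even m
  · have : ¬ Even (m + 1) := by simpa [Nat.even_add_one] using h
    simp [h, this]
  · have : Even (m + 1) := by simpa [Nat.even_add_one] using h
    simp [h, this]

lemma st_st (m : ℕ) (β : Bool) : st m (st m β) = β := by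
  unfold st; split_ifs <;> simp

lemma alt_succ_left (m : ℕ) : ∀ β : Bool,
    alt V W (m + 1) β = (XX V W (st (m + 1) β) : Set G) * alt V W m β := by
  induction m with
  | zero => intro β; simp [alt, st]
  | succ m ih =>
    intro β
    rw [alt, ih, st_succ (m + 1), mul_assoc]
    rfl

lemma alt_inv {m : ℕ} : ∀ {β : Bool} {g : G}, g ∈ alt V W m β → g⁻¹ ∈ alt V W m (st m β) := by
  induction m with
  | zero => intro β g hg; simp only [alt, Set.mem_singleton_iff] at hg ⊢; simp [hg]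
  | succ m ih =>
    intro β g hg
    obtain ⟨h, hh, s, hs, rfl⟩ := mem_alt_succ.1 hg
    rw [alt_succ_left, st_st, mul_inv_rev, st_succ]
    exact Set.mul_mem_mul (inv_mem hs) (ih hh)

variable (V W) in
def AA (k : ℕ) : Set G := alt V W (2 * k + 1) true

lemma mem_AA_zero {g : G} : g ∈ AA V W 0 ↔ g ∈ V := by
  simp [AA, alt, XX]

lemma mem_AA_succ {k : ℕ} {g : G} :
    g ∈ AA V W (k + 1) ↔ ∃ h ∈ AA V W k, ∃ w ∈ W, ∃ v ∈ V, h * w * v = g := by
  have : 2 * (k + 1) + 1 = 2 * k + 1 + 1 + 1 := by ring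
  unfold AA
  rw [this, mem_alt_succ]
  constructor
  · rintro ⟨h, hh, v, hv, rfl⟩
    obtain ⟨h', hh', w, hw, rfl⟩ := mem_alt_succ.1 hh
    exact ⟨h', hh', w, hw, v, hv, rfl⟩
  · rintro ⟨h, hh, w, hw, v, hv, rfl⟩
    exact ⟨h * w, mem_alt_succ.2 ⟨h, hh, w, hw, rfl⟩, v, hv, rfl⟩

lemma AA_mono {k k' : ℕ} (h : k ≤ k') : AA V W k ⊆ AA V W k' := by
  rcases h.lt_or_eq with h | rfl
  · exact alt_mono (by omega) _ _
  · exact le_rfl

lemma AA_mul_V {k : ℕ} {g v : G} (hg : g ∈ AA V W k) (hv : v ∈ V) : g * v ∈ AA V W k :=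
  alt_mul_mem hg hv

lemma AA_mul_W {k : ℕ} {g w : G} (hg : g ∈ AA V W k) (hw : w ∈ W) : g * w ∈ AA V W (k + 1) :=
  mem_AA_succ.2 ⟨g, hg, w, hw, 1, one_mem _, mul_one _⟩

lemma AA_inv {k : ℕ} {g : G} (hg : g ∈ AA V W k) : g⁻¹ ∈ AA V W k := by
  have := alt_inv hg
  have h : ¬ Even (2 * k + 1) := by simp
  simpa [st, h, AA] using this

lemma AA_mul {k j : ℕ} {g h : G} (hg : g ∈ AA V W k) (hh : h ∈ AA V W j) :
    g * h ∈ AA V W (k + j) := by
  induction j generalizing h with
  | zero => exact AA_mul_V hg (mem_AA_zero.1 hh)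
  | succ j ih =>
    obtain ⟨h', hh', w, hw, v, hv, rfl⟩ := mem_AA_succ.1 hh
    rw [← mul_assoc, ← mul_assoc]
    exact AA_mul_V (AA_mul_W (ih hh') hw) hv

lemma alt_even_false {k : ℕ} {g : G} :
    g ∈ alt V W (2 * k + 2) false ↔ ∃ h ∈ AA V W k, ∃ w ∈ W, h * w = g :=
  mem_alt_succ

lemma alt_even_true {k : ℕ} {g : G} :
    g ∈ alt V W (2 * k) true ↔ g⁻¹ ∈ alt V W (2 * k) false := by
  have h : Even (2 * k) := by simp
  constructor
  · intro hg; simpa [st, h] using alt_inv hg
  · intro hg; simpa [st, h] using alt_inv hg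

lemma exists_AA (hS : Subgroup.closure ((V : Set G) ∪ W) = ⊤) (g : G) : ∃ k, g ∈ AA V W k := by
  have hg : g ∈ Subgroup.closure ((V : Set G) ∪ W) := by rw [hS]; trivial
  induction hg using Subgroup.closure_induction with
  | one => exact ⟨0, mem_AA_zero.2 (one_mem _)⟩
  | mem x hx =>
    rcases hx with hx | hx
    · exact ⟨0, mem_AA_zero.2 hx⟩
    · exact ⟨1, by simpa using AA_mul_W (mem_AA_zero.2 (one_mem V)) hx⟩
  | mul x y _ _ hx hy =>
    obtain ⟨k, hk⟩ := hx
    obtain ⟨j, hj⟩ := hy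
    exact ⟨k + j, AA_mul hk hj⟩
  | inv x _ hx =>
    obtain ⟨k, hk⟩ := hx
    exact ⟨k, AA_inv hk⟩

variable (V W) in
/-- the generating set: all non-identity elements of the two subgroups -/
def SS : Set G := ((V : Set G) ∪ W) \ {1}

lemma closure_SS (hS : Subgroup.closure ((V : Set G) ∪ W) = ⊤) :
    Subgroup.closure (SS V W) = ⊤ := by
  rw [SS, Subgroup.closure_sdiff_one, hS]

lemma alt_of_list (l : List G) (hl : ∀ x ∈ l, x ∈ SS V W ∨ x⁻¹ ∈ SS V W) :
    ∃ β, l.prod ∈ alt V W l.length β := by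
  induction l using List.reverseRecOn with
  | nil => exact ⟨true, by simp [alt]⟩
  | append_singleton l x ih =>
    obtain ⟨β, hβ⟩ := ih (fun z hz => hl z (List.mem_append_left _ hz))
    have hx : ∃ β', x ∈ XX V W β' := by
      rcases hl x (by simp) with h | h
      · rcases h.1 with h | h
        · exact ⟨true, h⟩
        · exact ⟨false, h⟩
      · rcases h.1 with h | h
        · exact ⟨true, by simpa [XX] using h⟩
        · exact ⟨false, by simpa [XX] using h⟩
    obtain ⟨β', hx⟩ := hx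
    refine ⟨β', ?_⟩
    simp only [List.prod_append, List.prod_cons, List.prod_nil, mul_one, List.length_append,
      List.length_cons, List.length_nil, zero_add]
    by_cases h : β = β'
    · subst h
      rcases hlen : l.length with _ | m
      · rw [hlen] at hβ
        exact mem_alt_succ.2 ⟨l.prod, hβ, x, hx, rfl⟩
      · rw [hlen] at hβ
        exact alt_subset_succ _ _ _ (alt_mul_mem hβ hx)
    · have : β = !β' := by revert h; cases β <;> cases β' <;> simp
      subst this
      exact mem_alt_succ.2 ⟨l.prod, hβ, x, hx, rfl⟩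

lemma list_of_alt {m : ℕ} : ∀ {β : Bool} {g : G}, g ∈ alt V W m β →
    ∃ l : List G, l.length ≤ m ∧ (∀ x ∈ l, x ∈ SS V W ∨ x⁻¹ ∈ SS V W) ∧ l.prod = g := by
  induction m with
  | zero =>
    intro β g hg
    simp only [alt, Set.mem_singleton_iff] at hg
    exact ⟨[], le_rfl, by simp, by simp [hg]⟩
  | succ m ih =>
    intro β g hg
    obtain ⟨h, hh, s, hs, rfl⟩ := mem_alt_succ.1 hg
    obtain ⟨l, hlen, hl, rfl⟩ := ih hh
    by_cases h1 : s = 1
    · exact ⟨l, by omega, hl, by simp [h1]⟩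
    · refine ⟨l ++ [s], by simpa using hlen, ?_, by simp⟩
      intro x hx
      rcases List.mem_append.1 hx with hx | hx
      · exact hl x hx
      · simp only [List.mem_singleton] at hx
        subst hx
        refine Or.inl ⟨?_, h1⟩
        cases β
        · exact Or.inr hs
        · exact Or.inl hs

lemma wl_le_iff (hS : Subgroup.closure ((V : Set G) ∪ W) = ⊤) {g : G} {m : ℕ} :
    wordLength (SS V W) g ≤ m ↔ g ∈ alt V W m true ∨ g ∈ alt V W m false := by
  constructor
  · intro h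
    obtain ⟨l, hlen, hl, rfl⟩ := exists_geodesic (closure_SS hS) g
    obtain ⟨β, hβ⟩ := alt_of_list l hl
    rcases (hlen ▸ h : l.length ≤ m).lt_or_eq with h | h
    · exact Or.inl (alt_mono h _ _ hβ)
    · rw [h] at hβ
      cases β
      · exact Or.inr hβ
      · exact Or.inl hβ
  · intro h
    have : ∃ β, g ∈ alt V W m β := by
      rcases h with h | h
      exacts [⟨_, h⟩, ⟨_, h⟩]
    obtain ⟨β, hβ⟩ := this
    obtain ⟨l, hlen, hl, rfl⟩ := list_of_alt hβ
    exact (wordLength_le_of_list hl).trans hlen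

variable (V W) in
/-- least number of `W`-syllables -/
noncomputable def ell (g : G) : ℕ := sInf {k | g ∈ AA V W k}

lemma ell_le_of_mem {k : ℕ} {g : G} (h : g ∈ AA V W k) : ell V W g ≤ k := Nat.sInf_le h

lemma mem_AA_ell (hS : Subgroup.closure ((V : Set G) ∪ W) = ⊤) (g : G) :
    g ∈ AA V W (ell V W g) := Nat.sInf_mem (exists_AA hS g)

lemma mem_AA_iff (hS : Subgroup.closure ((V : Set G) ∪ W) = ⊤) {g : G} {k : ℕ} :
    g ∈ AA V W k ↔ ell V W g ≤ k :=
  ⟨ell_le_of_mem, fun h => AA_mono h (mem_AA_ell hS g)⟩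

lemma wl_le_of_AA (hS : Subgroup.closure ((V : Set G) ∪ W) = ⊤) {g : G} {k : ℕ}
    (h : g ∈ AA V W k) : wordLength (SS V W) g ≤ 2 * k + 1 :=
  (wl_le_iff hS).2 (Or.inl h)

lemma AA_of_wl_le (hS : Subgroup.closure ((V : Set G) ∪ W) = ⊤) {g : G} {k : ℕ}
    (h : wordLength (SS V W) g ≤ 2 * k) : g ∈ AA V W k := by
  rcases (wl_le_iff hS).1 h with h | h
  · exact alt_subset_succ _ _ _ h
  · exact alt_subset_succ _ _ _ h

end Pool.Agent.MP_1b52a1_al.H21
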