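import Pool.Agent.MP_1b52a1_al.H21.Sched

namespace Pool.Agent.MP_1b52a1_al.H21

def Tr (k : ℕ) (x : U → ℤ) : Prop := ∀ k0 n, Ok k0 n → Ok (k0 + k) (fun u => n u + x u)

lemma tr_zero : Tr 0 (fun _ => 0) := by intro k0 n h; simpa using h

lemma Tr.add {k k' : ℕ} {x x' : U → ℤ} (h : Tr k x) (h' : Tr k' x') :
    Tr (k + k') (fun u => x u + x' u) := by
  intro k0 n h0
  simpa only [add_assoc] using h' _ _ (h _ _ h0)

lemma Tr.nsmul {k : ℕ} {x : U → ℤ} (h : Tr k x) (m : ℕ) : Tr (k * m) (fun u => m * x u) := by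
  induction m with
  | zero => simpa using tr_zero
  | succ m ih =>
    have := ih.add h
    convert this using 2
    · rfl
    · push_cast; ring

lemma tr_sum {ι : Type} (s : Finset ι) (k : ι → ℕ) (x : ι → U → ℤ)
    (h : ∀ i, Tr (k i) (x i)) : Tr (∑ i ∈ s, k i) (fun u => ∑ i ∈ s, x i u) := by
  classical
  induction s using Finset.induction_on with
  | empty => simpa using tr_zero
  | insert i s hi ih =>
    simp only [Finset.sum_insert hi]
    exact (h i).add ih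

lemma tr_list {l : List Mv} {k : ℕ} {x : U → ℤ}
    (h : kl l = k ∧ ∀ v, pl l v = v ∧ cl l v = x v) : Tr k x := by
  intro k0 n h0
  have := ok_list h0 l
  simpa only [h.1, (h.2 _).1, (h.2 _).2] using this

lemma sgn_abs (δ : ℤ) : (δ.natAbs : ℤ) * sgn (decide (0 ≤ δ)) = δ := by
  by_cases h : 0 ≤ δ
  · simp [sgn, h, abs_of_nonneg h]
  · simp [sgn, h, abs_of_neg (not_le.1 h)]

lemma tr_B (u : U) (δ : ℤ) : Tr (32 * δ.natAbs)
    (fun v => 10 * (δ.natAbs : ℤ) + 2 * δ * (ind u v - ind (stU u) v)) := by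
  have := (tr_list (certB_ok u (decide (0 ≤ δ)))).nsmul δ.natAbs
  convert this using 2 with v
  linear_combination (-2 * (ind u v - ind (stU u) v)) * sgn_abs δ

lemma tr_X (δ : ℤ) : Tr (32 * δ.natAbs)
    (fun v => 10 * (δ.natAbs : ℤ) + 6 * δ * (ind uL v - ind uR v)) := by
  have := (tr_list (certX_ok (decide (0 ≤ δ)))).nsmul δ.natAbs
  convert this using 2 with v
  linear_combination (-6 * (ind uL v - ind uR v)) * sgn_abs δ

lemma tr_0 (m : ℕ) : Tr (32 * m) (fun _ => 10 * (m : ℤ)) := by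
  have := tr_B uL m
  simpa [stU, uL] using this

lemma tr_Y (i : ℕ) : Tr (2 * i) (fun v => i * (2 * wy v)) := (tr_list certY_ok).nsmul i

lemma sum_ind (x : U → ℤ) (v : U) : ∑ u, x u * ind u v = x v := by
  simp [ind]

lemma sum_ind_st (x : U → ℤ) (v : U) :
    ∑ u, x u * ind (stU u) v = ind uL v * LL x + ind uR v * RR x := by
  rcases v with ⟨_ | _, _ | _, _ | _, _ | _⟩ <;>
    simp [ind, stU, uL, uR, LL, RR, Fintype.sum_prod_type]

lemma le_LL_RR {n : U → ℤ} (h : ∀ u, 0 ≤ n u) (u : U) : n u ≤ LL n + RR n := by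
  have h1 : LL n + RR n = ∑ v, n v := by
    simp only [LL, RR, Fintype.sum_prod_type (f := n), Fintype.sum_bool]; ring
  rw [h1]
  exact Finset.single_le_sum (fun v _ => h v) (Finset.mem_univ u)

lemma LL_le {n : U → ℤ} {E : ℤ} (h : ∀ u, n u ≤ E) : LL n ≤ 8 * E := by
  have : LL n ≤ ∑ _v : Bool × Bool × Bool, E := Finset.sum_le_sum (fun v _ => h _)
  simpa using this
lemma RR_le {n : U → ℤ} {E : ℤ} (h : ∀ u, n u ≤ E) : RR n ≤ 8 * E := by
  have : RR n ≤ ∑ _v : Bool × Bool × Bool, E := Finset.sum_le_sum (fun v _ => h _)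
  simpa using this
lemma le_LL {n : U → ℤ} {E : ℤ} (h : ∀ u, E ≤ n u) : 8 * E ≤ LL n := by
  have : ∑ _v : Bool × Bool × Bool, E ≤ LL n := Finset.sum_le_sum (fun v _ => h _)
  simpa using this
lemma le_RR {n : U → ℤ} {E : ℤ} (h : ∀ u, E ≤ n u) : 8 * E ≤ RR n := by
  have : ∑ _v : Bool × Bool × Bool, E ≤ RR n := Finset.sum_le_sum (fun v _ => h _)
  simpa using this

def Feas (L R : ℤ) (k : ℕ) : Prop := ∃ A : ℤ, L ≤ k + 3 * A ∧ R + 3 * A ≤ 4 * k

lemma tr_even (k' : ℕ) (Δ0 : U → ℤ) (A' E : ℤ) (hL : 2 * LL Δ0 = k' + 3 * A')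
    (hR : 2 * RR Δ0 + 3 * A' = 4 * k')
    (hE : ∀ u, 5 * ((k' / 32 : ℕ) : ℤ) - E + 15 ≤ Δ0 u ∧ Δ0 u ≤ 5 * ((k' / 32 : ℕ) : ℤ) + E)
    (hM : 19 * E ≤ ((k' / 32 : ℕ) : ℤ)) : Tr k' (fun u => 2 * Δ0 u) := by
  obtain ⟨M, hMdef⟩ : ∃ M, M = k' / 32 := ⟨_, rfl⟩
  rw [← hMdef] at hE hM
  obtain ⟨i, hi⟩ : ∃ i, i = k' % 32 / 2 := ⟨_, rfl⟩
  have hk : k' = 32 * M + 2 * i := by omega
  have hi' : i < 16 := by omega
  let Δ : U → ℤ := fun u => Δ0 u - i * wy u - 5 * M
  have hLΔ : LL Δ = LL Δ0 - 4 * i - 40 * M := by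
    simp [Δ, LL, Fintype.sum_prod_type, wy, jy]; ring
  have hRΔ : RR Δ = RR Δ0 - i - 40 * M := by
    simp [Δ, RR, Fintype.sum_prod_type, wy, jy]; ring
  obtain ⟨h, hh⟩ : ∃ h : ℤ, h = (A' - 2 * i - 16 * M) / 2 := ⟨_, rfl⟩
  have hLh : LL Δ = 3 * h := by omega
  have hRh : RR Δ = -3 * h := by omega
  have hb : ∀ u, -E ≤ Δ u ∧ Δ u ≤ E := by
    intro u
    have := hE u
    simp only [Δ, wy]
    split_ifs <;> omega
  have hh1 := LL_le (fun u => (hb u).2)
  have hh2 := le_LL (fun u => (hb u).1)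
  have hs : ((∑ u, (Δ u).natAbs : ℕ) : ℤ) ≤ 16 * E := by
    have : ∑ u : U, ((Δ u).natAbs : ℤ) ≤ ∑ _u : U, E :=
      Finset.sum_le_sum (fun u _ => by have := hb u; omega)
    rw [Nat.cast_sum]
    simpa using this
  obtain ⟨S, hS⟩ : ∃ S, S = ∑ u, (Δ u).natAbs := ⟨_, rfl⟩
  rw [← hS] at hs
  obtain ⟨m0, hm0⟩ : ∃ m0 : ℕ, M = m0 + h.natAbs + S := ⟨M - h.natAbs - S, by omega⟩
  have T1 := tr_sum Finset.univ _ _ (fun u => tr_B u (Δ u))
  have T2 := ((tr_Y i).add (tr_0 m0)).add ((tr_X h).add T1)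
  convert T2 using 1
  · rw [← Finset.mul_sum, ← hS]; omega
  · ext v
    have e1 : ∑ u : U, (10 * ((Δ u).natAbs : ℤ) + 2 * Δ u * (ind u v - ind (stU u) v)) =
        10 * (S : ℤ) + 2 * Δ v - 2 * (ind uL v * LL Δ + ind uR v * RR Δ) := by
      rw [← sum_ind Δ v, ← sum_ind_st, hS, Nat.cast_sum, Finset.mul_sum, Finset.mul_sum,
        Finset.mul_sum, ← Finset.sum_add_distrib, ← Finset.sum_sub_distrib]
      exact Finset.sum_congr rfl (fun u _ => by ring)
    rw [e1, hLh, hRh]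
    have e2 : (M : ℤ) = m0 + h.natAbs + S := by exact_mod_cast hm0
    simp only [Δ]
    linear_combination 10 * e2

lemma upper_bound : ∃ C : ℤ, ∀ (g : Γ) (lo D : ℤ), 0 ≤ D →
    (∀ u, lo ≤ nn g u ∧ nn g u ≤ lo + D) → 1000 * D + C ≤ lo →
    ∀ k : ℕ, Feas (LL (nn g)) (RR (nn g)) k → g ∈ AA V W k := by
  obtain ⟨K0, hK0⟩ := pat_bounded
  refine ⟨2000 * K0 + 20000, fun g lo D hD hg hlo => ?_⟩
  have hL1 := LL_le (fun u => (hg u).2)
  have hL2 := le_LL (fun u => (hg u).1)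
  have hR1 := RR_le (fun u => (hg u).2)
  have hR2 := le_RR (fun u => (hg u).1)
  have main : ∀ k : ℕ, Feas (LL (nn g)) (RR (nn g)) k → 5 * (k : ℤ) ≤ LL (nn g) + RR (nn g) + 6 →
      g ∈ AA V W k := by
    rintro k ⟨A, hA1, hA2⟩ hρ
    obtain ⟨sL, hsL⟩ : ∃ s, s = k + 3 * A - LL (nn g) := ⟨_, rfl⟩
    obtain ⟨sR, hsR⟩ : ∃ s, s = 4 * k - 3 * A - RR (nn g) := ⟨_, rfl⟩
    obtain ⟨k1, hk1, n1, ok1, ⟨A1, hA11, hA12⟩, hpar⟩ :=
      hK0 (decide (sL % 2 = 1)) (decide (sR % 2 = 1)) g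
    have heL : (if decide (sL % 2 = 1) = true then 1 else 0 : ℤ) = sL % 2 := by
      by_cases h : sL % 2 = 1
      · simp [h]
      · simp only [h, decide_false]; simp; omega
    have heR : (if decide (sR % 2 = 1) = true then 1 else 0 : ℤ) = sR % 2 := by
      by_cases h : sR % 2 = 1
      · simp [h]
      · simp only [h, decide_false]; simp; omega
    rw [heL] at hA11
    rw [heR] at hA12
    have hn1 : ∀ u, n1 u ≤ 5 * K0 := by
      intro u
      have := le_LL_RR ok1.1 u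
      omega
    let Δ0 : U → ℤ := fun u => (nn g u - n1 u) / 2 + sL / 2 * ind uL u + sR / 2 * ind uR u
    have hΔ : ∀ u, 2 * Δ0 u = nn g u - n1 u + 2 * (sL / 2 * ind uL u + sR / 2 * ind uR u) := by
      intro u
      have := hpar u
      simp only [Δ0]
      omega
    have hL : 2 * LL Δ0 = LL (nn g) - LL n1 + 2 * (sL / 2) := by
      simp only [LL, Finset.mul_sum, hΔ]
      simp [Fintype.sum_prod_type, ind, uL, uR]; ring
    have hR : 2 * RR Δ0 = RR (nn g) - RR n1 + 2 * (sR / 2) := by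
      simp only [RR, Finset.mul_sum, hΔ]
      simp [Fintype.sum_prod_type, ind, uL, uR]; ring
    obtain ⟨k', rfl⟩ : ∃ k', k = k1 + k' := ⟨k - k1, by omega⟩
    have hT := tr_even k' Δ0 (A - A1) (D + 4 * K0 + 50) (by push_cast at *; omega)
      (by push_cast at *; omega) (by
        intro u
        have h1 := hΔ u
        have h2 := hg u
        have h3 := hn1 u
        have h4 := ok1.1 u
        simp only [ind] at h1
        push_cast at *
        split_ifs at h1 <;> omega) (by push_cast at *; omega)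
    refine (hT _ _ ok1).2 g (fun u => ?_)
    dsimp only
    have h1 := hΔ u
    simp only [ind] at h1
    push_cast at *
    split_ifs at h1 <;> omega
  intro k
  induction k with
  | zero => intro h; exact main 0 h (by push_cast; omega)
  | succ k ih =>
    intro h
    by_cases h' : Feas (LL (nn g)) (RR (nn g)) k
    · exact AA_mono (Nat.le_succ k) (ih h')
    · refine main _ h ?_
      by_contra hc
      exact h' ⟨(LL (nn g) - k + 2) / 3, by omega, by push_cast at hc; omega⟩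

/-- sign of the descent at a unit -/
noncomputable def dn (h : Γ) : Bool := decide (lam (h * d) < lam h)

lemma lam_mul_d_eq (h : Γ) : (lam (h * d) : ℤ) = lam h - sgn (dn h) := by
  have := lam_mul_d h
  by_cases hh : lam (h * d) < lam h
  · simp only [dn, hh, sgn, decide_true, if_true]; omega
  · simp only [dn, hh, sgn, decide_false]; simp; omega

lemma nn_mul_W (g : Γ) {w : Γ} {j : U → Bool} (hs : ∀ u, if j u then s4 w u = d else s4 w u ∈ T)
    (u : U) : nn (g * w) u = nn g (p4 w u) - if j u then sgn (dn (s4 g (p4 w u))) else 0 := by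
  have := hs u
  split_ifs at this ⊢
  · rw [nn, s4_mul, this, lam_mul_d_eq, nn]
  · rw [nn, s4_mul, lam_mul_T _ this, nn, sub_zero]

noncomputable def S4 (g : Γ) : ℤ :=
  sgn (dn (s4 g (false, false, false, true))) + sgn (dn (s4 g (false, false, true, false))) +
    sgn (dn (s4 g (false, true, false, false))) + sgn (dn (s4 g (false, true, true, true)))

noncomputable def S1 (g : Γ) : ℤ := sgn (dn (s4 g (true, true, true, true)))

lemma LR_y5 (g : Γ) : LL (nn (g * y5)) = LL (nn g) - S4 g ∧ RR (nn (g * y5)) = RR (nn g) - S1 g := by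
  simp only [LL, RR, nn_mul_W g s4_y5, p4_y5]
  constructor
  · simp [Fintype.sum_prod_type, py, jy, S4]; ring
  · simp [Fintype.sum_prod_type, py, jy, S1]; ring

lemma LR_y4 (g : Γ) : LL (nn (g * y4)) = LL (nn g) - S4 g ∧ RR (nn (g * y4)) = RR (nn g) := by
  simp only [LL, RR, nn_mul_W g s4_y4, p4_y4]
  constructor
  · simp [Fintype.sum_prod_type, pz, jz, S4]; ring
  · simp [Fintype.sum_prod_type, pz, jz]; ring

lemma LR_V (g : Γ) {v : Γ} (hv : v ∈ V) :
    (LL (nn (g * v)) = LL (nn g) ∧ RR (nn (g * v)) = RR (nn g)) ∨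
    (LL (nn (g * v)) = RR (nn g) ∧ RR (nn (g * v)) = LL (nn g)) := by
  simp only [LL_nn, RR_nn, sec_mul, sig_mul_InV 3 _ _ (hv _)]
  cases rt v <;> simp

lemma LR_inv (g : Γ) :
    (LL (nn g⁻¹) = LL (nn g) ∧ RR (nn g⁻¹) = RR (nn g)) ∨
    (LL (nn g⁻¹) = RR (nn g) ∧ RR (nn g⁻¹) = LL (nn g)) := by
  simp only [LL_nn, RR_nn, sec_inv, sig_inv]
  cases rt g <;> simp

lemma LR_d (g : Γ) : LL (nn (g * d)) = LL (nn g) ∧ RR (nn (g * d)) = RR (nn g) - S1 g := by
  have h1 : g * d = g * c * b := by simp [mul_assoc]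
  have h2 : ∀ u, if decide (u = (true, true, true, true)) then s4 c u = d else s4 c u ∈ T := by
    intro u; simpa using s4_c u
  simp only [h1, LL, RR, nn_mul_V _ b_mem_V, nn_mul_W g h2, p4_c, p4_b]
  constructor
  · simp [Fintype.sum_prod_type, pc, pb]
  · simp [Fintype.sum_prod_type, pc, pb, S1]; ring

lemma sgn_le (e : Bool) : -1 ≤ sgn e ∧ sgn e ≤ 1 := by cases e <;> simp [sgn]

lemma S4_ge (g : Γ) : -4 ≤ S4 g := by
  have h1 := sgn_le (dn (s4 g (false, false, false, true)))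
  have h2 := sgn_le (dn (s4 g (false, false, true, false)))
  have h3 := sgn_le (dn (s4 g (false, true, false, false)))
  have h4 := sgn_le (dn (s4 g (false, true, true, true)))
  unfold S4; omega

lemma S1_ge (g : Γ) : -1 ≤ S1 g := (sgn_le _).1

lemma lower_bound {k : ℕ} : ∀ {g : Γ}, g ∈ AA V W k → Feas (LL (nn g)) (RR (nn g)) k := by
  have hV : ∀ (k : ℕ) (g v : Γ), v ∈ V → Feas (LL (nn g)) (RR (nn g)) k →
      Feas (LL (nn (g * v))) (RR (nn (g * v))) k := by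
    rintro k g v hv ⟨A, h1, h2⟩
    rcases LR_V g hv with ⟨e1, e2⟩ | ⟨e1, e2⟩
    · exact ⟨A, by omega, by omega⟩
    · exact ⟨k - A, by omega, by omega⟩
  induction k with
  | zero =>
    intro g hg
    have hv := mem_AA_zero.1 hg
    exact ⟨0, by simp [LL, nn_V hv], by simp [RR, nn_V hv]⟩
  | succ k ih =>
    intro g hg
    obtain ⟨h, hh, w, hw, v, hv, rfl⟩ := mem_AA_succ.1 hg
    apply hV _ _ _ hv
    obtain ⟨A, h1, h2⟩ := ih hh
    have h4 := S4_ge h
    have h5 := S1_ge h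
    rcases mem_W_iff.1 hw with rfl | rfl | rfl | rfl
    · exact ⟨A, by rw [mul_one]; push_cast; omega, by rw [mul_one]; push_cast; omega⟩
    · obtain ⟨e1, e2⟩ := LR_y4 h
      exact ⟨A + 1, by push_cast; omega, by push_cast; omega⟩
    · obtain ⟨e1, e2⟩ := LR_y5 h
      exact ⟨A + 1, by push_cast; omega, by push_cast; omega⟩
    · obtain ⟨e1, e2⟩ := LR_d h
      exact ⟨A + 1, by push_cast; omega, by push_cast; omega⟩

end Pool.Agent.MP_1b52a1_al.H21
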