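import Mathlib

namespace Pool.Agent.MP_1b52a1_al.H21

abbrev U : Type := Bool × Bool × Bool × Bool

inductive Mv
  | a | b | y

def pa : U → U := fun u => (!u.1, u.2)

def pb : U → U
  | (false, q, r, s) => (false, !q, r, s)
  | (true, false, r, s) => (true, false, !r, s)
  | (true, true, r, s) => (true, true, r, s)

def py : U → U
  | (false, q, r, s) => (false, !q, r, !s)
  | (true, false, r, s) => (true, false, r, s)
  | (true, true, false, s) => (true, true, false, !s)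
  | (true, true, true, s) => (true, true, true, s)

def pz : U → U
  | (false, q, r, s) => (false, !q, r, !s)
  | (true, false, r, s) => (true, false, !r, s)
  | (true, true, r, s) => (true, true, r, s)

def pc : U → U
  | (false, q, r, s) => (false, !q, r, s)
  | (true, false, r, s) => (true, false, r, s)
  | (true, true, false, s) => (true, true, false, !s)
  | (true, true, true, s) => (true, true, true, s)

def jy : U → Bool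
  | (false, q, r, s) => xor q (xor r s)
  | (true, q, r, s) => q && r && s

def jz : U → Bool
  | (false, q, r, s) => xor q (xor r s)
  | (true, _, _, _) => false

def wy (u : U) : ℤ := if jy u then 1 else 0
def wz (u : U) : ℤ := if jz u then 1 else 0

def pm : Mv → U → U
  | .a => pa
  | .b => pb
  | .y => py

def wm : Mv → U → ℤ
  | .a => fun _ => 0
  | .b => fun _ => 0
  | .y => wy

def km : Mv → ℕ
  | .a => 0
  | .b => 0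
  | .y => 1

def pl : List Mv → U → U
  | [], u => u
  | m :: l, u => pl l (pm m u)

def cl : List Mv → U → ℤ
  | [], _ => 0
  | m :: l, u => cl l (pm m u) + wm m u

def kl : List Mv → ℕ
  | [] => 0
  | m :: l => kl l + km m

def uL : U := (false, false, false, false)
def uR : U := (true, false, false, false)
def stU (u : U) : U := (u.1, false, false, false)
def ind (u v : U) : ℤ := if v = u then 1 else 0

def cert0 : List Mv :=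
  [.a, .b, .a, .b, .a, .b, .y, .b, .a, .y, .b, .a, .b, .a, .b, .y, .a, .b, .a, .b, .a, .b, .a, .b,
    .y, .a, .b, .a, .b, .a, .b, .y, .a, .b, .a, .b, .a, .b, .a, .b, .y, .a, .y, .b, .a, .b, .a, .b,
    .a, .b, .y, .a, .b, .a, .b, .a, .b, .a, .b, .y, .b, .a, .b, .y, .a, .b, .a, .y, .a, .b, .y, .b,
    .a, .b, .y, .a, .b, .a, .b, .a, .b, .y, .a, .b, .a, .b, .a, .b, .a, .b, .y, .b, .a, .b, .a, .b,
    .a, .y, .a, .b, .a, .b, .a, .b, .a, .b, .y, .b, .a, .b, .a, .b, .a, .y, .b, .a, .b, .y, .b, .a,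
    .y, .a, .b, .a, .y, .b, .a, .b, .y, .b, .a, .b, .a, .y, .b, .a, .y, .b, .a, .b, .y, .a, .b, .a,
    .b, .a, .b, .y, .b, .y, .b, .a, .b, .a, .y, .b, .a, .b, .a, .b, .a, .y, .a, .b, .a, .b, .y, .a,
    .b, .a, .y, .b, .a, .b, .y, .a]

def cert1p : List Mv :=
  [.a, .b, .y, .b, .a, .y, .a, .b, .a, .y, .a, .b, .a, .b, .a, .b, .y, .b, .a, .y, .b, .a, .b, .a,
    .b, .a, .y, .b, .a, .b, .y, .b, .a, .b, .y, .b, .a, .b, .a, .b, .a, .b, .y, .b, .a, .b, .a, .b,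
    .a, .b, .y, .b, .y, .a, .b, .a, .b, .a, .b, .y, .b, .a, .b, .a, .b, .y, .a, .b, .a, .b, .a, .b,
    .y, .a, .b, .y, .b, .a, .b, .a, .b, .a, .y, .b, .a, .b, .a, .b, .a, .b, .y, .b, .a, .b, .a, .b,
    .a, .y, .a, .b, .a, .b, .a, .b, .a, .b, .y, .b, .a, .b, .a, .b, .a, .y, .a, .b, .a, .b, .y, .b,
    .a, .b, .y, .b, .a, .b, .y, .b, .a, .b, .a, .b, .a, .b, .y, .a, .b, .a, .b, .a, .b, .a, .b, .y,
    .b, .a, .y, .b, .a, .b, .a, .y, .a, .b, .a, .b, .a, .b, .y, .b, .a, .y, .a, .b, .a, .b, .a, .b,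
    .a, .b, .y, .b, .a, .b, .y, .a, .b, .a, .b, .a, .b, .a, .b, .y, .a, .b, .a, .b, .a, .b]

def cert1m : List Mv :=
  [.b, .a, .b, .a, .b, .a, .y, .a, .b, .y, .a, .b, .a, .b, .a, .b, .y, .b, .a, .y, .a, .b, .a, .b,
    .a, .b, .y, .a, .b, .a, .b, .a, .b, .a, .b, .y, .a, .b, .y, .a, .b, .a, .b, .a, .b, .a, .b, .y,
    .b, .a, .b, .a, .y, .b, .a, .b, .a, .b, .a, .b, .y, .a, .b, .a, .b, .a, .b, .a, .b, .y, .b, .a,
    .b, .a, .b, .a, .b, .y, .b, .a, .b, .a, .b, .a, .b, .y, .b, .y, .b, .a, .y, .a, .b, .a, .b, .a,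
    .b, .a, .b, .y, .a, .b, .y, .b, .a, .b, .y, .a, .b, .y, .a, .b, .a, .b, .a, .b, .y, .a, .b, .a,
    .b, .a, .b, .a, .b, .y, .a, .b, .a, .b, .a, .b, .y, .b, .a, .b, .a, .b, .a, .b, .y, .a, .b, .a,
    .b, .a, .b, .y, .a, .b, .a, .b, .a, .b, .a, .b, .y, .a, .b, .a, .b, .a, .b, .y, .a, .b, .a, .b,
    .a, .b, .a, .b, .y, .b, .a, .b, .y, .b, .a, .y, .a, .b, .y, .b, .a, .b, .a, .b, .a, .y, .b, .a,
    .b, .a, .b, .a, .b, .y, .b, .a]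

def cert2p : List Mv :=
  [.a, .b, .a, .b, .a, .b, .a, .y, .a, .b, .a, .b, .a, .y, .b, .a, .b, .a, .b, .y, .b, .a, .b, .a,
    .b, .y, .b, .a, .y, .b, .a, .b, .y, .b, .a, .b, .a, .b, .a, .y, .b, .y, .b, .a, .b, .a, .b, .y,
    .b, .a, .b, .y, .a, .b, .a, .b, .a, .b, .a, .b, .y, .b, .a, .b, .a, .y, .b, .a, .b, .y, .a, .b,
    .a, .b, .a, .b, .a, .b, .y, .b, .a, .b, .a, .b, .a, .b, .y, .a, .b, .a, .b, .y, .b, .a, .b, .y,
    .a, .b, .a, .b, .a, .b, .a, .b, .y, .a, .b, .a, .y, .a, .b, .y, .a, .y, .b, .a, .b, .a, .b, .a,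
    .b, .y, .b, .a, .b, .y, .a, .b, .a, .b, .a, .b, .y, .a, .b, .a, .b, .a, .b, .a, .b, .y, .a, .b,
    .a, .b, .a, .b, .y, .a, .b, .a, .b, .a, .b, .a, .b, .y, .b, .a, .b, .y, .b, .a, .y, .b, .a, .b,
    .a, .b, .a, .b, .y, .b, .a, .b, .y, .a, .b, .y, .b, .a]

def cert2m : List Mv :=
  [.b, .a, .b, .a, .y, .b, .a, .b, .a, .b, .a, .y, .b, .a, .b, .a, .b, .y, .a, .b, .a, .b, .y, .a,
    .b, .y, .b, .a, .b, .a, .b, .y, .b, .a, .b, .a, .b, .a, .y, .b, .y, .a, .y, .b, .a, .b, .y, .a,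
    .b, .a, .b, .a, .y, .b, .a, .b, .a, .b, .y, .b, .a, .b, .a, .b, .a, .b, .y, .a, .b, .a, .b, .a,
    .b, .a, .b, .y, .b, .a, .b, .y, .b, .a, .b, .a, .b, .a, .b, .y, .a, .b, .a, .b, .a, .b, .y, .a,
    .b, .a, .y, .b, .a, .b, .y, .a, .b, .a, .b, .a, .y, .b, .a, .b, .a, .b, .y, .b, .a, .b, .a, .b,
    .a, .b, .y, .a, .b, .a, .b, .a, .b, .a, .b, .y, .b, .a, .b, .a, .b, .a, .y, .a, .b, .a, .b, .a,
    .b, .a, .b, .y, .b, .a, .b, .a, .b, .a, .y, .b, .y, .b, .a, .b, .y, .b, .a, .b, .a, .b, .a, .b,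
    .y, .a, .b, .a, .b, .a, .y, .a, .b, .a, .b, .a, .b, .a, .b, .y, .a, .b, .y, .a]

def cert3p : List Mv :=
  [.b, .a, .y, .b, .a, .y, .b, .a, .b, .a, .b, .y, .a, .b, .y, .b, .y, .b, .a, .b, .y, .b, .a, .y,
    .b, .a, .b, .a, .b, .a, .b, .y, .a, .b, .a, .b, .a, .b, .y, .a, .b, .y, .b, .a, .b, .a, .b, .a,
    .b, .y, .b, .a, .b, .a, .b, .a, .y, .a, .b, .a, .b, .a, .b, .a, .b, .y, .b, .a, .b, .y, .a, .b,
    .a, .b, .y, .b, .a, .y, .a, .b, .a, .b, .a, .b, .y, .b, .a, .b, .y, .a, .b, .y, .a, .b, .a, .b,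
    .a, .b, .y, .b, .a, .b, .y, .b, .a, .y, .b, .a, .b, .a, .b, .a, .y, .b, .a, .y, .a, .b, .a, .b,
    .a, .b, .a, .b, .y, .b, .a, .y, .b, .a, .b, .a, .y, .a, .b, .a, .b, .a, .b, .y, .b, .a, .y, .b,
    .a, .b, .a, .b, .a, .y, .a, .b, .a, .b, .a, .b, .a, .b, .y, .b, .a, .b, .y, .b, .a, .b, .a, .b,
    .a, .b]

def cert3m : List Mv :=
  [.y, .b, .a, .b, .a, .b, .a, .y, .b, .y, .b, .a, .b, .y, .a, .b, .a, .b, .a, .b, .y, .b, .a, .b,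
    .a, .b, .a, .b, .y, .b, .a, .y, .a, .b, .a, .b, .a, .b, .a, .b, .y, .a, .b, .a, .b, .a, .b, .y,
    .a, .b, .a, .b, .a, .b, .a, .b, .y, .b, .a, .b, .y, .b, .y, .b, .a, .b, .y, .b, .a, .y, .b, .a,
    .y, .a, .b, .a, .b, .a, .b, .a, .b, .y, .b, .y, .b, .a, .b, .a, .b, .a, .b, .y, .b, .a, .b, .a,
    .b, .y, .a, .b, .a, .b, .a, .b, .y, .b, .y, .a, .b, .y, .b, .y, .b, .a, .b, .a, .b, .a, .b, .y,
    .a, .b, .a, .b, .a, .b, .a, .b, .y, .b, .a, .b, .y, .b, .a, .b, .a, .b, .a, .b, .y, .b, .a, .b,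
    .a, .b, .a, .b, .y, .b, .a, .b, .a, .b, .a, .y, .a, .b, .a, .b, .a, .b, .a, .b, .y, .b, .a, .b,
    .a, .b, .a, .b, .y, .a, .b, .a, .b, .a, .b, .a, .b, .y, .a, .b]

def cert4p : List Mv :=
  [.b, .a, .b, .a, .b, .a, .y, .a, .b, .a, .b, .a, .b, .y, .a, .b, .y, .b, .a, .b, .a, .b, .a, .b,
    .y, .b, .a, .b, .a, .b, .y, .b, .a, .b, .y, .b, .y, .b, .a, .b, .y, .a, .b, .a, .b, .a, .b, .a,
    .b, .y, .b, .a, .y, .b, .a, .b, .a, .b, .a, .y, .a, .b, .a, .b, .a, .b, .a, .b, .y, .a, .b, .a,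
    .b, .a, .b, .y, .a, .b, .a, .y, .a, .b, .y, .b, .a, .b, .y, .a, .b, .a, .y, .a, .b, .a, .b, .a,
    .b, .a, .b, .y, .b, .a, .b, .y, .b, .a, .b, .a, .y, .a, .b, .a, .b, .a, .b, .y, .a, .b, .y, .b,
    .a, .b, .a, .b, .y, .b, .a, .b, .a, .b, .a, .y, .a, .b, .a, .b, .a, .b, .a, .b, .y, .a, .b, .y,
    .b, .a, .b, .y, .b, .a, .y, .a, .b, .a, .y, .a, .y, .b, .a, .b, .a, .b, .a, .b, .y, .b, .a, .b,
    .y, .a]

def cert4m : List Mv :=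
  [.b, .y, .a, .b, .a, .b, .a, .b, .y, .b, .y, .a, .b, .a, .y, .b, .a, .b, .y, .a, .b, .a, .b, .a,
    .b, .a, .y, .b, .a, .y, .a, .y, .b, .a, .b, .a, .b, .a, .b, .y, .b, .a, .b, .a, .b, .a, .y, .a,
    .b, .a, .b, .y, .a, .b, .a, .b, .a, .y, .b, .a, .b, .a, .b, .a, .b, .y, .b, .a, .b, .y, .b, .a,
    .y, .b, .a, .b, .a, .b, .a, .y, .a, .b, .a, .b, .y, .a, .b, .y, .b, .y, .b, .a, .b, .a, .b, .a,
    .b, .y, .b, .a, .b, .y, .b, .a, .y, .b, .y, .a, .b, .y, .b, .a, .b, .y, .b, .a, .b, .y, .a, .b,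
    .y, .a, .b, .a, .b, .a, .b, .y, .a, .b, .y, .b, .a, .b, .a, .b, .a, .b, .y, .b, .y, .a, .b, .y,
    .b, .a, .b, .a, .b, .a]

def cert5p : List Mv :=
  [.a, .b, .y, .b, .a, .b, .a, .y, .a, .b, .a, .b, .a, .y, .a, .b, .a, .b, .a, .b, .y, .a, .y, .a,
    .b, .a, .b, .a, .b, .a, .b, .y, .a, .b, .a, .b, .a, .b, .y, .b, .a, .y, .b, .a, .b, .a, .b, .a,
    .y, .b, .a, .y, .a, .b, .a, .b, .a, .b, .a, .b, .y, .b, .a, .b, .a, .b, .a, .b, .y, .b, .a, .b,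
    .a, .b, .a, .b, .y, .a, .b, .a, .b, .a, .b, .y, .a, .b, .a, .b, .a, .b, .a, .b, .y, .b, .a, .b,
    .y, .a, .b, .a, .b, .a, .b, .y, .b, .a, .b, .a, .b, .a, .b, .y, .a, .b, .a, .b, .a, .b, .a, .b,
    .y, .b, .a, .y, .b, .a, .b, .y, .b, .a, .b, .a, .b, .a, .b, .y, .b, .y, .a, .b, .y, .a, .b, .a,
    .b, .a, .b, .a, .b, .y, .a, .b, .y, .a, .b, .a, .b, .a, .b, .a, .b, .y, .a, .b, .y, .a, .b, .a,
    .y, .b, .a, .b, .y, .b, .a, .b, .a, .b, .a, .b, .y, .b, .a, .b, .a, .b, .a, .y, .a, .b, .a, .b,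
    .a, .b]

def cert5m : List Mv :=
  [.b, .a, .b, .a, .y, .a, .b, .a, .b, .a, .b, .y, .a, .b, .a, .b, .y, .a, .y, .a, .b, .y, .b, .a,
    .b, .a, .b, .a, .b, .y, .b, .a, .y, .b, .y, .a, .b, .a, .b, .a, .y, .a, .b, .a, .b, .a, .b, .y,
    .b, .a, .b, .a, .b, .a, .b, .y, .b, .a, .b, .a, .y, .b, .a, .b, .a, .b, .a, .y, .a, .b, .a, .b,
    .a, .b, .y, .a, .b, .a, .b, .a, .b, .a, .b, .y, .b, .a, .b, .a, .b, .a, .y, .b, .y, .a, .y, .a,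
    .b, .a, .b, .a, .b, .a, .b, .y, .a, .b, .a, .b, .a, .b, .y, .b, .a, .b, .a, .b, .a, .b, .y, .b,
    .a, .b, .y, .b, .a, .y, .a, .y, .a, .b, .a, .b, .a, .b, .a, .b, .y, .a, .b, .a, .b, .a, .b, .y,
    .b, .a, .b, .y, .b, .a, .b, .y, .a, .b, .a, .y, .b, .y, .b, .a, .b, .a, .b, .a, .y, .a, .b, .a,
    .b, .a, .b, .a, .b, .y, .b, .a]

def cert6p : List Mv :=
  [.b, .y, .a, .b, .y, .a, .b, .a, .b, .a, .b, .a, .b, .y, .b, .a, .b, .a, .b, .a, .b, .y, .b, .a,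
    .b, .a, .y, .b, .a, .b, .y, .b, .a, .b, .a, .b, .a, .b, .y, .a, .b, .a, .b, .a, .b, .y, .a, .b,
    .a, .b, .a, .b, .a, .b, .y, .b, .a, .b, .y, .a, .b, .a, .b, .a, .y, .b, .a, .b, .y, .b, .a, .b,
    .a, .y, .b, .a, .b, .y, .b, .a, .b, .a, .b, .a, .b, .y, .b, .a, .b, .a, .b, .a, .y, .a, .b, .a,
    .b, .a, .b, .y, .b, .y, .b, .a, .b, .y, .a, .b, .a, .b, .a, .b, .a, .b, .y, .a, .b, .y, .b, .a,
    .b, .y, .b, .a, .b, .y, .b, .y, .b, .a, .b, .a, .b, .a, .b, .y, .b, .a, .b, .a, .b, .y, .b, .a,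
    .b, .a, .b, .y, .a, .b, .y, .b, .a, .b, .a, .b, .a, .b, .y, .b, .a, .b, .y, .b, .a, .y, .b, .a,
    .b, .y, .b, .a, .b, .a]

def cert6m : List Mv :=
  [.b, .a, .b, .a, .y, .a, .b, .a, .b, .a, .b, .y, .y, .b, .a, .b, .y, .a, .b, .a, .b, .a, .b, .a,
    .b, .y, .b, .a, .b, .a, .b, .a, .y, .a, .b, .a, .b, .y, .b, .a, .y, .b, .a, .b, .y, .a, .b, .a,
    .b, .a, .b, .a, .b, .y, .b, .a, .y, .b, .a, .b, .a, .b, .y, .a, .b, .a, .b, .a, .b, .a, .b, .y,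
    .b, .a, .b, .a, .b, .y, .b, .a, .b, .a, .b, .a, .b, .y, .b, .y, .b, .a, .b, .y, .a, .b, .a, .b,
    .a, .b, .a, .b, .y, .a, .b, .y, .b, .y, .a, .b, .a, .b, .a, .b, .a, .b, .y, .b, .a, .b, .y, .a,
    .b, .y, .b, .a, .b, .y, .b, .a, .b, .a, .b, .a, .b, .y, .b, .a, .y, .b, .y, .b, .a, .b, .a, .b,
    .a, .b, .y, .a, .b, .a, .b, .a, .b, .a, .b, .y, .b, .a, .b, .y, .a, .b, .y, .b, .a, .b, .y, .b]

def cert7p : List Mv :=
  [.a, .y, .b, .y, .a, .b, .y, .a, .b, .a, .b, .a, .b, .y, .b, .a, .b, .y, .b, .a, .b, .a, .y, .b,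
    .a, .b, .a, .b, .y, .b, .a, .b, .a, .b, .a, .b, .y, .b, .a, .b, .a, .b, .a, .b, .y, .b, .a, .y,
    .a, .b, .a, .b, .a, .b, .a, .b, .y, .b, .a, .b, .a, .b, .a, .b, .y, .b, .a, .b, .y, .b, .y, .a,
    .b, .a, .b, .a, .b, .y, .a, .b, .a, .b, .a, .b, .a, .b, .y, .b, .a, .b, .a, .b, .y, .a, .b, .y,
    .a, .b, .a, .b, .a, .b, .a, .b, .y, .a, .b, .y, .b, .a, .b, .a, .y, .b, .a, .b, .y, .b, .a, .b,
    .a, .b, .a, .b, .y, .b, .a, .b, .y, .a, .b, .a, .b, .a, .b, .a, .b, .y, .b, .a, .b, .a, .b, .a,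
    .y, .b, .a, .b, .y, .a, .b, .a, .b, .a, .b, .a, .b, .y, .a, .b, .a, .b, .a, .b, .y, .b, .a, .b,
    .a, .b, .y, .a, .b, .a, .b, .a, .b, .a, .b, .y, .a, .b, .a, .b, .a, .b, .y, .b, .a, .b]

def cert7m : List Mv :=
  [.b, .a, .b, .a, .y, .b, .a, .b, .y, .b, .a, .b, .a, .b, .a, .b, .y, .b, .a, .b, .y, .y, .b, .y,
    .a, .b, .y, .b, .a, .y, .b, .a, .b, .y, .a, .b, .a, .b, .a, .b, .a, .b, .y, .b, .a, .b, .a, .b,
    .a, .y, .a, .b, .a, .b, .a, .b, .a, .b, .y, .b, .a, .b, .a, .b, .a, .b, .y, .b, .a, .b, .y, .b,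
    .a, .b, .y, .a, .b, .a, .b, .a, .b, .a, .b, .y, .a, .b, .a, .y, .b, .a, .b, .y, .b, .a, .b, .a,
    .b, .a, .b, .y, .a, .b, .a, .b, .a, .y, .a, .b, .a, .b, .a, .b, .a, .b, .y, .b, .a, .y, .b, .y,
    .b, .a, .b, .a, .b, .y, .a, .b, .y, .a, .b, .a, .b, .a, .b, .a, .b, .y, .a, .b, .a, .y, .a, .b,
    .a, .b, .a, .b, .a, .b, .y, .a, .b, .y, .a, .b, .a, .b, .y, .a, .b, .a, .b, .a, .b, .a, .b, .y,
    .b, .a, .b, .y, .b, .a, .b, .a, .b, .a]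

def cert9p : List Mv :=
  [.a, .b, .a, .b, .a, .b, .a, .b, .y, .a, .b, .a, .y, .a, .y, .b, .a, .b, .a, .b, .a, .b, .y, .b,
    .a, .y, .a, .b, .a, .y, .b, .a, .b, .a, .y, .a, .b, .a, .b, .a, .b, .y, .b, .y, .a, .b, .a, .b,
    .a, .b, .a, .b, .y, .a, .b, .a, .b, .a, .y, .b, .a, .b, .a, .b, .y, .a, .b, .a, .b, .y, .b, .a,
    .b, .y, .a, .b, .y, .a, .b, .a, .b, .a, .b, .y, .b, .a, .b, .a, .b, .a, .b, .y, .a, .b, .a, .b,
    .a, .b, .y, .b, .a, .y, .a, .b, .a, .b, .a, .b, .y, .b, .y, .b, .a, .b, .y, .a, .b, .a, .y, .b,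
    .a, .b, .y, .a, .b, .a, .b, .a, .b, .a, .b, .y, .b, .a, .b, .y, .b, .a, .y, .b, .a, .b, .y, .a,
    .b, .a, .b, .a, .b, .a, .b, .y, .b, .a, .b, .a, .b, .y, .b, .a, .b, .a, .b, .a, .y, .a, .b, .a,
    .b, .a, .b, .a, .b, .y, .b, .a, .b, .a]

def cert9m : List Mv :=
  [.a, .b, .a, .b, .a, .y, .a, .b, .a, .b, .a, .b, .y, .b, .a, .y, .a, .b, .a, .b, .a, .b, .a, .y,
    .b, .a, .b, .a, .b, .a, .b, .y, .a, .b, .a, .b, .a, .b, .a, .b, .y, .a, .b, .a, .b, .y, .b, .a,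
    .y, .b, .a, .b, .y, .b, .a, .y, .b, .a, .b, .a, .y, .a, .y, .b, .a, .b, .y, .a, .b, .a, .b, .a,
    .b, .a, .b, .y, .b, .a, .b, .a, .b, .a, .y, .a, .b, .a, .b, .a, .b, .a, .b, .y, .b, .a, .b, .y,
    .a, .b, .a, .b, .a, .b, .y, .b, .a, .y, .a, .b, .a, .b, .a, .b, .y, .b, .a, .b, .a, .b, .a, .b,
    .y, .b, .a, .b, .y, .a, .b, .a, .b, .a, .b, .a, .b, .y, .b, .y, .b, .a, .b, .y, .b, .y, .a, .b,
    .a, .b, .a, .b, .a, .b, .y, .b, .a, .b, .a, .b, .a, .b, .y, .a, .b, .a, .b, .a, .b, .a, .b, .y,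
    .b, .a, .y, .a, .b, .a, .b, .a, .b, .a, .b, .y, .b, .a, .b, .a, .b, .a, .b, .y, .a, .b, .a, .b]

def cert10p : List Mv :=
  [.b, .a, .b, .a, .b, .a, .y, .a, .b, .a, .b, .a, .b, .y, .a, .b, .y, .b, .a, .y, .a, .b, .a, .b,
    .a, .b, .a, .b, .y, .a, .b, .a, .b, .a, .b, .y, .b, .a, .b, .a, .b, .a, .y, .b, .a, .b, .y, .b,
    .y, .a, .b, .y, .b, .a, .b, .a, .y, .b, .a, .b, .a, .b, .a, .b, .y, .b, .a, .y, .b, .a, .b, .a,
    .y, .b, .a, .b, .a, .b, .a, .y, .a, .b, .a, .b, .a, .b, .a, .b, .y, .b, .a, .b, .a, .b, .a, .y,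
    .a, .b, .a, .b, .a, .b, .a, .b, .y, .a, .b, .a, .b, .a, .b, .y, .b, .a, .b, .a, .b, .y, .b, .a,
    .b, .a, .b, .a, .y, .b, .a, .b, .y, .a, .b, .a, .b, .a, .b, .a, .b, .y, .b, .a, .b, .a, .b, .a,
    .y, .b, .a, .b, .a, .b, .a, .b, .y, .a, .b, .a, .b, .a, .b, .y, .a, .b, .a, .b, .a, .b, .a, .b,
    .y, .a, .b, .a, .b, .a, .b, .y, .b, .a, .b, .a, .b, .a, .b, .y, .b, .a, .b, .y, .b, .y, .a, .b,
    .a, .b, .a, .b, .y, .a, .b, .a]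

def cert10m : List Mv :=
  [.a, .b, .a, .b, .a, .b, .a, .b, .y, .a, .b, .a, .b, .a, .b, .a, .b, .y, .b, .a, .b, .a, .b, .a,
    .b, .y, .a, .b, .a, .b, .a, .b, .a, .y, .b, .a, .b, .a, .b, .a, .b, .y, .b, .y, .a, .b, .y, .a,
    .b, .a, .b, .a, .b, .y, .b, .a, .b, .y, .b, .a, .b, .a, .y, .b, .a, .b, .y, .b, .a, .y, .a, .y,
    .b, .a, .b, .a, .b, .a, .b, .y, .a, .b, .a, .b, .a, .b, .y, .a, .b, .y, .b, .a, .b, .a, .b, .a,
    .b, .y, .b, .a, .y, .b, .a, .b, .a, .b, .y, .a, .b, .a, .b, .a, .b, .y, .a, .b, .a, .b, .a, .b,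
    .a, .b, .y, .b, .a, .b, .a, .b, .a, .y, .a, .b, .a, .b, .a, .b, .a, .b, .y, .b, .a, .b, .a, .b,
    .a, .b, .y, .a, .b, .a, .b, .a, .b, .a, .b, .y, .b, .a, .y, .b, .y, .b, .a, .b, .a, .b, .a, .b,
    .y, .a, .b, .a, .b, .a, .b, .a, .b, .y, .b, .a, .b, .y, .a, .b, .a, .y, .b, .a, .b, .y, .a, .b,
    .a, .b]

def cert11p : List Mv :=
  [.a, .b, .a, .y, .b, .a, .b, .a, .b, .a, .y, .b, .a, .b, .a, .b, .a, .y, .b, .y, .a, .b, .a, .b,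
    .a, .b, .y, .a, .b, .y, .b, .a, .b, .a, .b, .a, .b, .y, .a, .b, .a, .b, .a, .b, .a, .b, .y, .a,
    .b, .a, .b, .a, .b, .a, .b, .y, .b, .a, .b, .y, .a, .b, .a, .b, .a, .b, .y, .b, .y, .b, .a, .b,
    .y, .a, .b, .a, .b, .a, .b, .a, .b, .y, .b, .a, .b, .a, .b, .a, .b, .y, .b, .a, .b, .a, .b, .a,
    .y, .b, .a, .b, .a, .b, .y, .b, .a, .b, .a, .b, .y, .a, .b, .a, .b, .a, .b, .y, .a, .b, .a, .b,
    .y, .a, .b, .a, .y, .b, .a, .b, .a, .b, .a, .y, .a, .b, .a, .b, .y, .a, .y, .a, .b, .a, .b, .a,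
    .b, .a, .b, .y, .a, .b, .a, .b, .a, .b, .y, .b, .a, .b, .y, .a, .b, .a, .y, .b, .a, .b, .a, .b,
    .a, .y, .a, .b, .a, .b, .a, .b, .a, .b, .y, .a, .b, .a, .b, .a, .b, .y, .b, .a, .b, .a, .b, .a,
    .b, .y, .a, .b, .a, .b]

def cert11m : List Mv :=
  [.a, .b, .a, .b, .a, .y, .a, .b, .a, .b, .a, .b, .y, .a, .b, .a, .b, .a, .y, .b, .a, .b, .a, .b,
    .a, .b, .y, .b, .y, .b, .a, .b, .y, .b, .a, .b, .y, .a, .b, .a, .b, .a, .b, .a, .y, .b, .a, .y,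
    .b, .y, .a, .b, .a, .b, .a, .b, .a, .y, .b, .a, .b, .y, .a, .b, .a, .b, .a, .b, .a, .b, .y, .b,
    .a, .b, .a, .y, .a, .b, .a, .b, .a, .b, .y, .a, .b, .a, .b, .a, .b, .a, .b, .y, .b, .a, .b, .a,
    .y, .b, .a, .b, .y, .b, .a, .y, .b, .a, .b, .a, .b, .a, .y, .a, .b, .a, .b, .a, .b, .a, .b, .y,
    .a, .b, .a, .b, .a, .b, .y, .a, .b, .a, .b, .y, .a, .b, .a, .b, .a, .b, .a, .b, .y, .b, .a, .b,
    .a, .b, .a, .y, .b, .a, .b, .y, .b, .a, .y, .a, .b, .a, .b, .a, .b, .a, .b, .y, .a, .b, .a, .b,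
    .a, .b, .a, .b, .y, .a, .b, .y, .a, .b, .a, .b, .a, .b, .a, .b, .y, .a, .b, .y, .a, .b, .a, .b]

def cert12p : List Mv :=
  [.a, .b, .a, .b, .a, .y, .a, .y, .a, .b, .a, .b, .a, .b, .a, .b, .y, .b, .a, .b, .y, .b, .a, .b,
    .a, .b, .a, .y, .b, .a, .b, .a, .b, .a, .y, .a, .b, .a, .b, .y, .b, .a, .b, .y, .b, .y, .a, .b,
    .a, .b, .a, .y, .b, .a, .y, .a, .b, .a, .b, .a, .b, .a, .b, .y, .b, .a, .y, .a, .b, .a, .b, .a,
    .b, .a, .b, .y, .b, .a, .b, .a, .b, .a, .b, .y, .b, .a, .b, .a, .b, .a, .y, .b, .a, .b, .a, .b,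
    .a, .y, .a, .b, .a, .b, .a, .b, .a, .b, .y, .a, .y, .b, .a, .b, .a, .b, .a, .b, .y, .b, .a, .b,
    .a, .b, .a, .b, .y, .a, .b, .a, .b, .a, .b, .a, .b, .y, .a, .b, .a, .b, .a, .b, .a, .b, .y, .b,
    .a, .b, .a, .b, .a, .b, .y, .a, .b, .a, .b, .a, .b, .a, .b, .y, .a, .b, .a, .b, .a, .y, .b, .a,
    .y, .b, .y, .a, .b, .y, .a, .b, .a, .b, .y, .a, .b, .a, .b, .a, .b, .a, .b, .y, .b, .a, .b, .y,
    .b, .a, .b, .a]

def cert12m : List Mv :=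
  [.b, .a, .b, .a, .b, .a, .b, .y, .a, .b, .a, .b, .a, .b, .a, .y, .b, .a, .b, .y, .b, .a, .y, .b,
    .a, .b, .a, .b, .a, .b, .y, .b, .y, .b, .a, .b, .a, .b, .a, .b, .y, .a, .b, .a, .b, .a, .y, .a,
    .b, .a, .b, .a, .b, .a, .b, .y, .a, .b, .a, .b, .a, .b, .a, .y, .b, .a, .b, .a, .b, .a, .b, .y,
    .b, .a, .b, .y, .a, .b, .y, .b, .a, .b, .y, .b, .a, .b, .a, .b, .a, .b, .y, .b, .y, .a, .b, .a,
    .b, .y, .b, .a, .y, .b, .a, .b, .y, .a, .b, .a, .b, .y, .b, .a, .b, .a, .b, .a, .b, .y, .b, .y,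
    .a, .b, .a, .b, .y, .a, .b, .a, .b, .a, .b, .a, .b, .y, .b, .a, .b, .y, .a, .b, .a, .b, .y, .b,
    .a, .b, .a, .b, .a, .b, .y, .b, .a, .b, .y, .a, .b, .a, .b, .a, .y, .b, .a, .b, .a, .b, .y, .b,
    .a, .b, .a, .b, .a, .b, .y, .a, .b, .a, .b, .a, .b, .a, .b, .y, .a, .b, .a, .b, .a, .b]

def cert13p : List Mv :=
  [.a, .b, .a, .b, .a, .b, .a, .y, .a, .b, .a, .b, .a, .b, .a, .b, .y, .a, .b, .y, .a, .b, .a, .b,
    .a, .b, .a, .y, .a, .b, .a, .b, .a, .b, .a, .b, .y, .a, .b, .a, .b, .a, .y, .b, .a, .y, .b, .a,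
    .b, .y, .b, .a, .b, .a, .b, .y, .a, .b, .a, .b, .a, .y, .b, .a, .b, .a, .b, .a, .y, .b, .a, .b,
    .a, .b, .a, .y, .a, .b, .a, .b, .a, .b, .a, .b, .y, .b, .a, .b, .a, .b, .a, .y, .b, .a, .b, .a,
    .b, .a, .b, .y, .b, .a, .b, .y, .b, .a, .b, .y, .b, .a, .y, .a, .y, .b, .a, .b, .a, .b, .a, .b,
    .y, .a, .b, .a, .b, .a, .b, .a, .b, .y, .b, .a, .b, .a, .b, .a, .b, .y, .b, .a, .b, .y, .b, .a,
    .b, .y, .b, .a, .b, .a, .b, .a, .b, .y, .b, .a, .b, .y, .b, .y, .b, .a, .b, .y, .b, .a, .b, .y,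
    .a, .y, .a, .b, .a, .b, .a, .b, .a, .b, .y, .a, .b, .a, .b, .a, .b, .y, .b, .a, .b, .a, .b, .a]

def cert13m : List Mv :=
  [.a, .b, .a, .b, .a, .y, .y, .b, .a, .b, .a, .b, .a, .y, .a, .b, .a, .b, .a, .b, .a, .b, .y, .a,
    .b, .a, .b, .a, .b, .a, .y, .b, .a, .b, .y, .a, .b, .a, .b, .y, .b, .a, .b, .a, .y, .b, .a, .b,
    .a, .b, .a, .b, .y, .b, .y, .a, .b, .y, .b, .a, .b, .a, .b, .a, .y, .a, .b, .a, .b, .y, .a, .b,
    .a, .b, .a, .b, .a, .b, .y, .b, .a, .y, .a, .b, .a, .b, .a, .b, .a, .b, .y, .a, .b, .a, .b, .a,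
    .b, .a, .y, .a, .b, .a, .b, .a, .b, .a, .b, .y, .a, .b, .y, .a, .b, .a, .b, .a, .b, .a, .b, .y,
    .a, .b, .y, .b, .a, .b, .y, .b, .a, .b, .y, .a, .b, .y, .b, .a, .b, .y, .a, .b, .a, .b, .a, .b,
    .a, .y, .b, .a, .b, .a, .b, .a, .b, .y, .a, .b, .a, .b, .a, .b, .a, .b, .y, .b, .a, .y, .b, .a,
    .b, .a, .y, .b, .a, .b, .a, .b, .a, .y, .a, .b, .a, .b, .a, .b, .a, .b, .y, .a, .b, .a]

def cert14p : List Mv :=
  [.a, .b, .a, .b, .a, .b, .y, .a, .b, .a, .b, .a, .y, .b, .y, .a, .y, .b, .a, .b, .a, .b, .a, .b,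
    .y, .b, .a, .b, .y, .a, .b, .a, .b, .a, .y, .a, .b, .a, .b, .a, .b, .y, .b, .a, .y, .a, .b, .y,
    .b, .a, .b, .a, .y, .a, .b, .a, .b, .a, .b, .a, .b, .y, .a, .b, .a, .b, .a, .y, .b, .a, .b, .a,
    .b, .a, .y, .b, .a, .y, .a, .b, .a, .b, .a, .b, .a, .b, .y, .a, .b, .a, .y, .a, .b, .a, .b, .a,
    .b, .a, .b, .y, .b, .a, .b, .a, .b, .a, .b, .y, .b, .a, .b, .a, .y, .a, .b, .a, .b, .a, .b, .a,
    .b, .y, .b, .a, .b, .a, .b, .a, .b, .y, .b, .a, .b, .a, .b, .a, .b, .y, .a, .b, .a, .b, .a, .b,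
    .a, .b, .y, .b, .a, .b, .a, .b, .a, .b, .y, .b, .y, .a, .b, .y, .a, .b, .a, .b, .a, .b, .y, .b,
    .a, .b, .a, .b, .a, .b, .y, .b, .a, .b, .y, .b, .y, .b, .a, .b, .y, .a, .b, .a, .b, .a]

def cert14m : List Mv :=
  [.a, .b, .a, .b, .a, .y, .a, .b, .a, .b, .a, .b, .y, .b, .a, .y, .b, .a, .y, .b, .a, .b, .y, .b,
    .a, .b, .a, .b, .a, .b, .y, .a, .b, .a, .b, .a, .b, .a, .y, .a, .b, .a, .y, .a, .b, .a, .b, .a,
    .b, .y, .b, .a, .b, .a, .b, .y, .b, .a, .b, .a, .b, .a, .b, .y, .b, .a, .b, .a, .b, .a, .b, .y,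
    .b, .a, .b, .a, .b, .a, .y, .a, .b, .y, .b, .a, .b, .a, .b, .a, .y, .b, .a, .b, .a, .b, .a, .b,
    .y, .a, .b, .a, .b, .a, .b, .y, .a, .b, .a, .b, .a, .b, .a, .b, .y, .b, .a, .b, .a, .b, .a, .b,
    .y, .b, .y, .b, .a, .b, .a, .b, .a, .b, .y, .a, .b, .a, .b, .a, .b, .y, .b, .a, .b, .a, .b, .a,
    .b, .y, .b, .a, .b, .a, .b, .a, .b, .y, .a, .b, .a, .b, .a, .b, .a, .b, .y, .b, .a, .b, .a, .b,
    .a, .b, .y, .a, .b, .a, .y, .a, .b, .a, .b, .a, .b, .a, .b, .y, .a, .b, .y, .b, .a, .b, .a, .b,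
    .a, .b, .y, .b, .a, .b, .a, .b, .a, .b, .y, .a, .b, .a, .b, .a, .b, .a, .b, .y, .a, .b]

def cert15p : List Mv :=
  [.y, .b, .a, .b, .a, .b, .a, .y, .a, .b, .a, .b, .a, .y, .a, .b, .a, .b, .a, .b, .y, .a, .b, .y,
    .b, .a, .b, .a, .b, .a, .b, .y, .b, .a, .y, .a, .y, .b, .a, .b, .a, .b, .a, .b, .y, .b, .a, .b,
    .a, .b, .a, .y, .a, .b, .a, .b, .a, .b, .a, .b, .y, .b, .a, .b, .a, .b, .a, .b, .y, .a, .b, .a,
    .b, .a, .b, .a, .b, .y, .a, .b, .a, .b, .a, .y, .b, .y, .a, .b, .a, .b, .a, .b, .y, .b, .a, .b,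
    .a, .b, .y, .a, .b, .a, .b, .y, .b, .a, .b, .a, .b, .a, .b, .y, .b, .a, .b, .a, .b, .a, .b, .y,
    .b, .a, .b, .y, .a, .b, .a, .y, .b, .a, .b, .y, .b, .a, .b, .a, .b, .a, .b, .y, .a, .b, .a, .b,
    .a, .b, .a, .b, .y, .b, .a, .b, .a, .b, .a, .b, .y, .b, .a, .y, .b, .a, .b, .a, .b, .a, .b, .y,
    .b, .a, .b, .a, .b, .y, .a, .b, .a, .b, .y, .b, .a, .b, .y, .a, .b, .a, .b, .a, .b, .a, .b, .y,
    .b, .a, .b, .a, .b, .a]

def cert15m : List Mv :=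
  [.a, .b, .y, .b, .a, .b, .a, .b, .a, .y, .b, .a, .b, .a, .y, .a, .b, .a, .b, .a, .y, .b, .a, .b,
    .a, .b, .a, .y, .b, .a, .b, .a, .b, .a, .b, .y, .b, .a, .y, .b, .a, .b, .y, .a, .b, .a, .b, .a,
    .b, .a, .b, .y, .b, .a, .y, .a, .b, .a, .b, .a, .b, .a, .b, .y, .b, .a, .b, .a, .b, .a, .b, .y,
    .b, .a, .b, .a, .b, .a, .y, .b, .a, .y, .a, .b, .a, .b, .a, .b, .a, .b, .y, .b, .a, .b, .a, .b,
    .a, .b, .y, .a, .b, .a, .b, .a, .b, .y, .b, .a, .b, .a, .b, .a, .b, .y, .b, .a, .b, .y, .a, .b,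
    .y, .a, .b, .a, .b, .a, .b, .a, .b, .y, .b, .a, .b, .a, .b, .a, .b, .y, .b, .a, .y, .a, .b, .a,
    .b, .a, .b, .a, .b, .y, .a, .b, .y, .b, .a, .b, .a, .b, .y, .b, .a, .b, .a, .b, .a, .b, .y, .b,
    .a, .b, .y, .a, .b, .a, .b, .y, .b, .a, .b, .a, .b, .a, .b, .y, .b, .y, .b, .a, .b, .a, .b, .a,
    .b, .y, .a, .b, .a, .b, .a, .b]

def certXp : List Mv :=
  [.a, .b, .a, .y, .a, .y, .b, .a, .y, .a, .b, .a, .b, .y, .a, .b, .a, .b, .a, .b, .y, .b, .a, .y,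
    .b, .a, .y, .y, .b, .a, .b, .y, .a, .b, .a, .y, .a, .b, .a, .y, .b, .a, .b, .a, .b, .a, .b, .y,
    .b, .a, .b, .a, .b, .a, .y, .b, .a, .b, .a, .b, .a, .b, .y, .b, .a, .b, .y, .b, .y, .a, .b, .a,
    .b, .a, .b, .y, .b, .a, .b, .y, .b, .a, .b, .a, .b, .a, .y, .a, .b, .y, .b, .y, .b, .a, .b, .y,
    .b, .y, .a, .b, .a, .b, .a, .b, .y, .b, .a, .y, .b, .a, .b, .a, .b, .a, .y, .a, .b, .a, .b, .a,
    .b, .a, .b, .y, .b, .a, .b, .y, .b, .a, .y, .a, .y, .a, .b, .a, .b, .a, .b, .a, .b, .y, .b, .a,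
    .b, .y]

def certXm : List Mv :=
  [.b, .a, .b, .a, .b, .a, .b, .y, .a, .b, .y, .y, .a, .b, .a, .b, .a, .y, .b, .a, .b, .a, .y, .a,
    .y, .b, .a, .b, .a, .b, .a, .y, .b, .a, .b, .a, .b, .a, .y, .a, .b, .a, .b, .a, .y, .a, .b, .y,
    .b, .a, .b, .y, .b, .y, .a, .b, .a, .b, .a, .b, .a, .b, .y, .a, .b, .a, .b, .a, .b, .a, .b, .y,
    .a, .b, .a, .b, .a, .b, .a, .b, .y, .b, .a, .b, .y, .b, .y, .b, .a, .b, .y, .b, .y, .a, .b, .y,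
    .a, .b, .a, .b, .a, .b, .a, .b, .y, .a, .b, .a, .b, .y, .b, .a, .y, .b, .a, .b, .a, .y, .a, .b,
    .a, .b, .y, .b, .a, .y, .a, .b, .a, .b, .a, .b, .a, .b, .y, .b, .a, .b, .y, .b, .a, .b, .y, .a,
    .b, .a, .y, .b, .a, .b, .y, .a, .b, .a, .b, .a, .b, .a, .b, .y, .a, .b, .a, .b, .a, .b]

def certC : List Mv :=
  [.a, .b, .y, .a, .b, .a, .b, .y, .a, .b, .a, .b, .y, .a, .y, .a, .y, .b, .a]

def certB : U → Bool → List Mv
  | (false, false, false, false), _ => cert0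
  | (false, false, false, true), true => cert1p
  | (false, false, false, true), false => cert1m
  | (false, false, true, false), true => cert2p
  | (false, false, true, false), false => cert2m
  | (false, false, true, true), true => cert3p
  | (false, false, true, true), false => cert3m
  | (false, true, false, false), true => cert4p
  | (false, true, false, false), false => cert4m
  | (false, true, false, true), true => cert5p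
  | (false, true, false, true), false => cert5m
  | (false, true, true, false), true => cert6p
  | (false, true, true, false), false => cert6m
  | (false, true, true, true), true => cert7p
  | (false, true, true, true), false => cert7m
  | (true, false, false, false), _ => cert0
  | (true, false, false, true), true => cert9p
  | (true, false, false, true), false => cert9m
  | (true, false, true, false), true => cert10p
  | (true, false, true, false), false => cert10m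
  | (true, false, true, true), true => cert11p
  | (true, false, true, true), false => cert11m
  | (true, true, false, false), true => cert12p
  | (true, true, false, false), false => cert12m
  | (true, true, false, true), true => cert13p
  | (true, true, false, true), false => cert13m
  | (true, true, true, false), true => cert14p
  | (true, true, true, false), false => cert14m
  | (true, true, true, true), true => cert15p
  | (true, true, true, true), false => cert15m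

def sgn (e : Bool) : ℤ := if e then 1 else -1

lemma certB_ok : ∀ (u : U) (e : Bool), kl (certB u e) = 32 ∧ ∀ v : U, pl (certB u e) v = v ∧
    cl (certB u e) v = 10 + 2 * sgn e * (ind u v - ind (stU u) v) := by
  decide +kernel

def certX : Bool → List Mv
  | true => certXp
  | false => certXm

lemma certX_ok : ∀ (e : Bool), kl (certX e) = 32 ∧ ∀ v : U, pl (certX e) v = v ∧
    cl (certX e) v = 10 + 6 * sgn e * (ind uL v - ind uR v) := by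
  decide +kernel

lemma certY_ok : kl [.y, .y] = 2 ∧ ∀ v : U, pl [.y, .y] v = v ∧ cl [.y, .y] v = 2 * wy v := by
  decide +kernel

lemma certC_ok : ∀ v : U, pl certC v = pc v ∧
    cl certC v % 2 = ind (true, true, true, true) v := by
  decide +kernel

end Pool.Agent.MP_1b52a1_al.H21
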