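import Mathlib

namespace Pool.Agent.MP_1b52a1_al.H21

open Real Set Filter Topology

variable {ι : Type} (f : ι → ℕ)

noncomputable def ZZ (k : ℕ) (θ : ℝ) : ℝ := ∑' g, (f g : ℝ) ^ k * exp (-θ * f g)

variable {f}

lemma summable_ZZ (hs : ∀ θ > 0, Summable (fun g => exp (-θ * f g))) (k : ℕ) {θ : ℝ}
    (hθ : 0 < θ) : Summable (fun g => (f g : ℝ) ^ k * exp (-θ * f g)) := by
  have h := (hs (θ / 2) (by positivity)).mul_left ((k.factorial : ℝ) * (2 / θ) ^ k)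
  refine Summable.of_nonneg_of_le (fun g => by positivity) (fun g => ?_) h
  have h1 := Real.pow_div_factorial_le_exp (θ / 2 * f g) (by positivity) k
  have h2 : exp (-θ * f g) = exp (-(θ / 2) * f g) / exp (θ / 2 * f g) := by
    rw [← exp_sub]; congr 1; ring
  have h3 : (0 : ℝ) < k.factorial := by exact_mod_cast k.factorial_pos
  rw [h2, ← mul_div_assoc, div_le_iff₀ (exp_pos _)]
  rw [div_le_iff₀ h3] at h1
  have h4 : (f g : ℝ) ^ k = (2 / θ) ^ k * (θ / 2 * f g) ^ k := by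
    rw [← mul_pow]; congr 1; field_simp
  rw [h4]
  have h5 : 0 ≤ (2 / θ) ^ k * exp (-(θ / 2) * f g) := by positivity
  nlinarith [mul_le_mul_of_nonneg_left h1 h5]

lemma hasDerivAt_ZZ (hs : ∀ θ > 0, Summable (fun g => exp (-θ * f g))) (k : ℕ) {θ : ℝ}
    (hθ : 0 < θ) : HasDerivAt (ZZ f k) (-ZZ f (k + 1) θ) θ := by
  have h := hasDerivAt_tsum_of_isPreconnected (t := Ioi (θ / 2))
    (u := fun g => (f g : ℝ) ^ (k + 1) * exp (-(θ / 2) * f g))
    (g := fun g y => (f g : ℝ) ^ k * exp (-y * f g))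
    (g' := fun g y => -((f g : ℝ) ^ (k + 1) * exp (-y * f g))) (y₀ := θ) (y := θ)
    (summable_ZZ hs (k + 1) (by positivity)) isOpen_Ioi isPreconnected_Ioi
    (by
      intro g y _
      have h1 : HasDerivAt (fun y : ℝ => -y * f g) (-(f g : ℝ)) y := by
        simpa using ((hasDerivAt_id y).neg.mul_const (f g : ℝ))
      have h2 := (h1.exp).const_mul ((f g : ℝ) ^ k)
      exact h2.congr_deriv (by ring))
    (by
      intro g y hy
      rw [norm_neg, Real.norm_of_nonneg (by positivity)]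
      have : (0 : ℝ) ≤ f g := by positivity
      have hy' : θ / 2 < y := hy
      gcongr)
    (by simp only [mem_Ioi]; linarith) (summable_ZZ hs k hθ) (by simp only [mem_Ioi]; linarith)
  rw [tsum_neg] at h
  exact h

lemma ZZ_unbounded [Infinite ι] (hs : ∀ θ > 0, Summable (fun g => exp (-θ * f g))) (B : ℝ) :
    ∃ θ1 > 0, ∀ θ, 0 < θ → θ < θ1 → B < ZZ f 0 θ := by
  classical
  obtain ⟨N, hN⟩ := exists_nat_gt (2 * B)
  obtain ⟨F, hF⟩ := Infinite.exists_subset_card_eq ι N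
  let R : ℕ := F.sup f
  refine ⟨1 / (2 * (R + 1)), by positivity, fun θ h0 h1 => ?_⟩
  have h2 : ∑ g ∈ F, (f g : ℝ) ^ 0 * exp (-θ * f g) ≤ ZZ f 0 θ :=
    (summable_ZZ hs 0 h0).sum_le_tsum F (fun g _ => by positivity)
  have h3 : ∑ _g ∈ F, (1 / 2 : ℝ) ≤ ∑ g ∈ F, (f g : ℝ) ^ 0 * exp (-θ * f g) := by
    refine Finset.sum_le_sum (fun g hg => ?_)
    have h4 : (f g : ℝ) ≤ R := by exact_mod_cast Finset.le_sup (f := f) hg
    have h5 := add_one_le_exp (-θ * f g)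
    rw [lt_div_iff₀ (by positivity)] at h1
    have h6 : θ * f g ≤ θ * R := by gcongr
    simp only [pow_zero, one_mul]
    nlinarith
  simp only [Finset.sum_const, hF, nsmul_eq_mul] at h3
  linarith

lemma ZZ0_pos [Infinite ι] (hs : ∀ θ > 0, Summable (fun g => exp (-θ * f g))) {θ : ℝ}
    (hθ : 0 < θ) : 0 < ZZ f 0 θ := by
  obtain ⟨g⟩ : Nonempty ι := inferInstance
  exact (summable_ZZ hs 0 hθ).tsum_pos (fun g => by positivity) g (by positivity)

lemma ZZ1_pos [Infinite ι] (hs : ∀ θ > 0, Summable (fun g => exp (-θ * f g))) {θ : ℝ}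
    (hθ : 0 < θ) : 0 < ZZ f 1 θ := by
  have : ∃ g, f g ≠ 0 := by
    by_contra h
    push Not at h
    have h1 := hs 1 one_pos
    simp only [h, Nat.cast_zero, mul_zero, exp_zero] at h1
    have := h1.tendsto_cofinite_zero
    have h2 := tendsto_nhds_unique this tendsto_const_nhds
    norm_num at h2
  obtain ⟨g, hg⟩ := this
  have hg' : (0 : ℝ) < f g := by exact_mod_cast Nat.pos_of_ne_zero hg
  exact (summable_ZZ hs 1 hθ).tsum_pos (fun g => by positivity) g (by positivity)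

lemma hasSum_ZZ (hs : ∀ θ > 0, Summable (fun g => exp (-θ * f g))) (k : ℕ) {θ : ℝ}
    (hθ : 0 < θ) : HasSum (fun g => (f g : ℝ) ^ k * exp (-θ * f g)) (ZZ f k θ) :=
  (summable_ZZ hs k hθ).hasSum

lemma ZZ_jensen [Infinite ι] (hs : ∀ θ > 0, Summable (fun g => exp (-θ * f g))) {θ C : ℝ}
    (hθ : 0 < θ) (hC : θ * ZZ f 1 θ ≤ C * ZZ f 0 θ) : exp (-C) * ZZ f 0 θ ≤ ZZ f 0 (2 * θ) := by
  have h0 := hasSum_ZZ hs 0 hθ
  have h1 := hasSum_ZZ hs 1 hθ
  have h2 := hasSum_ZZ hs 0 (show 0 < 2 * θ by positivity)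
  have h3 := ((h0.mul_left (1 + C)).sub (h1.mul_left θ)).mul_left (exp (-C))
  have h4 := hasSum_le (fun g => ?_) h3 h2
  · have := exp_pos (-C)
    nlinarith
  · simp only [pow_zero, one_mul, pow_one]
    have e1 : exp (-(2 * θ) * f g) = exp (-C) * (exp (C - θ * f g) * exp (-θ * f g)) := by
      rw [← exp_add, ← exp_add]; congr 1; ring
    rw [e1]
    have e2 := add_one_le_exp (C - θ * f g)
    have e3 := exp_pos (-θ * f g)
    gcongr
    nlinarith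

lemma exists_large_mean [Infinite ι] (hs : ∀ θ > 0, Summable (fun g => exp (-θ * f g)))
    (hsup : ∀ θ > 0, exp (-32 * θ) * ZZ f 0 (16 * θ) ^ 2 ≤ 256 * ZZ f 0 θ) (C θ0 : ℝ)
    (hθ0 : 0 < θ0) : ∃ θ, 0 < θ ∧ θ < θ0 ∧ C * ZZ f 0 θ < θ * ZZ f 1 θ := by
  by_contra h
  push Not at h
  obtain ⟨θ1, hθ1, hB⟩ := ZZ_unbounded hs (256 * exp (4 * C + 4 * θ0))
  obtain ⟨θ, hθ, hθa, hθb⟩ : ∃ θ, 0 < θ ∧ 8 * θ < θ0 ∧ 16 * θ < θ1 :=
    ⟨min θ0 θ1 / 32, by positivity, by have := min_le_left θ0 θ1; linarith,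
      by have := min_le_right θ0 θ1; linarith⟩
  have j1 := ZZ_jensen hs hθ (h θ hθ (by linarith))
  have j2 := ZZ_jensen hs (show 0 < 2 * θ by positivity) (h _ (by positivity) (by linarith))
  have j3 := ZZ_jensen hs (show 0 < 2 * (2 * θ) by positivity) (h _ (by positivity) (by linarith))
  have j4 := ZZ_jensen hs (show 0 < 2 * (2 * (2 * θ)) by positivity)
    (h _ (by positivity) (by linarith))
  have e : 2 * (2 * (2 * (2 * θ))) = 16 * θ := by ring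
  rw [e] at j4
  have hE := exp_pos (-C)
  have j5 : exp (-C) ^ 4 * ZZ f 0 θ ≤ ZZ f 0 (16 * θ) := by
    calc exp (-C) ^ 4 * ZZ f 0 θ = exp (-C) ^ 3 * (exp (-C) * ZZ f 0 θ) := by ring
      _ ≤ exp (-C) ^ 3 * ZZ f 0 (2 * θ) := by gcongr
      _ = exp (-C) ^ 2 * (exp (-C) * ZZ f 0 (2 * θ)) := by ring
      _ ≤ exp (-C) ^ 2 * ZZ f 0 (2 * (2 * θ)) := by gcongr
      _ = exp (-C) * (exp (-C) * ZZ f 0 (2 * (2 * θ))) := by ring
      _ ≤ exp (-C) * ZZ f 0 (2 * (2 * (2 * θ))) := by gcongr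
      _ ≤ _ := j4
  have h1 := hsup θ hθ
  have h2 := hB (16 * θ) (by positivity) hθb
  have hZ := ZZ0_pos hs (show 0 < 16 * θ by positivity)
  set Z := ZZ f 0 (16 * θ)
  have h3 : exp (-C) ^ 4 * (exp (-32 * θ) * Z ^ 2) ≤ 256 * Z := by
    calc _ ≤ exp (-C) ^ 4 * (256 * ZZ f 0 θ) := by gcongr
      _ = 256 * (exp (-C) ^ 4 * ZZ f 0 θ) := by ring
      _ ≤ _ := by gcongr
  have h4 : exp (-C) ^ 4 * exp (-32 * θ) * Z ≤ 256 := by
    have : (exp (-C) ^ 4 * exp (-32 * θ) * Z) * Z ≤ 256 * Z := by nlinarith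
    exact le_of_mul_le_mul_right this hZ
  have h5 : 1 ≤ exp (-C) ^ 4 * exp (-32 * θ) * exp (4 * C + 4 * θ0) := by
    rw [← exp_nat_mul, ← exp_add, ← exp_add]
    apply one_le_exp
    push_cast
    linarith
  have h6 : 0 < exp (-C) ^ 4 * exp (-32 * θ) := by positivity
  nlinarith [mul_lt_mul_of_pos_left h2 h6]

lemma hasSum_var (hs : ∀ θ > 0, Summable (fun g => exp (-θ * f g))) {θ : ℝ} (hθ : 0 < θ)
    (m : ℝ) : HasSum (fun g => ((f g : ℝ) - m) ^ 2 * exp (-θ * f g))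
      (ZZ f 2 θ - 2 * m * ZZ f 1 θ + m ^ 2 * ZZ f 0 θ) := by
  have h := ((hasSum_ZZ hs 2 hθ).sub ((hasSum_ZZ hs 1 hθ).mul_left (2 * m))).add
    ((hasSum_ZZ hs 0 hθ).mul_left (m ^ 2))
  have e : (fun g => ((f g : ℝ) - m) ^ 2 * exp (-θ * f g)) = fun g =>
      (f g : ℝ) ^ 2 * exp (-θ * f g) - 2 * m * ((f g : ℝ) ^ 1 * exp (-θ * f g)) +
        m ^ 2 * ((f g : ℝ) ^ 0 * exp (-θ * f g)) := by
    ext g; ring
  rw [e]; exact h

theorem concentration [Infinite ι] (hs : ∀ θ > 0, Summable (fun g => exp (-θ * f g)))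
    (hsup : ∀ θ > 0, exp (-32 * θ) * ZZ f 0 (16 * θ) ^ 2 ≤ 256 * ZZ f 0 θ)
    {ε δ θ0 : ℝ} (hε : 0 < ε) (hδ : 0 < δ) (hθ0 : 0 < θ0) (m0 : ℝ) :
    ∃ θ, 0 < θ ∧ θ < θ0 ∧ ∃ m, m0 ≤ m ∧
      ∑' g, (if δ * m < |(f g : ℝ) - m| then exp (-θ * f g) else 0) ≤ ε * ZZ f 0 θ := by
  obtain ⟨C, hC1, hC2, hC0⟩ : ∃ C : ℝ, 2 / (ε * δ ^ 2) ≤ C ∧ |m0| * θ0 ≤ C ∧ 0 < C :=
    ⟨2 / (ε * δ ^ 2) + |m0| * θ0, by have : 0 ≤ |m0| * θ0 := by positivity
                                     linarith,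
      by have : 0 ≤ 2 / (ε * δ ^ 2) := by positivity
         linarith, by positivity⟩
  obtain ⟨θ1, h1, h2, h3⟩ := exists_large_mean hs hsup C θ0 hθ0
  let G : ℝ → ℝ := fun θ => ZZ f 0 θ / ZZ f 1 θ
  let G' : ℝ → ℝ := fun θ => ZZ f 0 θ * ZZ f 2 θ / ZZ f 1 θ ^ 2 - 1
  have hG : ∀ θ, 0 < θ → HasDerivAt G (G' θ) θ := by
    intro θ hθ
    have := (hasDerivAt_ZZ hs 0 hθ).div (hasDerivAt_ZZ hs 1 hθ) (ZZ1_pos hs hθ).ne'
    refine this.congr_deriv ?_
    have := (ZZ1_pos hs hθ).ne'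
    simp only [G']
    field_simp
    ring
  have hvar : ∀ θ, 0 < θ → HasSum (fun g => ((f g : ℝ) - ZZ f 1 θ / ZZ f 0 θ) ^ 2 *
      exp (-θ * f g)) ((ZZ f 1 θ / ZZ f 0 θ) ^ 2 * ZZ f 0 θ * G' θ) := by
    intro θ hθ
    convert hasSum_var hs hθ (ZZ f 1 θ / ZZ f 0 θ) using 1
    have := (ZZ1_pos hs hθ).ne'
    have := (ZZ0_pos hs hθ).ne'
    simp only [G']
    field_simp
    ring
  have hG'0 : ∀ θ, 0 < θ → 0 ≤ G' θ := by
    intro θ hθ
    have h := (hvar θ hθ).nonneg (fun g => by positivity)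
    have := ZZ1_pos hs hθ
    have := ZZ0_pos hs hθ
    exact nonneg_of_mul_nonneg_right h (by positivity) |> fun h => by
      by_contra hc
      push Not at hc
      have : (ZZ f 1 θ / ZZ f 0 θ) ^ 2 * ZZ f 0 θ * G' θ < 0 :=
        mul_neg_of_pos_of_neg (by positivity) hc
      linarith
  have hGpos : ∀ θ, 0 < θ → 0 < G θ := fun θ hθ => div_pos (ZZ0_pos hs hθ) (ZZ1_pos hs hθ)
  have mvt : ∀ x y, 0 < x → x < y → ∃ z ∈ Ioo x y, G' z = (G y - G x) / (y - x) := by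
    intro x y hx hxy
    refine exists_hasDerivAt_eq_slope G G' hxy ?_ (fun z hz => hG z (hx.trans hz.1))
    intro z hz
    exact (hG z (hx.trans_le hz.1)).continuousAt.continuousWithinAt
  obtain ⟨θ, ⟨hθa, hθb⟩, hθc⟩ := mvt (θ1 / 2) θ1 (by positivity) (by linarith)
  have hθ : 0 < θ := by linarith
  have hG1 : G θ1 * C < θ1 := by
    simp only [G]
    rw [div_mul_eq_mul_div, div_lt_iff₀ (ZZ1_pos hs h1)]
    linarith
  have hG2 : G' θ * C ≤ 2 := by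
    have := hGpos (θ1 / 2) (by positivity)
    rw [hθc, div_mul_eq_mul_div, div_le_iff₀ (by linarith)]
    nlinarith
  have hG3 : G θ ≤ G θ1 := by
    obtain ⟨z, hz, hz'⟩ := mvt θ θ1 hθ hθb
    have := hG'0 z (hθ.trans hz.1)
    rw [hz', le_div_iff₀ (by linarith)] at this
    linarith
  have hZ0 := ZZ0_pos hs hθ
  have hZ1 := ZZ1_pos hs hθ
  refine ⟨θ, hθ, by linarith, ZZ f 1 θ / ZZ f 0 θ, ?_, ?_⟩
  · have h4 : G θ * (|m0| * θ0) ≤ θ0 := by
      have := hGpos θ hθ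
      calc G θ * (|m0| * θ0) ≤ G θ1 * C := by gcongr; exact (hGpos θ1 h1).le
        _ ≤ θ0 := by linarith
    have h5 : G θ * |m0| ≤ 1 := by
      have : (G θ * |m0|) * θ0 ≤ 1 * θ0 := by linarith
      exact le_of_mul_le_mul_right this hθ0
    simp only [G] at h5
    rw [div_mul_eq_mul_div, div_le_one hZ1] at h5
    rw [le_div_iff₀ hZ0]
    have := le_abs_self m0
    nlinarith
  · set m := ZZ f 1 θ / ZZ f 0 θ with hm
    have hm0 : 0 < m := div_pos hZ1 hZ0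
    have hv := (hvar θ hθ).mul_left (1 / (δ * m) ^ 2)
    rw [← hm] at hv
    have hle : ∀ g, (if δ * m < |(f g : ℝ) - m| then exp (-θ * f g) else 0) ≤
        1 / (δ * m) ^ 2 * (((f g : ℝ) - m) ^ 2 * exp (-θ * f g)) := by
      intro g
      split_ifs with h
      · have h7 : (δ * m) ^ 2 ≤ ((f g : ℝ) - m) ^ 2 := by
          rw [← sq_abs ((f g : ℝ) - m)]; gcongr
        rw [← mul_assoc]
        apply le_mul_of_one_le_left (exp_pos _).le
        rw [one_div_mul_eq_div, le_div_iff₀ (by positivity)]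
        linarith
      · positivity
    have hsum : Summable (fun g => if δ * m < |(f g : ℝ) - m| then exp (-θ * f g) else 0) :=
      Summable.of_nonneg_of_le (fun g => by split_ifs <;> positivity) hle hv.summable
    refine (hasSum_le hle hsum.hasSum hv).trans ?_
    have h8 : 1 / (δ * m) ^ 2 * (m ^ 2 * ZZ f 0 θ * G' θ) = G' θ / δ ^ 2 * ZZ f 0 θ := by
      field_simp
    rw [h8]
    gcongr
    rw [div_le_iff₀ (by positivity)]
    rw [div_le_iff₀ (by positivity)] at hC1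
    have := hG'0 θ hθ
    by_contra hc
    push Not at hc
    nlinarith [mul_lt_mul_of_pos_right hc hC0]

end Pool.Agent.MP_1b52a1_al.H21
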