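import Mathlib

namespace Pool.Agent.MP_1b52a1_al.H21

/-- The four generator names. -/
inductive Gen
  | a | b | c | d

/-- The recursive action of the generators on the vertices of the binary tree
(finite words over `false = 0`, `true = 1`). -/
def act : Gen → List Bool → List Bool
  | _, [] => []
  | .a, false :: w => true :: w
  | .a, true :: w => false :: w
  | .b, false :: w => false :: act .a w
  | .b, true :: w => true :: act .c w
  | .c, false :: w => false :: act .a w
  | .c, true :: w => true :: act .d w
  | .d, false :: w => false :: w
  | .d, true :: w => true :: act .b w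

/-- The first Grigorchuk group, as a group of permutations of the vertices of the tree. -/
def Grig : Subgroup (Equiv.Perm (List Bool)) :=
  Subgroup.closure {g | ∃ s : Gen, ⇑g = act s}

/-- Word length with respect to `S ∪ S⁻¹`. -/
noncomputable def wordLength {Γ : Type} [Group Γ] (S : Set Γ) (g : Γ) : ℕ :=
  sInf {n | ∃ l : List Γ, l.length = n ∧ (∀ x ∈ l, x ∈ S ∨ x⁻¹ ∈ S) ∧ l.prod = g}

/-- Spherical growth function. -/
noncomputable def sph {Γ : Type} [Group Γ] (S : Set Γ) (n : ℕ) : ℕ :=
  Set.ncard {g : Γ | wordLength S g = n}

end Pool.Agent.MP_1b52a1_al.H21
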