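import Pool.Agent.MP_1b52a1_al.H21.Prob

namespace Pool.Agent.MP_1b52a1_al.H21

open scoped ENNReal
open Classical Filter Topology

def evP (x S s : ℤ) : Prop :=
  (S = 4 ∧ s = 1) ∨ (S = 4 ∧ x ≠ 0 ∧ x ≠ 4 ∧ x ≠ 8) ∨ (s = 1 ∧ (x = 1 ∨ x = 5)) ∨
    (S = 2 ∧ (x = 5 ∨ x = 6 ∨ x = 7 ∨ x = 10 ∨ x = 11)) ∨ (S = 2 ∧ s = 1 ∧ (x = 8 ∨ x = 12))

instance (x S s : ℤ) : Decidable (evP x S s) := by unfold evP; infer_instance

lemma ev_arith {L R S s : ℤ} {k : ℕ} (h1 : Feas L R (k + 1)) (h2 : ¬ Feas L R k)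
    (h3 : Feas (L - S) R k ∨ Feas (L - S) (R - s) k ∨ Feas L (R - s) k)
    (hS : S = -4 ∨ S = -2 ∨ S = 0 ∨ S = 2 ∨ S = 4) (hs : s = -1 ∨ s = 1)
    (h9 : (R - 4 * L) % 15 ≠ 9) : evP ((R - 4 * L) % 15) S s := by
  obtain ⟨A, hA1, hA2⟩ := h1
  have h4 : ¬ (R + 3 * ((L - k + 2) / 3) ≤ 4 * k) := fun h => h2 ⟨_, by omega, h⟩
  push_cast at hA1 hA2
  obtain ⟨f, hf⟩ : ∃ f, f = (L - k + 2) / 3 := ⟨_, rfl⟩
  rw [← hf] at h4
  obtain ⟨r, hr⟩ : ∃ r, r = 3 * f + k - L := ⟨_, rfl⟩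
  obtain ⟨q, hq⟩ : ∃ q, q = R + 3 * f - 4 * k := ⟨_, rfl⟩
  have hr0 : 0 ≤ r := by omega
  have hr2 : r ≤ 2 := by omega
  have hq1 : 1 ≤ q := by omega
  have hA : -1 ≤ A - f := by omega
  have hq7 : q ≤ 7 := by omega
  have hA' : ∃ A' : ℤ, -r ≤ 1 + 3 * A' ∧ q + 3 * A' ≤ 4 := ⟨A - f, by omega, by omega⟩
  have hB' : ∃ B' : ℤ, (-r - S ≤ 3 * B' ∧ q + 3 * B' ≤ 0) ∨
      (-r - S ≤ 3 * B' ∧ q - s + 3 * B' ≤ 0) ∨ (-r ≤ 3 * B' ∧ q - s + 3 * B' ≤ 0) := by
    rcases h3 with ⟨B, hB1, hB2⟩ | ⟨B, hB1, hB2⟩ | ⟨B, hB1, hB2⟩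
    · exact ⟨B - f, Or.inl ⟨by omega, by omega⟩⟩
    · exact ⟨B - f, Or.inr (Or.inl ⟨by omega, by omega⟩)⟩
    · exact ⟨B - f, Or.inr (Or.inr ⟨by omega, by omega⟩)⟩
  have hx : (R - 4 * L) % 15 = (q + 4 * r) % 15 := by omega
  rw [hx] at h9 ⊢
  clear hx hq hr hf h4 hA1 hA2 h2 h3 hA
  obtain ⟨A', hA1, hA2⟩ := hA'
  obtain ⟨B', hB⟩ := hB'
  unfold evP
  interval_cases r <;> interval_cases q <;>
    rcases hS with rfl | rfl | rfl | rfl | rfl <;> rcases hs with rfl | rfl <;> omega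

def B9 : Finset ((Fin 5 → Bool) × ZMod 15) := Finset.univ.filter (fun z => (z.2.val : ℤ) = 9)

def Brev : Finset ((Fin 5 → Bool) × ZMod 15) := Finset.univ.filter (fun z => (z.2.val : ℤ) ≠ 9 ∧
  evP z.2.val (sgn (z.1 0) + sgn (z.1 1) + sgn (z.1 2) + sgn (z.1 3)) (sgn (z.1 4)))

lemma card_B9 : B9.card = 32 := by decide +kernel
lemma card_Brev : Brev.card = 99 := by decide +kernel

lemma cls_val (g : Γ) : ((cls g).val : ℤ) = (RR (nn g) - 4 * LL (nn g)) % 15 := by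
  rw [cls_eq, ZMod.val_intCast]; rfl

lemma mem_B9 (g : Γ) : phi g ∈ B9 ↔ (RR (nn g) - 4 * LL (nn g)) % 15 = 9 := by
  simp only [B9, Finset.mem_filter, Finset.mem_univ, true_and, phi, cls_val]

lemma mem_Brev (g : Γ) : phi g ∈ Brev ↔ (RR (nn g) - 4 * LL (nn g)) % 15 ≠ 9 ∧
    evP ((RR (nn g) - 4 * LL (nn g)) % 15) (S4 g) (S1 g) := by
  simp only [Brev, Finset.mem_filter, Finset.mem_univ, true_and, phi, cls_val]
  rfl

lemma S4_cases (g : Γ) : S4 g = -4 ∨ S4 g = -2 ∨ S4 g = 0 ∨ S4 g = 2 ∨ S4 g = 4 := by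
  unfold S4
  generalize dn (s4 g (false, false, false, true)) = p, dn (s4 g (false, false, true, false)) = q,
    dn (s4 g (false, true, false, false)) = r, dn (s4 g (false, true, true, true)) = s
  cases p <;> cases q <;> cases r <;> cases s <;> simp [sgn]

lemma S1_cases (g : Γ) : S1 g = -1 ∨ S1 g = 1 := by
  unfold S1; cases dn (s4 g (true, true, true, true)) <;> simp [sgn]

/-- elements to which the scheduling theorem applies -/
def Good (g : Γ) : Prop :=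
  (∀ k : ℕ, Feas (LL (nn g)) (RR (nn g)) k → g ∈ AA V W k) ∧ g ∉ V

lemma brev_of {g : Γ} (hg : Good g) {k : ℕ} (h1 : g ∈ alt V W (2 * k + 2) false)
    (h2 : g ∉ AA V W k) (h9 : phi g ∉ B9) : phi g ∈ Brev := by
  rw [mem_B9] at h9
  rw [mem_Brev]
  refine ⟨h9, ?_⟩
  have h3 : ¬ Feas (LL (nn g)) (RR (nn g)) k := fun h => h2 (hg.1 k h)
  have h4 : g ∈ AA V W (k + 1) := alt_subset_succ _ _ _ h1
  refine ev_arith (lower_bound h4) h3 ?_ (S4_cases g) (S1_cases g) h9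
  obtain ⟨h, hh, w, hw, rfl⟩ := alt_even_false.1 h1
  have h5 := lower_bound hh
  rcases mem_W_iff.1 hw with rfl | rfl | rfl | rfl
  · exact absurd (by simpa using hh) h2
  · left
    obtain ⟨e1, e2⟩ := LR_y4 (h * y4)
    rwa [← e1, ← e2, mul_assoc, y4_y4, mul_one]
  · right; left
    obtain ⟨e1, e2⟩ := LR_y5 (h * y5)
    rwa [← e1, ← e2, mul_assoc, y5_y5, mul_one]
  · right; right
    obtain ⟨e1, e2⟩ := LR_d (h * d)
    rwa [← e1, ← e2, mul_assoc, d_d, mul_one]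

lemma even_cases {g : Γ} (hg : Good g) (hg' : Good g⁻¹) (he : Even (wordLength (SS V W) g)) :
    phi g ∈ B9 ∨ phi g ∈ Brev ∨ phi g⁻¹ ∈ Brev := by
  obtain ⟨k, hk⟩ := he
  by_cases h9 : phi g ∈ B9
  · exact Or.inl h9
  right
  rcases k with _ | k
  · exact absurd (mem_AA_zero.1 (AA_of_wl_le VW_gen (k := 0) (by omega))) hg.2
  have h2 : g ∉ AA V W k := fun h => by
    have := wl_le_of_AA VW_gen h
    omega
  rcases (wl_le_iff VW_gen).1 (show wordLength (SS V W) g ≤ 2 * k + 2 by omega) with h | h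
  · right
    refine brev_of hg' ((alt_even_true (k := k + 1)).1 h) (fun h => h2 (by simpa using AA_inv h)) ?_
    rw [mem_B9] at h9 ⊢
    rcases LR_inv g with ⟨e1, e2⟩ | ⟨e1, e2⟩ <;> rw [e1, e2] <;> omega
  · left
    exact brev_of hg h h2 h9

lemma sig_le_of_AA {g : Γ} {k : ℕ} (h : g ∈ AA V W k) : sig 4 g ≤ 5 * k := by
  obtain ⟨A, h1, h2⟩ := lower_bound h
  have := sig4_eq g
  omega

lemma wl_good {g : Γ} (hg : Good g) : 5 * wordLength (SS V W) g ≤ 2 * sig 4 g + 17 := by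
  have h0 := sig4_eq g
  have h1 : Feas (LL (nn g)) (RR (nn g)) ((sig 4 g + 6) / 5) :=
    ⟨(LL (nn g) - ((sig 4 g + 6) / 5 : ℕ) + 2) / 3, by omega, by omega⟩
  have := wl_le_of_AA VW_gen (hg.1 _ h1)
  omega

lemma good_of_window : ∃ m0 : ℝ, ∀ m ≥ m0, ∀ g : Γ,
    (∀ u, ¬ (1 / 4000 * m < |(lam (s4 g u) : ℝ) - m|)) → Good g := by
  obtain ⟨C, hC⟩ := upper_bound
  refine ⟨3 * |(C : ℝ)| + 10, fun m hm g hg => ?_⟩
  have hC0 : (0 : ℝ) ≤ |(C : ℝ)| := abs_nonneg _
  have hC1 : (C : ℝ) ≤ |(C : ℝ)| := le_abs_self _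
  have hg' : ∀ u, m - m / 4000 ≤ (nn g u : ℝ) ∧ (nn g u : ℝ) ≤ m + m / 4000 := by
    intro u
    have := abs_le.1 (not_lt.1 (hg u))
    simp only [nn, Int.cast_natCast]
    constructor <;> linarith [this.1, this.2]
  have hlo := Int.le_ceil (m - m / 4000)
  have hD := Int.floor_le (m / 2000)
  refine ⟨hC g ⌈m - m / 4000⌉ ⌊m / 2000⌋ (Int.floor_nonneg.2 (by linarith)) (fun u => ?_) ?_, ?_⟩
  · refine ⟨Int.ceil_le.2 (hg' u).1, ?_⟩
    have : nn g u - ⌈m - m / 4000⌉ ≤ ⌊m / 2000⌋ := by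
      rw [Int.le_floor]; push_cast; linarith [(hg' u).2]
    omega
  · have : ((1000 * ⌊m / 2000⌋ + C : ℤ) : ℝ) ≤ (⌈m - m / 4000⌉ : ℤ) := by
      push_cast; linarith
    exact_mod_cast this
  · intro hv
    have := (hg' uL).1
    rw [nn_V hv] at this
    simp only [Int.cast_zero] at this
    linarith

lemma resSum_sph {S : Set Γ} (hfin : S.Finite) (hS : Subgroup.closure S = ⊤) (θ : ℝ) (M : ℕ)
    (i : ZMod M) : resSum (sph S) M θ i =
      ∑' g, if (wordLength S g : ZMod M) = i then EE θ ^ wordLength S g else 0 := by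
  have h1 := tsum_count (wordLength S) (fun _ => True)
    (fun n => if (n : ZMod M) = i then EE θ ^ n else 0)
    (fun n => by simpa using finite_sphere hfin hS n)
  simp only [if_true, true_and] at h1
  rw [h1]
  simp only [resSum, sph]
  congr 1
  ext n
  split_ifs <;> simp

lemma tsum_sph {S : Set Γ} (hfin : S.Finite) (hS : Subgroup.closure S = ⊤) (θ : ℝ) :
    ∑' n, (sph S n : ℝ≥0∞) * EE θ ^ n = ∑' g, EE θ ^ wordLength S g := by
  have h1 := tsum_count (wordLength S) (fun _ => True) (fun n => EE θ ^ n)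
    (fun n => by simpa using finite_sphere hfin hS n)
  simp only [if_true, true_and] at h1
  rw [h1]
  rfl

lemma sph0_fin (θ : ℝ) (hθ : θ > 0) : ∑' n, (sph (SS T DD) n : ℝ≥0∞) * EE θ ^ n ≠ ⊤ := by
  rw [tsum_sph (SS_finite T_finite DD_finite) (closure_SS TD_gen)]
  refine ne_top_of_le_ne_top (Zlam_fin hθ) (ENNReal.tsum_le_tsum fun g => EE_pow_anti hθ.le ?_)
  rcases h : wordLength (SS T DD) g with _ | m
  · exact lam_le_iff.2 (AA_of_wl_le TD_gen (by omega))
  · exact lam_le_iff.2 (AA_of_wl_le TD_gen (by omega))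

lemma sph1_fin (θ : ℝ) (hθ : θ > 0) : ∑' n, (sph (SS V W) n : ℝ≥0∞) * EE θ ^ n ≠ ⊤ := by
  rw [tsum_sph (SS_finite V_finite W_finite) (closure_SS VW_gen)]
  refine ne_top_of_le_ne_top (Zsig_fin (show 0 < θ / 5 by positivity) 4)
    (ENNReal.tsum_le_tsum fun g => ?_)
  have e1 : EE θ = EE (θ / 5) ^ 5 := by rw [← EE_mul]; congr 1; push_cast; ring
  rw [e1, ← pow_mul]
  exact EE_pow_anti (by positivity) (sig_le_of_AA (AA_of_wl_le VW_gen (by omega)))

lemma final_contra (E O B M9 Mr Z : ℝ≥0∞) (hZ0 : Z ≠ 0) (hZ : Z ≠ ⊤)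
    (h1 : E ≤ B + M9 + 2 * Mr) (h2 : 480 * M9 ≤ 32 * (ENNReal.ofReal 1.013 * Z))
    (h3 : 480 * Mr ≤ 99 * (ENNReal.ofReal 1.013 * Z)) (h4 : B ≤ ENNReal.ofReal 0.0005 * Z)
    (h5 : ENNReal.ofReal 0.99 * Z ≤ E + O + B) (h6 : O ≤ ENNReal.ofReal 1.001 * E) : False := by
  have hB : B ≠ ⊤ := ne_top_of_le_ne_top (ENNReal.mul_ne_top ENNReal.ofReal_ne_top hZ) h4
  have hM9 : M9 ≠ ⊤ := by
    rintro rfl
    rw [ENNReal.mul_top (by norm_num), top_le_iff] at h2
    exact ENNReal.mul_ne_top (by norm_num) (ENNReal.mul_ne_top ENNReal.ofReal_ne_top hZ) h2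
  have hMr : Mr ≠ ⊤ := by
    rintro rfl
    rw [ENNReal.mul_top (by norm_num), top_le_iff] at h3
    exact ENNReal.mul_ne_top (by norm_num) (ENNReal.mul_ne_top ENNReal.ofReal_ne_top hZ) h3
  have hE : E ≠ ⊤ := ne_top_of_le_ne_top (by finiteness) h1
  have hO : O ≠ ⊤ := ne_top_of_le_ne_top (by finiteness) h6
  have g1 := ENNReal.toReal_mono (by finiteness) h1
  have g2 := ENNReal.toReal_mono (by finiteness) h2
  have g3 := ENNReal.toReal_mono (by finiteness) h3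
  have g4 := ENNReal.toReal_mono (by finiteness) h4
  have g5 := ENNReal.toReal_mono (by finiteness) h5
  have g6 := ENNReal.toReal_mono (by finiteness) h6
  rw [ENNReal.toReal_add (by finiteness) (by finiteness), ENNReal.toReal_add hB hM9] at g1
  rw [ENNReal.toReal_add (by finiteness) (by finiteness), ENNReal.toReal_add hE hO] at g5
  simp only [ENNReal.toReal_mul, ENNReal.toReal_ofNat] at g1 g2 g3 g4 g5 g6
  rw [ENNReal.toReal_ofReal (by norm_num)] at g2 g3 g4 g5 g6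
  have := ENNReal.toReal_pos hZ0 hZ
  linarith

theorem not_both {L0 L1 : ℝ}
    (H0 : Tendsto (fun n => (sph (SS T DD) (n + 1) : ℝ) / (sph (SS T DD) n : ℝ)) atTop (𝓝 L0))
    (H1 : Tendsto (fun n => (sph (SS V W) (n + 1) : ℝ) / (sph (SS V W) n : ℝ)) atTop (𝓝 L1)) :
    False := by
  have pos0 := sph_pos (SS_finite T_finite DD_finite) (closure_SS TD_gen)
  have pos1 := sph_pos (SS_finite V_finite W_finite) (closure_SS VW_gen)
  have hu : ∃ N, ∀ n ≥ N, (uu (n + 1) : ℝ) ≤ (1 + 0.000001) * uu n := by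
    obtain ⟨N, hN⟩ := ratio_eventually _ pos0 sph0_fin H0 (show (0 : ℝ) < 0.0000001 by norm_num)
    refine ⟨N + 1, fun n hn => ?_⟩
    obtain ⟨m, rfl⟩ : ∃ m, n = m + 1 := ⟨n - 1, by omega⟩
    rw [uu_succ, uu_succ]
    have h1 := hN (2 * m + 3) (by omega)
    have h2 := hN (2 * m + 3 + 1) (by omega)
    have h3 : (0 : ℝ) ≤ sph (SS T DD) (2 * m + 3) := by positivity
    rw [show 2 * (m + 1) + 3 = 2 * m + 3 + 1 + 1 by ring]
    linarith
  obtain ⟨θa, hθa, ha⟩ := shift_lemma uu uu_pos 30 (by norm_num) hu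
  obtain ⟨θb, hθb, hb⟩ := shift_lemma _ pos1 2 (show (0 : ℝ) < 0.0001 by norm_num)
    (ratio_eventually _ pos1 sph1_fin H1 (by norm_num))
  obtain ⟨m0, hm0⟩ := good_of_window
  obtain ⟨θ, hθ, hθ', m, hm, hconc⟩ := concentration summable_lam super_real
    (show (0 : ℝ) < 0.00001 by norm_num) (show (0 : ℝ) < 1 / 4000 by norm_num)
    (show 0 < min (min θa (θb / 3)) 0.001 by positivity) m0
  have hθ1 : θ < θa := hθ'.trans_le ((min_le_left _ _).trans (min_le_left _ _))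
  have hθ2 : θ < θb / 3 := hθ'.trans_le ((min_le_left _ _).trans (min_le_right _ _))
  have hθ3 : θ < 0.001 := hθ'.trans_le (min_le_right _ _)
  have hE1 : EE (-θ) ≤ ENNReal.ofReal 1.0011 := by
    apply ENNReal.ofReal_le_ofReal
    have h1 := Real.add_one_le_exp (-θ)
    have h2 : Real.exp (- -θ) * Real.exp (-θ) = 1 := by rw [← Real.exp_add]; simp
    have h3 := Real.exp_pos (- -θ)
    nlinarith
  let p : ℕ → Prop := fun n => 1 / 4000 * m < |(n : ℝ) - m|
  let bad : Γ → Prop := fun g => ∃ u, p (lam (s4 g u))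
  have good : ∀ g, ¬ bad g → Good g ∧ Good g⁻¹ := by
    intro g hg
    refine ⟨hm0 m hm g (fun u hu => hg ⟨u, hu⟩), hm0 m hm g⁻¹ (fun u hu => hg ⟨p4 g⁻¹ u, ?_⟩)⟩
    rwa [s4_inv, lam_inv] at hu
  have et : EE θ = EE (θ / 2) ^ 2 := by rw [← EE_mul]; congr 1; push_cast; ring
  have ex : EE (5 / 2 * θ) = EE (θ / 2) ^ 5 := by rw [← EE_mul]; congr 1; push_cast; ring
  have hκ := mass_all (FX_global hθ (ha θ hθ hθ1))
  have hκ' : (ENNReal.ofReal ((1 + 2 * 0.000001) ^ 30) * EE (-θ)) ^ 6 ≤ ENNReal.ofReal 1.013 := by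
    calc _ ≤ (ENNReal.ofReal ((1 + 2 * 0.000001) ^ 30) * ENNReal.ofReal 1.0011) ^ 6 := by gcongr
      _ ≤ _ := by
        rw [← ENNReal.ofReal_mul (by positivity), ← ENNReal.ofReal_pow (by positivity)]
        apply ENNReal.ofReal_le_ofReal
        norm_num
  have hκ'' : ∀ z z', mass θ z ≤ ENNReal.ofReal 1.013 * mass θ z' := fun z z' =>
    (hκ z z').trans (by gcongr)
  refine final_contra (resSum (sph (SS V W)) 2 (5 / 2 * θ) 0) (resSum (sph (SS V W)) 2 (5 / 2 * θ) 1)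
    (∑' g, if bad g then EE θ ^ sig 4 g else 0)
    (∑' g, if phi g ∈ B9 then EE θ ^ sig 4 g else 0)
    (∑' g, if phi g ∈ Brev then EE θ ^ sig 4 g else 0)
    (∑' g, EE θ ^ sig 4 g) ?_ (Zsig_fin hθ 4) ?_ ?_ ?_ ?_ ?_ ?_
  · intro h
    exact pow_ne_zero _ (EE_ne_zero θ) (ENNReal.tsum_eq_zero.1 h 1)
  · have e : ∑' g, (if phi g ∈ Brev then EE θ ^ sig 4 g else 0) =
        ∑' g, (if phi g⁻¹ ∈ Brev then EE θ ^ sig 4 g else 0) := by
      rw [← (Equiv.inv Γ).tsum_eq]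
      simp only [Equiv.inv_apply, sig_inv]
    rw [two_mul]
    nth_rewrite 2 [e]
    rw [resSum_sph (SS_finite V_finite W_finite) (closure_SS VW_gen), ← ENNReal.tsum_add,
      ← ENNReal.tsum_add, ← ENNReal.tsum_add]
    refine ENNReal.tsum_le_tsum (fun g => ?_)
    by_cases he : (wordLength (SS V W) g : ZMod 2) = 0
    · rw [if_pos he]
      rw [ZMod.natCast_eq_zero_iff_even] at he
      have h1 : EE (5 / 2 * θ) ^ wordLength (SS V W) g ≤ EE θ ^ sig 4 g := by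
        rw [et, ex, ← pow_mul, ← pow_mul]
        refine EE_pow_anti (by positivity) ?_
        obtain ⟨k, hk⟩ := he
        have := sig_le_of_AA (AA_of_wl_le VW_gen (k := k) (g := g) (by omega))
        omega
      refine h1.trans ?_
      by_cases hb : bad g
      · rw [if_pos hb, add_assoc]; exact le_self_add
      · rcases even_cases (good g hb).1 (good g hb).2 he with h | h | h
        · rw [if_pos h]; exact le_add_self.trans le_self_add
        · rw [if_pos h]; exact le_self_add.trans le_add_self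
        · rw [if_pos h]; exact le_add_self.trans le_add_self
    · rw [if_neg he]; exact zero_le
  · simpa [card_B9] using mass_bound hκ'' B9
  · simpa [card_Brev] using mass_bound hκ'' Brev
  · have h1 : ∑' g, (if p (lam g) then EE θ ^ lam g else 0) ≤
        ENNReal.ofReal 0.00001 * ∑' g, EE θ ^ lam g := by
      rw [← ofReal_ZZ hθ, ← ENNReal.ofReal_mul (by norm_num)]
      refine le_trans (le_of_eq ?_) (ENNReal.ofReal_le_ofReal hconc)
      rw [ENNReal.ofReal_tsum_of_nonneg (fun g => by split_ifs <;> positivity)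
        (Summable.of_nonneg_of_le (fun g => by split_ifs <;> positivity)
          (fun g => by split_ifs; exacts [le_rfl, (Real.exp_pos _).le]) (summable_lam θ hθ))]
      refine tsum_congr (fun g => ?_)
      simp only [p, EE_pow]
      split_ifs <;> simp
    have h2 := fun u => bad_bound hθ p h1 u
    calc _ ≤ ∑' g, ∑ u : U, (if p (lam (s4 g u)) then EE θ ^ sig 4 g else 0) := by
          refine ENNReal.tsum_le_tsum (fun g => ?_)
          split_ifs with hb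
          · obtain ⟨u, hu⟩ := hb
            refine le_trans ?_ (Finset.single_le_sum (fun _ _ => zero_le) (Finset.mem_univ u))
            rw [if_pos hu]
          · exact zero_le
      _ = ∑ u : U, ∑' g, (if p (lam (s4 g u)) then EE θ ^ sig 4 g else 0) :=
          Summable.tsum_finsetSum (fun _ _ => ENNReal.summable)
      _ ≤ ∑ _u : U, (ENNReal.ofReal 0.00001 * (1 + EE (-θ))) * ∑' g, EE θ ^ sig 4 g :=
          Finset.sum_le_sum (fun u _ => h2 u)
      _ = (16 * (ENNReal.ofReal 0.00001 * (1 + EE (-θ)))) * ∑' g, EE θ ^ sig 4 g := by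
          simp [mul_assoc]
      _ ≤ _ := by
          gcongr
          calc _ ≤ 16 * (ENNReal.ofReal 0.00001 * (1 + ENNReal.ofReal 1.0011)) := by gcongr
            _ ≤ _ := by
              rw [← ENNReal.ofReal_one, ← ENNReal.ofReal_add (by norm_num) (by norm_num),
                ← ENNReal.ofReal_mul (by norm_num), ← ENNReal.ofReal_ofNat,
                ← ENNReal.ofReal_mul (by norm_num)]
              apply ENNReal.ofReal_le_ofReal
              norm_num
  · rw [resSum_sph (SS_finite V_finite W_finite) (closure_SS VW_gen),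
      resSum_sph (SS_finite V_finite W_finite) (closure_SS VW_gen), ← ENNReal.tsum_add,
      ← ENNReal.tsum_add, ← ENNReal.tsum_mul_left]
    refine ENNReal.tsum_le_tsum (fun g => ?_)
    have h17 : ENNReal.ofReal 0.99 ≤ EE (θ / 2) ^ 17 := by
      rw [EE_pow]
      apply ENNReal.ofReal_le_ofReal
      have := Real.add_one_le_exp (-(θ / 2) * (17 : ℕ))
      push_cast at this ⊢
      linarith
    by_cases hb : bad g
    · rw [if_pos hb]
      refine le_trans ?_ le_add_self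
      exact mul_le_of_le_one_left' (by rw [ENNReal.ofReal_le_one]; norm_num)
    · refine le_trans ?_ le_self_add
      have h1 : ENNReal.ofReal 0.99 * EE θ ^ sig 4 g ≤ EE (5 / 2 * θ) ^ wordLength (SS V W) g := by
        refine (mul_le_mul_left h17 _).trans ?_
        rw [et, ex, ← pow_mul, ← pow_mul, ← pow_add]
        have := wl_good (good g hb).1
        exact EE_pow_anti (by positivity) (by omega)
      refine h1.trans ?_
      have h2 : ∀ z : ZMod 2, z = 0 ∨ z = 1 := by decide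
      rcases h2 (wordLength (SS V W) g : ZMod 2) with h | h
      · rw [if_pos h]; exact le_self_add
      · rw [if_pos h]; exact le_add_self
  · refine (hb (5 / 2 * θ) (by positivity) (by linarith) 1 0).trans ?_
    gcongr
    norm_num

end Pool.Agent.MP_1b52a1_al.H21
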