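import Mathlib

namespace Pool.Agent.MP_1b52a1_al.H21

open Filter Topology
open scoped ENNReal

noncomputable def EE (θ : ℝ) : ℝ≥0∞ := ENNReal.ofReal (Real.exp (-θ))

lemma EE_pow (θ : ℝ) (n : ℕ) : EE θ ^ n = ENNReal.ofReal (Real.exp (-θ * n)) := by
  rw [EE, ← ENNReal.ofReal_pow (Real.exp_pos _).le, ← Real.exp_nat_mul, mul_comm]

lemma EE_mul (θ : ℝ) (n : ℕ) : EE (n * θ) = EE θ ^ n := by
  rw [EE_pow, EE]; congr 2; ring

lemma EE_le_one {θ : ℝ} (h : 0 ≤ θ) : EE θ ≤ 1 := by
  rw [EE, ENNReal.ofReal_le_one, Real.exp_le_one_iff]; linarith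

lemma EE_ne_zero (θ : ℝ) : EE θ ≠ 0 := by
  simp [EE, Real.exp_pos]

lemma EE_ne_top (θ : ℝ) : EE θ ≠ ⊤ := ENNReal.ofReal_ne_top

lemma EE_pow_anti {θ : ℝ} (h : 0 ≤ θ) {m n : ℕ} (hmn : m ≤ n) : EE θ ^ n ≤ EE θ ^ m :=
  pow_le_pow_right_of_le_one' (EE_le_one h) hmn

lemma tsum_fiber {G H : Type} [Group G] [Group H] (j : H →* G) (hj : Function.Injective j)
    (F : G → ℝ≥0∞) : ∑' g, F g = ∑' q : G ⧸ j.range, ∑' k, F (q.out * j k) := by
  have hb : Function.Bijective (fun p : (G ⧸ j.range) × H => p.1.out * j p.2) := by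
    constructor
    · rintro ⟨q, k⟩ ⟨q', k'⟩ h
      simp only at h
      have hq : q = q' := by
        have h1 : ((q.out * j k : G) : G ⧸ j.range) = q := by
          rw [QuotientGroup.mk_mul_of_mem _ (show j k ∈ j.range from ⟨k, rfl⟩), QuotientGroup.out_eq']
        have h2 : ((q'.out * j k' : G) : G ⧸ j.range) = q' := by
          rw [QuotientGroup.mk_mul_of_mem _ (show j k' ∈ j.range from ⟨k', rfl⟩), QuotientGroup.out_eq']
        rw [← h1, ← h2, h]
      subst hq
      rw [hj (mul_left_cancel h)]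
    · intro g
      obtain ⟨⟨_, k, rfl⟩, hk⟩ := QuotientGroup.mk_out_eq_mul j.range g
      exact ⟨((g : G ⧸ j.range), k⁻¹), by simp [hk]⟩
  rw [← (Equiv.ofBijective _ hb).tsum_eq F, ENNReal.tsum_prod']
  rfl

lemma fiber_le {G H : Type} [Group G] [Group H] (j : H →* G) (hj : Function.Injective j)
    (F F' : G → ℝ≥0∞) (C : ℝ≥0∞) (h : ∀ g, ∑' k, F (g * j k) ≤ C * ∑' k, F' (g * j k)) :
    ∑' g, F g ≤ C * ∑' g, F' g := by
  rw [tsum_fiber j hj F, tsum_fiber j hj F', ← ENNReal.tsum_mul_left]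
  exact ENNReal.tsum_le_tsum (fun q => h _)

open Classical in
lemma tsum_count {α : Type} (f : α → ℕ) (p : α → Prop) (φ : ℕ → ℝ≥0∞)
    (hfin : ∀ n, {x | p x ∧ f x = n}.Finite) :
    ∑' x, (if p x then φ (f x) else 0) = ∑' n, ({x | p x ∧ f x = n}.ncard : ℝ≥0∞) * φ n := by
  have h1 : ∀ x, (if p x then φ (f x) else 0) =
      ∑' n, ({x | p x ∧ f x = n}.indicator (fun _ => φ n) x) := by
    intro x
    rw [tsum_eq_single (f x)]
    · by_cases h : p x <;> simp [Set.indicator, h]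
    · intro n hn
      simp [Set.indicator, hn.symm]
  simp_rw [h1]
  rw [ENNReal.tsum_comm]
  congr 1
  ext n
  rw [← tsum_subtype, ENNReal.tsum_set_const, ← (hfin n).cast_ncard_eq]
  simp

lemma ratio_eventually (s : ℕ → ℕ) (hpos : ∀ n, 0 < s n)
    (hsum : ∀ θ > 0, ∑' n, (s n : ℝ≥0∞) * EE θ ^ n ≠ ⊤) {L : ℝ}
    (hL : Tendsto (fun n => (s (n + 1) : ℝ) / (s n : ℝ)) atTop (𝓝 L)) {ε : ℝ} (hε : 0 < ε) :
    ∃ N, ∀ n ≥ N, (s (n + 1) : ℝ) ≤ (1 + ε) * s n := by
  have hL1 : L ≤ 1 := by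
    by_contra hc
    push Not at hc
    have hθ : 0 < Real.log L / 2 := by have := Real.log_pos hc; positivity
    have h1 := ENNReal.summable_toReal (hsum _ hθ)
    set θ := Real.log L / 2 with hθdef
    simp only [ENNReal.toReal_mul, ENNReal.toReal_natCast, ENNReal.toReal_pow, EE,
      ENNReal.toReal_ofReal (Real.exp_pos _).le] at h1
    refine not_summable_of_ratio_test_tendsto_gt_one (l := L * Real.exp (-θ)) ?_ ?_ h1
    · have : L = Real.exp (2 * θ) := by
        rw [hθdef, mul_div_cancel₀ _ (two_ne_zero), Real.exp_log (by linarith)]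
      rw [this, ← Real.exp_add]
      apply Real.one_lt_exp_iff.2
      linarith
    · refine (hL.mul_const (Real.exp (-θ))).congr (fun n => ?_)
      have h2 : (0 : ℝ) < s n := by exact_mod_cast hpos n
      have h3 := Real.exp_pos (-θ)
      rw [Real.norm_of_nonneg (by positivity), Real.norm_of_nonneg (by positivity)]
      field_simp
      ring
  have h := hL.eventually (gt_mem_nhds (show L < 1 + ε by linarith))
  obtain ⟨N, hN⟩ := eventually_atTop.1 h
  refine ⟨N, fun n hn => ?_⟩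
  have h2 : (0 : ℝ) < s n := by exact_mod_cast hpos n
  have := hN n hn
  rw [div_lt_iff₀ h2] at this
  exact this.le

noncomputable def resSum (s : ℕ → ℕ) (M : ℕ) (θ : ℝ) (i : ZMod M) : ℝ≥0∞ :=
  ∑' n : ℕ, if (n : ZMod M) = i then (s n : ℝ≥0∞) * EE θ ^ n else 0

lemma resSum_large (s : ℕ → ℕ) (hpos : ∀ n, 0 < s n) (M : ℕ) [NeZero M] (J : ℕ) :
    ∃ θ0 > 0, ∀ θ, 0 < θ → θ < θ0 → ∀ i : ZMod M,
      ENNReal.ofReal (J / 2) ≤ resSum s M θ i := by
  refine ⟨1 / (2 * (M * J + M + 1)), by positivity, fun θ h0 h1 i => ?_⟩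
  have hM : 0 < M := Nat.pos_of_ne_zero (NeZero.ne M)
  have hinj : Function.Injective (fun j : ℕ => i.val + M * j) := by
    intro x y h
    simp only [add_right_inj] at h
    exact Nat.eq_of_mul_eq_mul_left hM h
  refine le_trans ?_ (ENNReal.tsum_comp_le_tsum_of_injective hinj _)
  refine le_trans ?_ (ENNReal.sum_le_tsum (Finset.range J))
  have h2 : ENNReal.ofReal (J / 2) = ∑ _j ∈ Finset.range J, ENNReal.ofReal (1 / 2) := by
    rw [Finset.sum_const, Finset.card_range, nsmul_eq_mul, ← ENNReal.ofReal_natCast,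
      ← ENNReal.ofReal_mul (by positivity)]
    congr 1; ring
  rw [h2]
  refine Finset.sum_le_sum (fun j hj => ?_)
  have h3 : ((i.val + M * j : ℕ) : ZMod M) = i := by simp
  rw [if_pos h3]
  have h4 : (1 : ℝ≥0∞) ≤ s (i.val + M * j) := by exact_mod_cast hpos _
  refine le_trans ?_ (le_mul_of_one_le_left' h4)
  rw [EE_pow]
  apply ENNReal.ofReal_le_ofReal
  have h5 := Real.add_one_le_exp (-θ * ((i.val + M * j : ℕ) : ℝ))
  have h6 : i.val + M * j ≤ M * J + M := by
    have := ZMod.val_lt i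
    have := Nat.mul_le_mul_left M (Finset.mem_range.1 hj).le
    omega
  have h7 : ((i.val + M * j : ℕ) : ℝ) ≤ M * J + M := by exact_mod_cast h6
  rw [lt_div_iff₀ (by positivity)] at h1
  have h8 : θ * ((i.val + M * j : ℕ) : ℝ) ≤ θ * (M * J + M) := by gcongr
  nlinarith

lemma shift_lemma (s : ℕ → ℕ) (hpos : ∀ n, 0 < s n) (M : ℕ) [NeZero M] {ε : ℝ} (hε : 0 < ε)
    (hN : ∃ N, ∀ n ≥ N, (s (n + 1) : ℝ) ≤ (1 + ε) * s n) :
    ∃ θ0 > 0, ∀ θ, 0 < θ → θ < θ0 → ∀ i j : ZMod M,
      resSum s M θ i ≤ ENNReal.ofReal ((1 + 2 * ε) ^ M) * resSum s M θ j := by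
  obtain ⟨N, hN⟩ := hN
  let C : ℕ := s 0 + ∑ n ∈ Finset.range N, s (n + 1)
  obtain ⟨J, hJ⟩ := exists_nat_gt (2 * C / ε)
  obtain ⟨θ0, hθ0, hlarge⟩ := resSum_large s hpos M J
  refine ⟨θ0, hθ0, fun θ h0 h1 => ?_⟩
  have step : ∀ i : ZMod M, resSum s M θ (i + 1) ≤ ENNReal.ofReal (1 + 2 * ε) * resSum s M θ i := by
    intro i
    have e1 : resSum s M θ (i + 1) ≤ C + ENNReal.ofReal (1 + ε) * resSum s M θ i := by
      unfold resSum
      rw [tsum_eq_zero_add' ENNReal.summable, ← ENNReal.tsum_mul_left]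
      have e2 : ∑' n : ℕ, (if n < N then (s (n + 1) : ℝ≥0∞) else 0) =
          ∑ n ∈ Finset.range N, (s (n + 1) : ℝ≥0∞) := by
        rw [tsum_eq_sum (s := Finset.range N)]
        · exact Finset.sum_congr rfl (fun n hn => if_pos (Finset.mem_range.1 hn))
        · intro n hn; exact if_neg (by simpa using hn)
      simp only [C]
      push_cast
      rw [← e2, add_assoc, ← ENNReal.tsum_add]
      gcongr with n
      · split_ifs <;> simp
      · by_cases hi : (n : ZMod M) = i
        · rw [if_pos (by rw [hi]), if_pos hi]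
          by_cases hn : n < N
          · rw [if_pos hn]
            refine le_trans ?_ le_self_add
            exact mul_le_of_le_one_right' (pow_le_one' (EE_le_one h0.le) _)
          · rw [if_neg hn, zero_add, ← mul_assoc]
            refine mul_le_mul' ?_ (EE_pow_anti h0.le (Nat.le_succ n))
            rw [← ENNReal.ofReal_natCast, ← ENNReal.ofReal_natCast,
                ← ENNReal.ofReal_mul (by positivity)]
            exact ENNReal.ofReal_le_ofReal (hN n (not_lt.1 hn))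
        · rw [if_neg (by simpa using hi)]
          exact zero_le
    have e3 : (C : ℝ≥0∞) ≤ ENNReal.ofReal ε * resSum s M θ i := by
      refine le_trans ?_ (mul_le_mul_right (hlarge θ h0 h1 i) _)
      rw [← ENNReal.ofReal_mul hε.le, ← ENNReal.ofReal_natCast]
      apply ENNReal.ofReal_le_ofReal
      rw [div_lt_iff₀ hε] at hJ
      linarith
    refine e1.trans ?_
    calc _ ≤ ENNReal.ofReal ε * resSum s M θ i + ENNReal.ofReal (1 + ε) * resSum s M θ i := by
          gcongr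
      _ = _ := by
          rw [← add_mul, ← ENNReal.ofReal_add hε.le (by positivity)]
          congr 2; ring
  have iter : ∀ (m : ℕ) (j : ZMod M),
      resSum s M θ (j + m) ≤ ENNReal.ofReal ((1 + 2 * ε) ^ m) * resSum s M θ j := by
    intro m j
    induction m with
    | zero => simp
    | succ m ih =>
      push_cast
      rw [← add_assoc]
      refine (step _).trans ?_
      rw [pow_succ', ENNReal.ofReal_mul (by positivity), mul_assoc]
      gcongr
  intro i j
  have := iter (i - j).val j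
  rw [ZMod.natCast_zmod_val, add_sub_cancel] at this
  refine this.trans ?_
  gcongr
  · linarith
  · exact (ZMod.val_lt _).le

end Pool.Agent.MP_1b52a1_al.H21
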