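import Pool.Agent.MP_1b52a1_al.H21.Sched
import Pool.Agent.MP_1b52a1_al.H21.Sums
import Pool.Agent.MP_1b52a1_al.H21.Conc

namespace Pool.Agent.MP_1b52a1_al.H21

open scoped ENNReal

def g4 : Fin 4 → Γ := ![a, b, c, d]
def w4 : Fin 4 → ℕ := ![3, 5, 4, 3]

def Wt (g : Γ) (n : ℕ) : Prop := ∃ l : List (Fin 4), (l.map g4).prod = g ∧ (l.map w4).sum ≤ n

lemma Wt.mul {g h : Γ} {n m : ℕ} (hg : Wt g n) (hh : Wt h m) : Wt (g * h) (n + m) := by
  obtain ⟨l, rfl, hl⟩ := hg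
  obtain ⟨l', rfl, hl'⟩ := hh
  exact ⟨l ++ l', by simp, by simp; omega⟩

lemma Wt.mono {g : Γ} {n m : ℕ} (hg : Wt g n) (h : n ≤ m) : Wt g m := by
  obtain ⟨l, rfl, hl⟩ := hg
  exact ⟨l, rfl, hl.trans h⟩

lemma wt_one : Wt 1 0 := ⟨[], by simp, by simp⟩
lemma wt_a : Wt a 3 := ⟨[0], by simp [g4], by simp [w4]⟩
lemma wt_b : Wt b 5 := ⟨[1], by simp [g4], by simp [w4]⟩
lemma wt_c : Wt c 4 := ⟨[2], by simp [g4], by simp [w4]⟩
lemma wt_d : Wt d 3 := ⟨[3], by simp [g4], by simp [w4]⟩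

def QQ (g : Γ) (n : ℕ) : Prop :=
  ∃ n0 n1, Wt (sec g false) n0 ∧ Wt (sec g true) n1 ∧ 8 * (n0 + n1) ≤ n

lemma QQ.mono {g : Γ} {n m : ℕ} (hg : QQ g n) (h : n ≤ m) : QQ g m := by
  obtain ⟨n0, n1, h0, h1, h2⟩ := hg
  exact ⟨n0, n1, h0, h1, h2.trans h⟩

lemma QQ.mul {g s : Γ} {n p q : ℕ} (hg : QQ g n) (hp : Wt (sec s false) p)
    (hq : Wt (sec s true) q) : QQ (s * g) (n + 8 * (p + q)) := by
  obtain ⟨n0, n1, h0, h1, h2⟩ := hg
  cases hr : rt g
  · refine ⟨p + n0, q + n1, ?_, ?_, by omega⟩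
    · rw [sec_mul, hr]; exact hp.mul h0
    · rw [sec_mul, hr]; exact hq.mul h1
  · refine ⟨q + n0, p + n1, ?_, ?_, by omega⟩
    · rw [sec_mul, hr]; exact hq.mul h0
    · rw [sec_mul, hr]; exact hp.mul h1

lemma QQ.a {g : Γ} {n : ℕ} (hg : QQ g n) : QQ (a * g) n :=
  hg.mul (p := 0) (q := 0) (by simpa using wt_one) (by simpa using wt_one)
lemma QQ.b {g : Γ} {n : ℕ} (hg : QQ g n) : QQ (b * g) (n + 56) :=
  hg.mul (p := 3) (q := 4) (by simpa using wt_a) (by simpa using wt_c)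
lemma QQ.c {g : Γ} {n : ℕ} (hg : QQ g n) : QQ (c * g) (n + 48) :=
  hg.mul (p := 3) (q := 3) (by simpa using wt_a) (by simpa using wt_d)
lemma QQ.d {g : Γ} {n : ℕ} (hg : QQ g n) : QQ (d * g) (n + 40) :=
  hg.mul (p := 0) (q := 5) (by simpa using wt_one) (by simpa using wt_b)

def RRQ (g : Γ) (n : ℕ) : Prop :=
  QQ g (7 * n) ∨ (5 ≤ n ∧ QQ (b * g) (7 * (n - 5))) ∨ (4 ≤ n ∧ QQ (c * g) (7 * (n - 4))) ∨
    (3 ≤ n ∧ QQ (d * g) (7 * (n - 3)))

lemma RRQ.qq {g : Γ} {n : ℕ} (h : RRQ g n) : QQ g (7 * n + 21) := by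
  rcases h with h | ⟨h0, h⟩ | ⟨h0, h⟩ | ⟨h0, h⟩
  · exact h.mono (by omega)
  · have := h.b; rw [b_b'] at this; exact this.mono (by omega)
  · have := h.c; rw [c_c'] at this; exact this.mono (by omega)
  · have := h.d; rw [d_d'] at this; exact this.mono (by omega)

lemma rrq_list (l : List (Fin 4)) : RRQ (l.map g4).prod (l.map w4).sum := by
  induction l with
  | nil => exact Or.inl ⟨0, 0, by simpa using wt_one, by simpa using wt_one, by simp⟩
  | cons x l ih =>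
    simp only [List.map_cons, List.prod_cons, List.sum_cons]
    generalize (l.map g4).prod = g at ih ⊢
    generalize (l.map w4).sum = n at ih ⊢
    fin_cases x
    · exact Or.inl (ih.qq.a.mono (by simp [w4]; omega))
    · change RRQ (b * g) (5 + n)
      rcases ih with h | ⟨h0, h⟩ | ⟨h0, h⟩ | ⟨h0, h⟩
      · exact Or.inr (Or.inl ⟨by omega, by rw [b_b']; exact h.mono (by omega)⟩)
      · exact Or.inl (h.mono (by omega))
      · exact Or.inr (Or.inr (Or.inr ⟨by omega, by rw [d_b']; exact h.mono (by omega)⟩))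
      · exact Or.inr (Or.inr (Or.inl ⟨by omega, by rw [c_b']; exact h.mono (by omega)⟩))
    · change RRQ (c * g) (4 + n)
      rcases ih with h | ⟨h0, h⟩ | ⟨h0, h⟩ | ⟨h0, h⟩
      · exact Or.inr (Or.inr (Or.inl ⟨by omega, by rw [c_c']; exact h.mono (by omega)⟩))
      · exact Or.inr (Or.inr (Or.inr ⟨by omega, by rw [d_c']; exact h.mono (by omega)⟩))
      · exact Or.inl (h.mono (by omega))
      · exact Or.inr (Or.inl ⟨by omega, by rw [b_c']; exact h.mono (by omega)⟩)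
    · change RRQ (d * g) (3 + n)
      rcases ih with h | ⟨h0, h⟩ | ⟨h0, h⟩ | ⟨h0, h⟩
      · exact Or.inr (Or.inr (Or.inr ⟨by omega, by rw [d_d']; exact h.mono (by omega)⟩))
      · exact Or.inr (Or.inr (Or.inl ⟨by omega, by rw [c_d']; exact h.mono (by omega)⟩))
      · exact Or.inr (Or.inl ⟨by omega, by rw [b_d']; exact h.mono (by omega)⟩)
      · exact Or.inl (h.mono (by omega))

lemma wt_T {τ : Γ} (h : τ ∈ T) : Wt τ 53 := by
  have key : ∀ i : ℕ, Wt ((c * a) ^ i) (7 * i) := by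
    intro i
    induction i with
    | zero => simpa using wt_one
    | succ i ih => rw [pow_succ]; exact (ih.mul (wt_c.mul wt_a)).mono (by omega)
  obtain ⟨i, hi, rfl | rfl⟩ := mem_T h
  · exact (key i).mono (by omega)
  · exact ((key i).mul wt_c).mono (by omega)

lemma wt_AA {k : ℕ} : ∀ {g : Γ}, g ∈ AA T DD k → Wt g (56 * (k + 1)) := by
  induction k with
  | zero => intro g hg; exact (wt_T (mem_AA_zero.1 hg)).mono (by omega)
  | succ k ih =>
    intro g hg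
    obtain ⟨h, hh, w, hw, v, hv, rfl⟩ := mem_AA_succ.1 hg
    have hw' : Wt w 3 := by
      rcases hw with rfl | rfl
      · exact wt_one.mono (by omega)
      · exact wt_d
    exact (((ih hh).mul hw').mul (wt_T hv)).mono (by omega)

noncomputable def NN (g : Γ) : ℕ := sInf {n | Wt g n}

lemma wt_NN (g : Γ) : Wt g (NN g) :=
  Nat.sInf_mem (s := {n | Wt g n}) ⟨_, wt_AA (mem_AA_lam g)⟩

lemma NN_le {g : Γ} {n : ℕ} (h : Wt g n) : NN g ≤ n := Nat.sInf_le h

lemma NN_contract (g : Γ) : 8 * (NN (sec g false) + NN (sec g true)) ≤ 7 * NN g + 21 := by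
  obtain ⟨l, hl, hw⟩ := wt_NN g
  have := (rrq_list l).qq
  rw [hl] at this
  obtain ⟨n0, n1, h0, h1, h2⟩ := this
  have := NN_le h0
  have := NN_le h1
  omega

lemma tsum_sec_le (F : Γ → ℝ≥0∞) :
    ∑' g, F (sec g false) * F (sec g true) ≤ 2 * (∑' g, F g) ^ 2 := by
  refine le_trans (ENNReal.tsum_comp_le_tsum_of_injective sec_injective
    (fun p : Bool × Γ × Γ => F p.2.1 * F p.2.2)) (le_of_eq ?_)
  rw [ENNReal.tsum_prod']
  simp only [ENNReal.tsum_prod', ENNReal.tsum_mul_left, ENNReal.tsum_mul_right]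
  simp [sq, tsum_fintype, two_mul, mul_add]

lemma ZN_base : ∑' g, EE 4 ^ NN g ≠ ⊤ := by
  choose l hl hw using wt_NN
  have hinj : Function.Injective l := by
    intro x y h; rw [← hl x, ← hl y, h]
  have h1 : ∀ g, EE 4 ^ NN g ≤ EE 4 ^ (l g).length := by
    intro g
    refine EE_pow_anti (by norm_num) (le_trans ?_ (hw g))
    generalize l g = l'
    induction l' with
    | nil => simp
    | cons x l' ih =>
      have : 1 ≤ w4 x := by fin_cases x <;> simp [w4]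
      simp only [List.length_cons, List.map_cons, List.sum_cons]; omega
  have h2 := (ENNReal.tsum_le_tsum h1).trans
    (ENNReal.tsum_comp_le_tsum_of_injective hinj (fun l : List (Fin 4) => EE 4 ^ l.length))
  refine ne_top_of_le_ne_top ?_ h2
  rw [← List.equivSigmaTuple.symm.tsum_eq, ENNReal.tsum_sigma']
  have h3 : ∀ n : ℕ, ∑' x : Fin n → Fin 4,
      EE 4 ^ (List.equivSigmaTuple.symm ⟨n, x⟩ : List (Fin 4)).length = (4 * EE 4) ^ n := by
    intro n
    simp [List.equivSigmaTuple, mul_pow]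
  simp only [h3]
  rw [ENNReal.tsum_geometric]
  have h4 : 4 * EE 4 < 1 := by
    rw [EE, ← ENNReal.ofReal_ofNat, ← ENNReal.ofReal_mul (by norm_num), ENNReal.ofReal_lt_one,
      Real.exp_neg, ← div_eq_mul_inv, div_lt_one (Real.exp_pos _)]
    have := Real.add_one_le_exp 4
    linarith
  simpa [tsub_eq_zero_iff_le] using h4

lemma ZN_step {θ : ℝ} (hθ : 0 < θ) (h : ∑' g, EE θ ^ NN g ≠ ⊤) :
    ∑' g, EE (7 / 8 * θ) ^ NN g ≠ ⊤ := by
  have e1 : EE θ = EE (θ / 8) ^ 8 := by rw [← EE_mul]; congr 1; push_cast; ring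
  have e2 : EE (7 / 8 * θ) = EE (θ / 8) ^ 7 := by rw [← EE_mul]; congr 1; push_cast; ring
  have h1 : ∀ g, EE (θ / 8) ^ 21 * EE (7 / 8 * θ) ^ NN g ≤
      EE θ ^ NN (sec g false) * EE θ ^ NN (sec g true) := by
    intro g
    rw [e1, e2, ← pow_mul, ← pow_mul, ← pow_mul, ← pow_add, ← pow_add]
    have := NN_contract g
    exact EE_pow_anti (by positivity) (by omega)
  have h2 := (ENNReal.tsum_le_tsum h1).trans (tsum_sec_le (fun g => EE θ ^ NN g))
  rw [ENNReal.tsum_mul_left] at h2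
  intro htop
  rw [htop, ENNReal.mul_top (pow_ne_zero _ (EE_ne_zero _))] at h2
  exact (ENNReal.mul_ne_top (by simp) (ENNReal.pow_ne_top h)) (top_le_iff.1 h2)

lemma EE_anti {θ θ' : ℝ} (h : θ ≤ θ') : EE θ' ≤ EE θ :=
  ENNReal.ofReal_le_ofReal (Real.exp_le_exp.2 (by linarith))

lemma ZN_fin {θ : ℝ} (hθ : 0 < θ) : ∑' g, EE θ ^ NN g ≠ ⊤ := by
  have key : ∀ n : ℕ, ∑' g, EE ((7 / 8) ^ n * 4) ^ NN g ≠ ⊤ := by
    intro n
    induction n with
    | zero => simpa using ZN_base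
    | succ n ih =>
      have := ZN_step (by positivity) ih
      rwa [← mul_assoc, ← pow_succ'] at this
  obtain ⟨n, hn⟩ := exists_pow_lt_of_lt_one (show 0 < θ / 4 by positivity)
    (show (7 / 8 : ℝ) < 1 by norm_num)
  refine ne_top_of_le_ne_top (key n) (ENNReal.tsum_le_tsum fun g => ?_)
  gcongr
  exact EE_anti (by linarith)

lemma Zlam_fin {θ : ℝ} (hθ : 0 < θ) : ∑' g, EE θ ^ lam g ≠ ⊤ := by
  have e1 : EE θ = EE (θ / 56) ^ 56 := by rw [← EE_mul]; congr 1; push_cast; ring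
  have h1 : ∀ g, EE θ * EE θ ^ lam g ≤ EE (θ / 56) ^ NN g := by
    intro g
    rw [← pow_succ', e1, ← pow_mul]
    exact EE_pow_anti (by positivity) (NN_le (wt_AA (mem_AA_lam g)))
  have h2 := ENNReal.tsum_le_tsum h1
  rw [ENNReal.tsum_mul_left] at h2
  intro htop
  rw [htop, ENNReal.mul_top (EE_ne_zero _)] at h2
  exact ZN_fin (by positivity) (top_le_iff.1 h2)

lemma Zsig_fin {θ : ℝ} (hθ : 0 < θ) (r : ℕ) : ∑' g, EE θ ^ sig r g ≠ ⊤ := by
  induction r with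
  | zero => exact Zlam_fin hθ
  | succ r ih =>
    simp only [sig, pow_add]
    exact ne_top_of_le_ne_top (ENNReal.mul_ne_top (by simp) (ENNReal.pow_ne_top ih))
      (tsum_sec_le (fun g => EE θ ^ sig r g))

lemma summable_lam (θ : ℝ) (hθ : θ > 0) : Summable (fun g => Real.exp (-θ * lam g)) := by
  have := ENNReal.summable_toReal (Zlam_fin hθ)
  simpa only [EE_pow, ENNReal.toReal_ofReal (Real.exp_pos _).le] using this

lemma ofReal_ZZ {θ : ℝ} (hθ : 0 < θ) : ENNReal.ofReal (ZZ lam 0 θ) = ∑' g, EE θ ^ lam g := by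
  simp only [ZZ, pow_zero, one_mul, EE_pow]
  exact ENNReal.ofReal_tsum_of_nonneg (fun g => (Real.exp_pos _).le) (summable_lam θ hθ)

lemma card_T : ENat.card T ≤ 16 := by
  have hs : Function.Surjective (fun p : Fin 8 × Bool =>
      (⟨(c * a) ^ p.1.val * (if p.2 then c else 1),
        mul_mem (ca_pow_mem _) (by split_ifs; exacts [c_mem_T, one_mem _])⟩ : T)) := by
    rintro ⟨τ, hτ⟩
    obtain ⟨i, hi, rfl | rfl⟩ := mem_T hτ
    · exact ⟨(⟨i, hi⟩, false), by simp⟩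
    · exact ⟨(⟨i, hi⟩, true), by simp⟩
  have := ENat.card_le_card_of_injective (Function.injective_surjInv hs)
  simpa using this

lemma super_enn {θ : ℝ} (hθ : 0 < θ) :
    EE θ ^ 32 * (∑' g, EE (16 * θ) ^ lam g) ^ 2 ≤ 256 * ∑' g, EE θ ^ lam g := by
  choose f hf hl using exists_lift
  let Φ : Γ × Γ → T × T × Γ := fun p =>
    (⟨sec (f p.1) true, (hf _).2.2⟩, ⟨sec (f p.2) true, (hf _).2.2⟩, f p.1 * (a * f p.2 * a))
  have hinj : Function.Injective Φ := by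
    rintro ⟨g, g'⟩ ⟨h, h'⟩ H
    simp only [Φ, Prod.mk.injEq, Subtype.mk.injEq] at H
    obtain ⟨H1, H2, H3⟩ := H
    have H4 := congrArg (fun z => sec z false) H3
    have H5 := congrArg (fun z => sec z true) H3
    simp [(hf _).1, (hf _).2.1, H1, H2] at H4 H5
    rw [H4, H5]
  have e : EE (16 * θ) = EE θ ^ 16 := by rw [← EE_mul]; congr 1
  have h1 : ∀ p : Γ × Γ, EE θ ^ 32 * (EE (16 * θ) ^ lam p.1 * EE (16 * θ) ^ lam p.2) ≤
      EE θ ^ lam (Φ p).2.2 := by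
    intro p
    rw [e, ← pow_mul, ← pow_mul, ← pow_add, ← pow_add]
    refine EE_pow_anti hθ.le ?_
    have h2 := lam_mul_le (f p.1) (a * f p.2 * a)
    rw [lam_mul_T _ a_mem_T, lam_T_mul _ a_mem_T] at h2
    have := hl p.1
    have := hl p.2
    simp only [Φ]
    omega
  have h2 := (ENNReal.tsum_le_tsum h1).trans (ENNReal.tsum_comp_le_tsum_of_injective hinj
    (fun p : T × T × Γ => EE θ ^ lam p.2.2))
  rw [ENNReal.tsum_mul_left] at h2
  simp only [ENNReal.tsum_prod', ENNReal.tsum_mul_left, ENNReal.tsum_mul_right,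
    ENNReal.tsum_const] at h2
  rw [sq]
  refine h2.trans ?_
  have h3 : ((ENat.card T : ℕ∞) : ℝ≥0∞) ≤ 16 := by exact_mod_cast card_T
  rw [← mul_assoc]
  gcongr
  calc _ ≤ (16 : ℝ≥0∞) * 16 := mul_le_mul' h3 h3
    _ = 256 := by norm_num

lemma super_real (θ : ℝ) (hθ : θ > 0) :
    Real.exp (-32 * θ) * ZZ lam 0 (16 * θ) ^ 2 ≤ 256 * ZZ lam 0 θ := by
  have h := super_enn hθ
  have h1 := ZZ0_pos summable_lam hθ
  have h2 := ZZ0_pos summable_lam (show 0 < 16 * θ by positivity)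
  rw [← ofReal_ZZ hθ, ← ofReal_ZZ (by positivity), EE_pow, ← ENNReal.ofReal_pow h2.le,
    ← ENNReal.ofReal_mul (Real.exp_pos _).le, ← ENNReal.ofReal_ofNat,
    ← ENNReal.ofReal_mul (by norm_num), ENNReal.ofReal_le_ofReal_iff (by positivity)] at h
  convert h using 3
  push_cast; ring

end Pool.Agent.MP_1b52a1_al.H21
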