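import Pool.Agent.MP_1b52a1_al.H21.Tree
import Pool.Agent.MP_1b52a1_al.H21.Alt

namespace Pool.Agent.MP_1b52a1_al.H21

def T : Subgroup Γ := Subgroup.closure {a, c}

def DD : Subgroup Γ where
  carrier := {1, d}
  one_mem' := Or.inl rfl
  mul_mem' := by
    rintro x y (rfl | rfl) (rfl | rfl) <;> simp
  inv_mem' := by
    rintro x (rfl | rfl) <;> simp

lemma mem_DD {x : Γ} : x ∈ DD ↔ x = 1 ∨ x = d := Iff.rfl

@[simp] lemma a_mem_T : a ∈ T := Subgroup.subset_closure (Or.inl rfl)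
@[simp] lemma c_mem_T : c ∈ T := Subgroup.subset_closure (Or.inr rfl)
lemma d_mem_DD : d ∈ DD := Or.inr rfl

lemma mem_T {τ : Γ} (h : τ ∈ T) : ∃ i < 8, τ = (c * a) ^ i ∨ τ = (c * a) ^ i * c := by
  have : ∃ i : ℕ, τ = (c * a) ^ i ∨ τ = (c * a) ^ i * c := by
    have step : ∀ x y : Γ, x ∈ ({a, c} : Set Γ) →
        (∃ i : ℕ, y = (c * a) ^ i ∨ y = (c * a) ^ i * c) →
        ∃ i : ℕ, y * x = (c * a) ^ i ∨ y * x = (c * a) ^ i * c := by
      rintro x y (rfl | rfl) ⟨i, rfl | rfl⟩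
      · refine ⟨i + 7, Or.inr ?_⟩
        have h8 := ca8
        rw [pow_succ] at h8
        rw [pow_add, mul_assoc]
        congr 1
        calc a = (c * a) ^ 7 * (c * a) * a := by rw [h8, one_mul]
          _ = (c * a) ^ 7 * c := by simp [mul_assoc]
      · exact ⟨i + 1, Or.inl (by rw [pow_succ, mul_assoc])⟩
      · exact ⟨i, Or.inr rfl⟩
      · exact ⟨i, Or.inl (by simp [mul_assoc])⟩
    induction h using Subgroup.closure_induction_right with
    | one => exact ⟨0, Or.inl (by simp)⟩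
    | mul_right x hx y hy ih => exact step y x hy ih
    | mul_inv_cancel x hx y hy ih =>
      have : y⁻¹ = y := by rcases hy with rfl | rfl <;> simp
      rw [this]; exact step y x hy ih
  obtain ⟨i, hi⟩ := this
  refine ⟨i % 8, Nat.mod_lt _ (by norm_num), ?_⟩
  rw [← pow_eq_pow_mod i ca8]
  exact hi

lemma T_finite : (T : Set Γ).Finite := by
  have h : ((fun i : ℕ => (c * a) ^ i) '' {i | i < 8} ∪
      (fun i : ℕ => (c * a) ^ i * c) '' {i | i < 8}).Finite :=
    ((Set.finite_lt_nat 8).image _).union ((Set.finite_lt_nat 8).image _)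
  refine h.subset ?_
  intro τ hτ
  obtain ⟨i, hi, h | h⟩ := mem_T hτ
  · exact Or.inl ⟨i, hi, h.symm⟩
  · exact Or.inr ⟨i, hi, h.symm⟩

lemma DD_finite : (DD : Set Γ).Finite := Set.toFinite ({1, d} : Set Γ)

lemma closure_top_of {S : Set Γ} (ha : a ∈ Subgroup.closure S) (hb : b ∈ Subgroup.closure S)
    (hd : d ∈ Subgroup.closure S) : Subgroup.closure S = ⊤ := by
  rw [eq_top_iff]
  intro g _
  have hc : c ∈ Subgroup.closure S := by rw [← b_d]; exact mul_mem hb hd
  induction g using ind_left with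
  | h1 => exact one_mem _
  | ha g ih => exact mul_mem ha (ih trivial)
  | hb g ih => exact mul_mem hb (ih trivial)
  | hc g ih => exact mul_mem hc (ih trivial)
  | hd g ih => exact mul_mem hd (ih trivial)

lemma TD_gen : Subgroup.closure ((T : Set Γ) ∪ DD) = ⊤ := by
  have hd : d ∈ Subgroup.closure ((T : Set Γ) ∪ DD) := Subgroup.subset_closure (Or.inr d_mem_DD)
  refine closure_top_of (Subgroup.subset_closure (Or.inl a_mem_T)) ?_ hd
  rw [← c_d]
  exact mul_mem (Subgroup.subset_closure (Or.inl c_mem_T)) hd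

/-- parity of the number of swaps at level `n` -/
noncomputable def eps : ℕ → Γ → Bool
  | 0, g => rt g
  | n + 1, g => xor (eps n (sec g false)) (eps n (sec g true))

lemma eps_mul (n : ℕ) : ∀ g h : Γ, eps n (g * h) = xor (eps n g) (eps n h) := by
  induction n with
  | zero => intro g h; simp [eps]
  | succ n ih =>
    intro g h
    simp only [eps, sec_mul, ih]
    generalize eps n (sec h false) = p, eps n (sec h true) = q
    cases rt h <;> simp only [Bool.false_xor, Bool.true_xor, Bool.not_false, Bool.not_true] <;>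
      generalize eps n (sec g false) = r, eps n (sec g true) = s <;>
      cases p <;> cases q <;> cases r <;> cases s <;> rfl

noncomputable def par (g : Γ) : Bool := eps 2 g

@[simp] lemma par_mul (g h : Γ) : par (g * h) = xor (par g) (par h) := eps_mul 2 g h
@[simp] lemma par_one : par 1 = false := by simp [par, eps]
@[simp] lemma par_a : par a = false := by simp [par, eps]
@[simp] lemma par_b : par b = true := by simp [par, eps]
@[simp] lemma par_c : par c = false := by simp [par, eps]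
@[simp] lemma par_d : par d = true := by simp [par, eps]
@[simp] lemma par_inv (g : Γ) : par g⁻¹ = par g := by
  have := par_mul g⁻¹ g
  rw [inv_mul_cancel, par_one] at this
  revert this; cases par g⁻¹ <;> cases par g <;> simp

lemma par_T {τ : Γ} (h : τ ∈ T) : par τ = false := by
  induction h using Subgroup.closure_induction with
  | one => simp
  | mem x hx => rcases hx with rfl | rfl <;> simp
  | mul x y _ _ hx hy => simp [hx, hy]
  | inv x _ hx => simp [hx]

noncomputable def lam (g : Γ) : ℕ := ell T DD g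

lemma lam_le_iff {g : Γ} {k : ℕ} : lam g ≤ k ↔ g ∈ AA T DD k := (mem_AA_iff TD_gen).symm

lemma mem_AA_lam (g : Γ) : g ∈ AA T DD (lam g) := lam_le_iff.1 le_rfl

lemma lam_mul_le (g h : Γ) : lam (g * h) ≤ lam g + lam h :=
  lam_le_iff.2 (AA_mul (mem_AA_lam g) (mem_AA_lam h))

lemma lam_eq_zero {g : Γ} : lam g = 0 ↔ g ∈ T := by
  rw [← Nat.le_zero, lam_le_iff, mem_AA_zero]

@[simp] lemma lam_inv (g : Γ) : lam g⁻¹ = lam g := by
  apply le_antisymm
  · exact lam_le_iff.2 (AA_inv (mem_AA_lam g))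
  · exact lam_le_iff.2 (by simpa using AA_inv (mem_AA_lam g⁻¹))

lemma lam_mul_T (g : Γ) {τ : Γ} (h : τ ∈ T) : lam (g * τ) = lam g := by
  apply le_antisymm
  · exact lam_le_iff.2 (AA_mul_V (mem_AA_lam g) h)
  · exact lam_le_iff.2 (by simpa using AA_mul_V (mem_AA_lam (g * τ)) (inv_mem h))

lemma lam_T_mul (g : Γ) {τ : Γ} (h : τ ∈ T) : lam (τ * g) = lam g := by
  rw [← lam_inv, mul_inv_rev, lam_mul_T _ (inv_mem h), lam_inv]

lemma lam_d_le : lam d ≤ 1 :=
  lam_le_iff.2 (by simpa using AA_mul_W (mem_AA_zero.2 (one_mem T)) d_mem_DD)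

lemma lam_b_le : lam b ≤ 1 := by
  rw [← c_d, lam_T_mul _ c_mem_T]; exact lam_d_le

lemma AA_par {k : ℕ} : ∀ {g : Γ}, g ∈ AA T DD k →
    (par g = true ↔ k % 2 = 1) ∨ (0 < k ∧ g ∈ AA T DD (k - 1)) := by
  induction k with
  | zero => intro g hg; left; simp [par_T (mem_AA_zero.1 hg)]
  | succ k ih =>
    intro g hg
    obtain ⟨h, hh, w, hw, v, hv, rfl⟩ := mem_AA_succ.1 hg
    rcases hw with rfl | rfl
    · right; exact ⟨by omega, by simpa using AA_mul_V hh hv⟩
    · rcases ih hh with h1 | ⟨h1, h2⟩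
      · left
        simp only [par_mul, par_d, par_T hv]
        revert h1; cases par h <;> simp <;> omega
      · right
        refine ⟨by omega, ?_⟩
        have := AA_mul_V (AA_mul_W h2 d_mem_DD) hv
        rwa [show k - 1 + 1 = k + 1 - 1 by omega] at this

lemma lam_par (g : Γ) : par g = true ↔ lam g % 2 = 1 := by
  rcases AA_par (mem_AA_lam g) with h | ⟨h1, h2⟩
  · exact h
  · have := lam_le_iff.2 h2
    omega

lemma lam_mul_d (g : Γ) : lam (g * d) = lam g + 1 ∨ lam (g * d) + 1 = lam g := by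
  have h1 := lam_mul_le g d
  have h2 := lam_mul_le (g * d) d
  have h3 := lam_d_le
  rw [mul_assoc, d_d, mul_one] at h2
  have h4 := lam_par g
  have h5 := lam_par (g * d)
  simp only [par_mul, par_d] at h5
  revert h4 h5
  cases par g <;> simp <;> omega

lemma lam_mul_b (g : Γ) : lam (g * b) = lam (g * d) := by
  rw [← d_c, ← mul_assoc, lam_mul_T _ c_mem_T]

lemma ca_pow_mem (i : ℕ) : (c * a) ^ i ∈ T := pow_mem (mul_mem c_mem_T a_mem_T) i
lemma ac_pow_mem (i : ℕ) : (a * c) ^ i ∈ T := pow_mem (mul_mem a_mem_T c_mem_T) i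

lemma descent_ca {g : Γ} {n : ℕ} (h : lam g = n + 1) : ∃ i, lam (g * (c * a) ^ i * d) ≤ n := by
  have hg := mem_AA_lam g
  rw [h] at hg
  obtain ⟨g', hg', w, hw, v, hv, rfl⟩ := mem_AA_succ.1 hg
  rcases hw with rfl | rfl
  · have := lam_le_iff.2 (AA_mul_V hg' hv)
    rw [mul_one] at h
    omega
  · obtain ⟨i, -, hi | hi⟩ := mem_T (inv_mem hv)
    · refine ⟨i, ?_⟩
      rw [← hi]
      simpa [mul_assoc] using lam_le_iff.2 hg'
    · refine ⟨i, ?_⟩
      have : (c * a) ^ i = v⁻¹ * c := by rw [hi]; simp [mul_assoc]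
      rw [this]
      have h2 : g' * d * v * (v⁻¹ * c) * d = g' * c := by simp [mul_assoc]
      rw [h2, lam_mul_T _ c_mem_T]
      exact lam_le_iff.2 hg'

lemma ca_eq_ac_pow : c * a = (a * c) ^ 7 := by
  have h : (a * c) ^ 8 = 1 := by
    have := congrArg (·⁻¹) ca8
    simpa only [← inv_pow, mul_inv_rev, a_inv, c_inv, inv_one] using this
  rw [pow_succ] at h
  have := eq_inv_of_mul_eq_one_left h
  simpa using this.symm

lemma step_ca (g : Γ) (n : ℤ) (hn : 0 ≤ n) (h1 : (lam g : ℤ) ≤ n + 1)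
    (h2 : (lam g : ℤ) % 2 = (n + 1) % 2) :
    ∃ i, (lam (g * (c * a) ^ i * d) : ℤ) ≤ n ∧ (lam (g * (c * a) ^ i * d) : ℤ) % 2 = n % 2 := by
  have key : ∀ i, (lam (g * (c * a) ^ i * d) : ℤ) % 2 = n % 2 := by
    intro i
    have := lam_mul_d (g * (c * a) ^ i)
    rw [lam_mul_T _ (ca_pow_mem i)] at this
    omega
  rcases hg : lam g with _ | m
  · refine ⟨0, ?_, key 0⟩
    have := lam_mul_d (g * (c * a) ^ 0)
    rw [lam_mul_T _ (ca_pow_mem 0)] at this
    omega
  · obtain ⟨i, hi⟩ := descent_ca hg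
    exact ⟨i, by omega, key i⟩

lemma step_ac (g : Γ) (n : ℤ) (hn : 0 ≤ n) (h1 : (lam g : ℤ) ≤ n + 1)
    (h2 : (lam g : ℤ) % 2 = (n + 1) % 2) :
    ∃ i, (lam (g * (a * c) ^ i * d) : ℤ) ≤ n ∧ (lam (g * (a * c) ^ i * d) : ℤ) % 2 = n % 2 := by
  obtain ⟨i, hi⟩ := step_ca g n hn h1 h2
  refine ⟨7 * i, ?_⟩
  rw [pow_mul, ← ca_eq_ac_pow]
  exact hi

/-- lifting an element to the first subtree -/
def IsLift (g h : Γ) : Prop := rt h = false ∧ sec h false = g ∧ sec h true ∈ T

lemma IsLift.mul {g g' h h' : Γ} (H : IsLift g h) (H' : IsLift g' h') :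
    IsLift (g * g') (h * h') := by
  obtain ⟨h1, h2, h3⟩ := H
  obtain ⟨h1', h2', h3'⟩ := H'
  refine ⟨by simp [h1, h1'], by simp [h1', h2, h2'], ?_⟩
  simpa [h1'] using mul_mem h3 h3'

lemma isLift_one : IsLift 1 1 := ⟨by simp, by simp, by simp⟩
lemma isLift_a : IsLift a b := ⟨by simp, by simp, by simp⟩
lemma isLift_c : IsLift c (a * b * a) := ⟨by simp, by simp, by simp⟩
lemma isLift_d : IsLift d (a * c * a) := ⟨by simp, by simp, by simp⟩

lemma lam_aba : lam (a * b * a) ≤ 1 := by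
  rw [lam_mul_T _ a_mem_T, lam_T_mul _ a_mem_T]; exact lam_b_le

lemma lift_T {τ : Γ} (h : τ ∈ T) : ∃ h, IsLift τ h ∧ lam h ≤ 15 := by
  have key : ∀ i : ℕ, ∃ h, IsLift ((c * a) ^ i) h ∧ lam h ≤ 2 * i := by
    intro i
    induction i with
    | zero => exact ⟨1, by simpa using isLift_one, by simpa using lam_eq_zero.2 (one_mem T)⟩
    | succ i ih =>
      obtain ⟨h, h1, h2⟩ := ih
      refine ⟨h * (a * b * a * b), by rw [pow_succ]; exact h1.mul (isLift_c.mul isLift_a), ?_⟩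
      have := lam_mul_le h (a * b * a * b)
      have := lam_mul_le (a * b * a) b
      have := lam_aba
      have := lam_b_le
      omega
  obtain ⟨i, hi, rfl | rfl⟩ := mem_T h
  · obtain ⟨h, h1, h2⟩ := key i
    exact ⟨h, h1, by omega⟩
  · obtain ⟨h, h1, h2⟩ := key i
    refine ⟨h * (a * b * a), h1.mul isLift_c, ?_⟩
    have := lam_mul_le h (a * b * a)
    have := lam_aba
    omega

lemma lift_AA {k : ℕ} : ∀ {g : Γ}, g ∈ AA T DD k → ∃ h, IsLift g h ∧ lam h ≤ 15 * (k + 1) := by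
  induction k with
  | zero => intro g hg; exact lift_T (mem_AA_zero.1 hg)
  | succ k ih =>
    intro g hg
    obtain ⟨g', hg', w, hw, v, hv, rfl⟩ := mem_AA_succ.1 hg
    obtain ⟨h, h1, h2⟩ := ih hg'
    obtain ⟨h', h1', h2'⟩ := lift_T hv
    have hw' : ∃ w' ∈ T, IsLift w w' := by
      rcases hw with rfl | rfl
      · exact ⟨1, one_mem _, isLift_one⟩
      · exact ⟨_, mul_mem (mul_mem a_mem_T c_mem_T) a_mem_T, isLift_d⟩
    obtain ⟨w', hw1, hw2⟩ := hw'
    refine ⟨h * w' * h', (h1.mul hw2).mul h1', ?_⟩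
    have := lam_mul_le (h * w') h'
    rw [lam_mul_T _ hw1] at this
    omega

lemma exists_lift (g : Γ) : ∃ h, IsLift g h ∧ lam h ≤ 15 * (lam g + 1) := lift_AA (mem_AA_lam g)

instance : Infinite Γ := by
  rw [← not_finite_iff_infinite]
  intro hfin
  choose f hf _ using exists_lift
  have hinj : Function.Injective f := by
    intro x y hxy
    rw [← (hf x).2.1, ← (hf y).2.1, hxy]
  obtain ⟨x, hx⟩ := Finite.injective_iff_surjective.1 hinj a
  have := (hf x).1
  rw [hx] at this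
  simp at this

/-- the branching subgroup -/
def K : Subgroup Γ := Subgroup.normalClosure {a * b * a * b}

instance : K.Normal := Subgroup.normalClosure_normal

lemma t_mem_K : a * b * a * b ∈ K := Subgroup.subset_normalClosure rfl

lemma mk_b_comm (g : Γ) : (g : Γ ⧸ K) * (b : Γ) = (b : Γ) * (g : Γ ⧸ K) := by
  have hab : ((a : Γ) : Γ ⧸ K) * (b : Γ) = (b : Γ) * ((a : Γ) : Γ ⧸ K) := by
    rw [← QuotientGroup.mk_mul, ← QuotientGroup.mk_mul, eq_comm, QuotientGroup.eq]
    simpa [mul_assoc] using t_mem_K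
  have h : ∀ x g : Γ, ((x : Γ ⧸ K) * (b : Γ) = (b : Γ) * (x : Γ ⧸ K)) →
      ((g : Γ ⧸ K) * (b : Γ) = (b : Γ) * (g : Γ ⧸ K)) →
      (((x * g : Γ) : Γ ⧸ K) * (b : Γ) = (b : Γ) * ((x * g : Γ) : Γ ⧸ K)) := by
    intro x g hx hg
    rw [QuotientGroup.mk_mul, mul_assoc, hg, ← mul_assoc, hx, mul_assoc]
  induction g using ind_left with
  | h1 => simp
  | ha g ih => exact h _ _ hab ih
  | hb g ih => exact h _ _ rfl ih
  | hc g ih => exact h _ _ (by rw [← QuotientGroup.mk_mul, ← QuotientGroup.mk_mul]; simp) ih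
  | hd g ih => exact h _ _ (by rw [← QuotientGroup.mk_mul, ← QuotientGroup.mk_mul]; simp) ih

lemma coset_form (g : Γ) : ∃ τ ∈ T,
    (g : Γ ⧸ K) = ((τ * (if par g then b else 1) : Γ) : Γ ⧸ K) := by
  have hT : ∀ x ∈ T, ∀ g : Γ, (∃ τ ∈ T,
      (g : Γ ⧸ K) = ((τ * (if par g then b else 1) : Γ) : Γ ⧸ K)) → ∃ τ ∈ T,
      ((x * g : Γ) : Γ ⧸ K) = ((τ * (if par (x * g) then b else 1) : Γ) : Γ ⧸ K) := by
    rintro x hx g ⟨τ, hτ, h⟩
    refine ⟨x * τ, mul_mem hx hτ, ?_⟩
    rw [QuotientGroup.mk_mul, h, ← QuotientGroup.mk_mul, par_mul, par_T hx, mul_assoc]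
    simp
  have hb : ∀ g : Γ, (∃ τ ∈ T,
      (g : Γ ⧸ K) = ((τ * (if par g then b else 1) : Γ) : Γ ⧸ K)) → ∃ τ ∈ T,
      ((b * g : Γ) : Γ ⧸ K) = ((τ * (if par (b * g) then b else 1) : Γ) : Γ ⧸ K) := by
    rintro g ⟨τ, hτ, h⟩
    refine ⟨τ, hτ, ?_⟩
    rw [QuotientGroup.mk_mul, h, ← mk_b_comm, ← QuotientGroup.mk_mul, par_mul, par_b]
    cases par g <;> simp [mul_assoc]
  induction g using ind_left with
  | h1 => exact ⟨1, one_mem _, by simp⟩
  | ha g ih => exact hT a a_mem_T g ih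
  | hb g ih => exact hb g ih
  | hc g ih => exact hT c c_mem_T g ih
  | hd g ih =>
    have := hT c c_mem_T _ (hb g ih)
    rwa [c_b'] at this

lemma same_par {g h : Γ} (hp : par g = par h) : ∃ τ ∈ T, ∃ k ∈ K, g = τ * h * k := by
  obtain ⟨τ, hτ, h1⟩ := coset_form g
  obtain ⟨τ', hτ', h2⟩ := coset_form h
  refine ⟨τ * τ'⁻¹, mul_mem hτ (inv_mem hτ'), (τ * τ'⁻¹ * h)⁻¹ * g, ?_, by group⟩
  rw [← QuotientGroup.eq, h1, QuotientGroup.mk_mul, h2, ← QuotientGroup.mk_mul, hp]
  congr 1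
  group

lemma exists_graft0 {k : Γ} (hk : k ∈ K) :
    ∃ g ∈ K, rt g = false ∧ sec g false = k ∧ sec g true = 1 := by
  unfold K Subgroup.normalClosure at hk
  induction hk using Subgroup.closure_induction with
  | one => exact ⟨1, one_mem _, by simp⟩
  | mem x hx =>
    obtain ⟨y, hy, hxy⟩ := Group.mem_conjugatesOfSet_iff.1 hx
    rw [Set.mem_singleton_iff] at hy
    subst hy
    obtain ⟨s, rfl⟩ := isConj_iff.1 hxy
    obtain ⟨h, ⟨h1, h2, h3⟩, -⟩ := exists_lift s
    have hm : b * (a * d * a) * b * (a * d * a) ∈ K := by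
      rw [← QuotientGroup.eq_one_iff, QuotientGroup.mk_mul, QuotientGroup.mk_mul,
        QuotientGroup.mk_mul, ← mk_b_comm (a * d * a), ← QuotientGroup.mk_mul,
        ← QuotientGroup.mk_mul, ← QuotientGroup.mk_mul]
      simp [mul_assoc]
    refine ⟨h * (b * (a * d * a) * b * (a * d * a)) * h⁻¹,
      Subgroup.Normal.conj_mem inferInstance _ hm h, ?_, ?_, ?_⟩
    · simp [h1]
    · simp [h1, h2, mul_assoc]
    · simp [h1]
  | mul x y _ _ hx hy =>
    obtain ⟨g, hg, h1, h2, h3⟩ := hx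
    obtain ⟨g', hg', h1', h2', h3'⟩ := hy
    exact ⟨g * g', mul_mem hg hg', by simp [*], by simp [*], by simp [*]⟩
  | inv x _ hx =>
    obtain ⟨g, hg, h1, h2, h3⟩ := hx
    exact ⟨g⁻¹, inv_mem hg, by simp [*], by simp [*], by simp [*]⟩

lemma exists_graft (x : Bool) (k : K) :
    ∃ g : K, rt g = false ∧ ∀ y, sec g y = if y = x then (k : Γ) else 1 := by
  obtain ⟨g, hg, h1, h2, h3⟩ := exists_graft0 k.2
  cases x
  · refine ⟨⟨g, hg⟩, h1, ?_⟩
    intro y; cases y <;> simp [h2, h3]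
  · refine ⟨⟨a * g * a⁻¹, Subgroup.Normal.conj_mem inferInstance _ hg a⟩, by simp [h1], ?_⟩
    intro y; cases y <;> simp [h1, h2, h3]

noncomputable def grf (x : Bool) (k : K) : K := (exists_graft x k).choose

@[simp] lemma rt_grf (x : Bool) (k : K) : rt (grf x k) = false :=
  (exists_graft x k).choose_spec.1

@[simp] lemma sec_grf (x : Bool) (k : K) (y : Bool) :
    sec (grf x k) y = if y = x then (k : Γ) else 1 :=
  (exists_graft x k).choose_spec.2 y

noncomputable def gr (x : Bool) : K →* K :=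
  MonoidHom.mk' (grf x) (by
    intro k k'
    apply Subtype.ext
    apply ext_sec
    · simp
    · cases x <;> simp
    · cases x <;> simp)

@[simp] lemma rt_gr (x : Bool) (k : K) : rt (gr x k) = false := rt_grf x k

@[simp] lemma sec_gr (x : Bool) (k : K) (y : Bool) :
    sec (gr x k) y = if y = x then (k : Γ) else 1 := sec_grf x k y

/-- the generator of `K` -/
def tK : K := ⟨a * b * a * b, t_mem_K⟩

@[simp] lemma rt_tK : rt (tK : Γ) = false := by simp [tK]
@[simp] lemma sec_tK0 : sec (tK : Γ) false = c * a := by simp [tK]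
@[simp] lemma sec_tK1 : sec (tK : Γ) true = a * c := by simp [tK]

@[simp] lemma rt_tK_pow (i : ℕ) : rt ((tK : Γ) ^ i) = false := by
  induction i with
  | zero => simp
  | succ i ih => rw [pow_succ, rt_mul, ih]; simp

@[simp] lemma sec_tK_pow0 (i : ℕ) : sec ((tK : Γ) ^ i) false = (c * a) ^ i := by
  induction i with
  | zero => simp
  | succ i ih => rw [pow_succ, sec_mul, pow_succ]; simp [ih]

@[simp] lemma sec_tK_pow1 (i : ℕ) : sec ((tK : Γ) ^ i) true = (a * c) ^ i := by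
  induction i with
  | zero => simp
  | succ i ih => rw [pow_succ, sec_mul, pow_succ]; simp [ih]

end Pool.Agent.MP_1b52a1_al.H21
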