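import Pool.Agent.MP_1b52a1_al.H21.Bounds
import Pool.Agent.MP_1b52a1_al.H21.Growth

namespace Pool.Agent.MP_1b52a1_al.H21

open scoped ENNReal
open Classical

lemma SS_finite {A B : Subgroup Γ} (hA : (A : Set Γ).Finite) (hB : (B : Set Γ).Finite) :
    (SS A B).Finite := (hA.union hB).subset Set.sdiff_subset

lemma dn_false_iff (h : Γ) : dn h = false ↔ lam (h * d) = lam h + 1 := by
  have := lam_mul_d h
  simp only [dn, decide_eq_false_iff_not]; omega

lemma dn_true_iff (h : Γ) : dn h = true ↔ lam (h * d) + 1 = lam h := by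
  have := lam_mul_d h
  simp only [dn, decide_eq_true_eq]; omega

noncomputable def uu (n : ℕ) : ℕ := {h : Γ | dn h = false ∧ lam h = n}.ncard

lemma lam_fiber_finite (n : ℕ) : {h : Γ | lam h = n}.Finite :=
  (finite_ball (SS_finite T_finite DD_finite) (closure_SS TD_gen) (2 * n + 1)).subset
    (fun _ hh => wl_le_of_AA TD_gen (lam_le_iff.1 (le_of_eq hh)))

lemma uu_finite (n : ℕ) : {h : Γ | dn h = false ∧ lam h = n}.Finite :=
  (lam_fiber_finite n).subset (fun _ hh => hh.2)

lemma uu_succ (m : ℕ) : uu (m + 1) = sph (SS T DD) (2 * m + 3) := by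
  have hP : ∀ h, h ∈ alt T DD (2 * m + 2) true → lam h ≤ m + 1 := fun h hh =>
    lam_le_iff.2 (alt_subset_succ _ _ _ hh)
  have hF : ∀ h, h ∈ alt T DD (2 * m + 2) false ↔ lam h ≤ m ∨ lam (h * d) ≤ m := by
    intro h
    rw [alt_even_false]
    constructor
    · rintro ⟨h', hh', w, rfl | rfl, rfl⟩
      · left; simpa using lam_le_iff.2 hh'
      · right; simpa [mul_assoc] using lam_le_iff.2 hh'
    · rintro (h1 | h1)
      · exact ⟨h, lam_le_iff.1 h1, 1, one_mem _, mul_one _⟩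
      · exact ⟨h * d, lam_le_iff.1 h1, d, d_mem_DD, by simp [mul_assoc]⟩
  have hF' : ∀ h, h ∈ alt T DD (2 * m + 3) false ↔
      h ∈ alt T DD (2 * m + 2) true ∨ h * d ∈ alt T DD (2 * m + 2) true := by
    intro h
    rw [mem_alt_succ]
    constructor
    · rintro ⟨h', hh', w, rfl | rfl, rfl⟩
      · left; simpa using hh'
      · right; simpa [mul_assoc] using hh'
    · rintro (h1 | h1)
      · exact ⟨h, h1, 1, one_mem _, mul_one _⟩
      · exact ⟨h * d, h1, d, d_mem_DD, by simp [mul_assoc]⟩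
  have hT : ∀ h, h ∈ alt T DD (2 * m + 3) true ↔ lam h ≤ m + 1 := fun h =>
    (lam_le_iff (k := m + 1)).symm
  have hS : ∀ g, wordLength (SS T DD) g = 2 * m + 3 ↔
      (lam g ≤ m + 1 ∨ g ∈ alt T DD (2 * m + 2) true ∨ g * d ∈ alt T DD (2 * m + 2) true) ∧
      g ∉ alt T DD (2 * m + 2) true ∧ ¬ (lam g ≤ m ∨ lam (g * d) ≤ m) := by
    intro g
    rw [← hF, ← hF', ← hT, ← not_or, ← wl_le_iff TD_gen, ← wl_le_iff TD_gen]
    omega
  unfold uu sph
  refine Set.ncard_congr (fun h _ => if h ∈ alt T DD (2 * m + 2) true then h * d else h) ?_ ?_ ?_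
  · rintro h ⟨h1, h2⟩
    rw [dn_false_iff] at h1
    rw [Set.mem_ofPred_eq, hS]
    split_ifs with hh
    · refine ⟨Or.inr (Or.inr (by simpa [mul_assoc] using hh)), fun hc => ?_, ?_⟩
      · have := hP _ hc; omega
      · rw [mul_assoc, d_d, mul_one]; omega
    · exact ⟨Or.inl (by omega), hh, by omega⟩
  · rintro h h' ⟨h1, h2⟩ ⟨h1', h2'⟩ H
    rw [dn_false_iff] at h1 h1'
    split_ifs at H with hh hh' hh'
    · exact mul_right_cancel H
    · rw [H] at h1; omega
    · rw [← H] at h1'; omega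
    · exact H
  · intro g hg
    rw [Set.mem_ofPred_eq, hS] at hg
    obtain ⟨h1, h2, h3⟩ := hg
    have h4 := lam_mul_d g
    by_cases h5 : lam g ≤ m + 1
    · exact ⟨g, ⟨by rw [dn_false_iff]; omega, by omega⟩, if_neg h2⟩
    · have h6 : g * d ∈ alt T DD (2 * m + 2) true := by tauto
      have h7 := hP _ h6
      refine ⟨g * d, ⟨?_, by omega⟩, ?_⟩
      · rw [dn_false_iff, mul_assoc, d_d, mul_one]; omega
      · rw [if_pos h6, mul_assoc, d_d, mul_one]

lemma uu_pos (n : ℕ) : 0 < uu n := by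
  rcases n with _ | m
  · refine (Set.ncard_pos (uu_finite 0)).2 ⟨1, ?_, lam_eq_zero.2 (one_mem _)⟩
    rw [dn_false_iff, one_mul, lam_d, lam_eq_zero.2 (one_mem _)]
  · rw [uu_succ]
    exact sph_pos (SS_finite T_finite DD_finite) (closure_SS TD_gen) _

lemma par_K {k : Γ} (hk : k ∈ K) : par k = false := by
  unfold K Subgroup.normalClosure at hk
  induction hk using Subgroup.closure_induction with
  | one => simp
  | mem x hx =>
    obtain ⟨y, hy, hxy⟩ := Group.mem_conjugatesOfSet_iff.1 hx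
    rw [Set.mem_singleton_iff] at hy
    subst hy
    obtain ⟨s, rfl⟩ := isConj_iff.1 hxy
    simp
  | mul x y _ _ hx hy => simp [hx, hy]
  | inv x _ hx => simp [hx]

lemma coset_le (F F' : Γ → ℝ≥0∞) (hF : ∀ τ ∈ T, ∀ g, F (τ * g) = F g)
    (hF' : ∀ τ ∈ T, ∀ g, F' (τ * g) = F' g) (C : ℝ≥0∞) (g : Γ)
    (h : ∑' x, (if par x = par g then F x else 0) ≤
      C * ∑' x, (if par x = par g then F' x else 0)) :
    ∑' k : K, F (g * k) ≤ C * ∑' k : K, F' (g * k) := by
  let I : ℝ≥0∞ := ∑' q : Γ ⧸ K.subtype.range, if par q.out = par g then 1 else 0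
  have key : ∀ F : Γ → ℝ≥0∞, (∀ τ ∈ T, ∀ g, F (τ * g) = F g) →
      ∑' x, (if par x = par g then F x else 0) = I * ∑' k : K, F (g * k) := by
    intro F hF
    rw [tsum_fiber K.subtype K.subtype_injective, ← ENNReal.tsum_mul_right]
    congr 1
    ext q
    simp only [Subgroup.coe_subtype, par_mul, par_K (SetLike.coe_mem _), Bool.xor_false]
    split_ifs with hq
    · obtain ⟨τ, hτ, k0, hk0, e⟩ := same_par hq
      rw [one_mul, e, ← (Equiv.mulLeft (⟨k0, hk0⟩ : K)).tsum_eq (fun k : K => F (g * k))]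
      congr 1
      ext k
      simp [mul_assoc, hF τ hτ]
    · simp
  have hI0 : I ≠ 0 := by
    intro h0
    have := ENNReal.tsum_eq_zero.1 h0 (g : Γ ⧸ K.subtype.range)
    obtain ⟨⟨_, k, rfl⟩, hk⟩ := QuotientGroup.mk_out_eq_mul K.subtype.range g
    rw [hk] at this
    simp [par_K k.2] at this
  have hIt : I ≠ ⊤ := by
    have hfin : {q : Γ ⧸ K.subtype.range | par q.out = par g}.Finite := by
      refine (T_finite.image (fun τ => ((τ * g : Γ) : Γ ⧸ K.subtype.range))).subset ?_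
      intro q hq
      obtain ⟨τ, hτ, k0, hk0, e⟩ := same_par hq
      refine ⟨τ, hτ, ?_⟩
      rw [← QuotientGroup.out_eq' q, e]
      exact (QuotientGroup.mk_mul_of_mem _ (show k0 ∈ K.subtype.range from ⟨⟨k0, hk0⟩, rfl⟩)).symm
    simp only [I]
    rw [tsum_eq_sum (s := hfin.toFinset)]
    · exact ENNReal.sum_ne_top.2 (fun q _ => by split_ifs <;> simp)
    · intro q hq
      exact if_neg (by simpa using hq)
  rw [key F hF, key F' hF', mul_left_comm] at h
  exact (ENNReal.mul_le_mul_iff_right hI0 hIt).1 h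

noncomputable def FX (θ : ℝ) (s : Bool) (i : ZMod 15) (g : Γ) : ℝ≥0∞ :=
  if dn g = s ∧ (lam g : ZMod 15) = i then EE θ ^ lam g else 0

lemma dn_T_mul {τ : Γ} (hτ : τ ∈ T) (g : Γ) : dn (τ * g) = dn g := by
  simp only [dn, mul_assoc, lam_T_mul _ hτ]

lemma FX_T (θ : ℝ) (s : Bool) (i : ZMod 15) : ∀ τ ∈ T, ∀ g, FX θ s i (τ * g) = FX θ s i g := by
  intro τ hτ g
  simp only [FX, dn_T_mul hτ, lam_T_mul _ hτ]

lemma FX_up (θ : ℝ) (π : Bool) (i : ZMod 15) : ∃ j : ZMod 30,
    ∑' x, (if par x = π then FX θ false i x else 0) = resSum uu 30 θ j := by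
  obtain ⟨j, hj⟩ : ∃ j : ZMod 30, ∀ n : ℕ,
      ((n % 2 = 1 ↔ π = true) ∧ (n : ZMod 15) = i) ↔ (n : ZMod 30) = j := by
    have hi := ZMod.val_lt i
    by_cases h : i.val % 2 = 1 ↔ π = true
    · refine ⟨(i.val : ℕ), fun n => ?_⟩
      conv_lhs => rw [← ZMod.natCast_zmod_val i]
      rw [ZMod.natCast_eq_natCast_iff', ZMod.natCast_eq_natCast_iff']
      revert h; cases π <;> simp <;> omega
    · refine ⟨(i.val + 15 : ℕ), fun n => ?_⟩
      conv_lhs => rw [← ZMod.natCast_zmod_val i]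
      rw [ZMod.natCast_eq_natCast_iff', ZMod.natCast_eq_natCast_iff']
      revert h; cases π <;> simp <;> omega
  refine ⟨j, ?_⟩
  have h1 := tsum_count lam (fun h => dn h = false)
    (fun n => if (n : ZMod 30) = j then EE θ ^ n else 0) uu_finite
  have h2 : ∀ x, (if par x = π then FX θ false i x else 0) =
      if dn x = false then (if (lam x : ZMod 30) = j then EE θ ^ lam x else 0) else 0 := by
    intro x
    have h3 := hj (lam x)
    rw [← lam_par] at h3
    have h4 : (par x = true ↔ π = true) ↔ par x = π := by cases par x <;> cases π <;> simp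
    rw [h4] at h3
    simp only [FX, ← h3]
    by_cases e1 : par x = π <;> by_cases e2 : dn x = false <;>
      by_cases e3 : (lam x : ZMod 15) = i <;> simp [e1, e2, e3]
  rw [tsum_congr h2]
  refine Eq.trans ?_ (h1.trans ?_)
  · exact tsum_congr (fun x => by split_ifs <;> rfl)
  · simp only [resSum, uu]
    congr 1
    ext n
    split_ifs <;> simp

lemma FX_down (θ : ℝ) (π : Bool) (i : ZMod 15) :
    ∑' x, (if par x = π then FX θ true i x else 0) =
      EE θ * ∑' x, (if par x = !π then FX θ false (i - 1) x else 0) := by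
  rw [← (Equiv.mulRight d).tsum_eq, ← ENNReal.tsum_mul_left]
  congr 1
  ext x
  simp only [Equiv.coe_mulRight, par_mul, par_d, FX]
  have h1 : dn (x * d) = true ↔ dn x = false := by
    rw [dn_true_iff, dn_false_iff, mul_assoc, d_d, mul_one, eq_comm]
  have h2 : (xor (par x) true = π) ↔ par x = !π := by cases par x <;> cases π <;> simp
  simp only [h1, h2]
  by_cases e2 : dn x = false
  · have e3 := (dn_false_iff x).1 e2
    rw [e3]
    push_cast
    simp only [eq_sub_iff_add_eq]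
    split_ifs <;> simp [pow_succ']
  · simp [e2]

lemma EE_neg_mul (θ : ℝ) : EE (-θ) * EE θ = 1 := by
  rw [EE, EE, ← ENNReal.ofReal_mul (Real.exp_pos _).le, ← Real.exp_add]; simp

lemma FX_global {θ : ℝ} (hθ : 0 < θ) {κ : ℝ≥0∞}
    (hκ : ∀ i j : ZMod 30, resSum uu 30 θ i ≤ κ * resSum uu 30 θ j)
    (π s s' : Bool) (i i' : ZMod 15) :
    ∑' x, (if par x = π then FX θ s i x else 0) ≤
      (κ * EE (-θ)) * ∑' x, (if par x = π then FX θ s' i' x else 0) := by
  have key : ∀ (s : Bool) (i : ZMod 15), ∃ j : ZMod 30,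
      ∑' x, (if par x = π then FX θ s i x else 0) ≤ resSum uu 30 θ j ∧
      EE θ * resSum uu 30 θ j ≤ ∑' x, (if par x = π then FX θ s i x else 0) := by
    intro s i
    cases s
    · obtain ⟨j, hj⟩ := FX_up θ π i
      exact ⟨j, hj.le, by rw [hj]; exact mul_le_of_le_one_left' (EE_le_one hθ.le)⟩
    · obtain ⟨j, hj⟩ := FX_up θ (!π) (i - 1)
      refine ⟨j, ?_, by rw [FX_down, hj]⟩
      rw [FX_down, hj]; exact mul_le_of_le_one_left' (EE_le_one hθ.le)
  obtain ⟨j, h1, -⟩ := key s i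
  obtain ⟨j', -, h2⟩ := key s' i'
  calc _ ≤ resSum uu 30 θ j := h1
    _ ≤ κ * resSum uu 30 θ j' := hκ j j'
    _ = (κ * EE (-θ)) * (EE θ * resSum uu 30 θ j') := by
        rw [mul_assoc, ← mul_assoc (EE (-θ)), EE_neg_mul, one_mul]
    _ ≤ _ := by gcongr

noncomputable def gr4 (u : U) : K →* Γ :=
  K.subtype.comp ((gr u.1).comp ((gr u.2.1).comp ((gr u.2.2.1).comp (gr u.2.2.2))))

lemma p4_gr4 (u : U) (k : K) (v : U) : p4 (gr4 u k) v = v :=
  p4_gr3 _ _ _ _ (rt_gr _ _) v

lemma s4_gr4 (u : U) (k : K) (v : U) : s4 (gr4 u k) v = if v = u then (k : Γ) else 1 := by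
  have := s4_gr3 u.1 u.2.1 u.2.2.1 (gr u.2.2.2 k) v
  refine this.trans ?_
  rcases u with ⟨p, q, r, s⟩
  rcases v with ⟨p', q', r', s'⟩
  by_cases h1 : p' = p <;> by_cases h2 : q' = q <;> by_cases h3 : r' = r <;>
    by_cases h4 : s' = s <;> simp [h1, h2, h3, h4]

lemma gr4_injective (u : U) : Function.Injective (gr4 u) := by
  intro k k' h
  have := congrArg (fun g => s4 g u) h
  simpa [s4_gr4] using this

lemma s4_mul_gr4 (g : Γ) (u : U) (k : K) (v : U) :
    s4 (g * gr4 u k) v = if v = u then s4 g u * k else s4 g v := by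
  rw [s4_mul, p4_gr4, s4_gr4]
  split_ifs with h
  · rw [h]
  · rw [mul_one]

lemma sig4_sum (g : Γ) : sig 4 g = ∑ u, lam (s4 g u) := by
  simp [s4, sig, Fintype.sum_prod_type]; ring

lemma sig4_gr4 (g : Γ) (u : U) (k : K) :
    sig 4 (g * gr4 u k) = ∑ v ∈ Finset.univ.erase u, lam (s4 g v) + lam (s4 g u * k) := by
  rw [sig4_sum, ← Finset.sum_erase_add _ _ (Finset.mem_univ u), s4_mul_gr4, if_pos rfl]
  congr 1
  refine Finset.sum_congr rfl (fun v hv => ?_)
  rw [s4_mul_gr4, if_neg (Finset.mem_erase.1 hv).1]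

def coef (u : U) : ZMod 15 := if u.1 then 1 else -4

lemma coef_sq (u : U) : coef u * coef u = 1 := by
  unfold coef; split_ifs <;> decide

noncomputable def cls (g : Γ) : ZMod 15 := ∑ u, coef u * (lam (s4 g u) : ZMod 15)

lemma cls_eq (g : Γ) : cls g = ((RR (nn g) - 4 * LL (nn g) : ℤ) : ZMod 15) := by
  simp [cls, RR, LL, nn, coef, Fintype.sum_prod_type]; ring

lemma cls_gr4 (g : Γ) (u : U) (k : K) :
    cls (g * gr4 u k) = ∑ v ∈ Finset.univ.erase u, coef v * (lam (s4 g v) : ZMod 15) +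
      coef u * (lam (s4 g u * k) : ZMod 15) := by
  rw [cls, ← Finset.sum_erase_add _ _ (Finset.mem_univ u), s4_mul_gr4, if_pos rfl]
  congr 1
  refine Finset.sum_congr rfl (fun v hv => ?_)
  rw [s4_mul_gr4, if_neg (Finset.mem_erase.1 hv).1]

def uJ : Fin 5 → U := ![(false, false, false, true), (false, false, true, false),
  (false, true, false, false), (false, true, true, true), (true, true, true, true)]

lemma uJ_injective : Function.Injective uJ := by decide

noncomputable def phi (g : Γ) : (Fin 5 → Bool) × ZMod 15 := (fun j => dn (s4 g (uJ j)), cls g)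

noncomputable def mass (θ : ℝ) (z : (Fin 5 → Bool) × ZMod 15) : ℝ≥0∞ :=
  ∑' g, if phi g = z then EE θ ^ sig 4 g else 0

lemma mass_step {θ : ℝ} {κ : ℝ≥0∞}
    (hκ : ∀ (π s s' : Bool) (i i' : ZMod 15), ∑' x, (if par x = π then FX θ s i x else 0) ≤
      κ * ∑' x, (if par x = π then FX θ s' i' x else 0))
    (i0 : Fin 5) (e e' : Fin 5 → Bool) (he : ∀ j, j ≠ i0 → e j = e' j) (x x' : ZMod 15) :
    mass θ (e, x) ≤ κ * mass θ (e', x') := by
  refine fiber_le (gr4 (uJ i0)) (gr4_injective _) _ _ _ (fun g => ?_)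
  let u := uJ i0
  let r : ℕ := ∑ v ∈ Finset.univ.erase u, lam (s4 g v)
  let cr : ZMod 15 := ∑ v ∈ Finset.univ.erase u, coef v * (lam (s4 g v) : ZMod 15)
  have key : ∀ (e : Fin 5 → Bool) (x : ZMod 15) (k : K),
      (if phi (g * gr4 u k) = (e, x) then EE θ ^ sig 4 (g * gr4 u k) else 0) =
      (if ∀ j, j ≠ i0 → dn (s4 g (uJ j)) = e j then EE θ ^ r else 0) *
        FX θ (e i0) (coef u * (x - cr)) (s4 g u * k) := by
    intro e x k
    have h1 : phi (g * gr4 u k) = (e, x) ↔ (∀ j, j ≠ i0 → dn (s4 g (uJ j)) = e j) ∧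
        (dn (s4 g u * k) = e i0 ∧ (lam (s4 g u * k) : ZMod 15) = coef u * (x - cr)) := by
      rw [phi, Prod.mk.injEq, cls_gr4, funext_iff, ← and_assoc]
      refine and_congr ?_ ?_
      · simp only [s4_mul_gr4, u, uJ_injective.eq_iff]
        constructor
        · intro h
          exact ⟨fun j hj => by simpa [hj] using h j, by simpa using h i0⟩
        · rintro ⟨h, h'⟩ j
          by_cases hj : j = i0
          · simpa [hj] using h'
          · simpa [hj] using h j hj
      · constructor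
        · rintro rfl
          simp only [cr, add_sub_cancel_left, ← mul_assoc, coef_sq, one_mul]
        · intro h
          rw [h, ← mul_assoc, coef_sq, one_mul]
          simp only [cr, add_sub_cancel]
    rw [sig4_gr4, pow_add]
    simp only [h1, FX]
    split_ifs <;> simp_all [r]
  have he' : (∀ j, j ≠ i0 → dn (s4 g (uJ j)) = e j) ↔ (∀ j, j ≠ i0 → dn (s4 g (uJ j)) = e' j) :=
    forall_congr' (fun j => imp_congr_right (fun hj => by rw [he j hj]))
  simp only [u] at key
  simp only [key, ENNReal.tsum_mul_left, he']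
  rw [mul_left_comm]
  gcongr
  exact coset_le _ _ (FX_T _ _ _) (FX_T _ _ _) _ _ (hκ _ _ _ _ _)

lemma mass_all {θ : ℝ} {κ : ℝ≥0∞}
    (hκ : ∀ (π s s' : Bool) (i i' : ZMod 15), ∑' x, (if par x = π then FX θ s i x else 0) ≤
      κ * ∑' x, (if par x = π then FX θ s' i' x else 0)) (z z' : (Fin 5 → Bool) × ZMod 15) :
    mass θ z ≤ κ ^ 6 * mass θ z' := by
  obtain ⟨e, x⟩ := z
  obtain ⟨e', x'⟩ := z'
  have key : ∀ m ≤ 5, mass θ (e, x) ≤ κ ^ m * mass θ (fun j => if j.val < m then e' j else e j, x) := by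
    intro m
    induction m with
    | zero => intro _; simp
    | succ m ih =>
      intro hm
      refine (ih (by omega)).trans ?_
      rw [pow_succ, mul_assoc]
      gcongr
      refine mass_step hκ ⟨m, by omega⟩ _ _ (fun j hj => ?_) x x
      have : j.val ≠ m := fun h => hj (Fin.ext h)
      by_cases h : j.val < m
      · rw [if_pos h, if_pos (by omega)]
      · rw [if_neg h, if_neg (by omega)]
  have h5 := key 5 le_rfl
  simp only [Fin.is_lt, if_true] at h5
  refine h5.trans ?_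
  rw [show κ ^ 6 = κ ^ 5 * κ from pow_succ _ _, mul_assoc]
  gcongr
  exact mass_step hκ 0 _ _ (fun _ _ => rfl) x x'

lemma tsum_phi_mem (θ : ℝ) (B : Finset ((Fin 5 → Bool) × ZMod 15)) :
    ∑' g, (if phi g ∈ B then EE θ ^ sig 4 g else 0) = ∑ z ∈ B, mass θ z := by
  simp only [mass]
  rw [← Summable.tsum_finsetSum (fun _ _ => ENNReal.summable)]
  congr 1
  ext g
  rw [Finset.sum_ite_eq]

lemma mass_bound {θ : ℝ} {κ : ℝ≥0∞} (h : ∀ z z', mass θ z ≤ κ * mass θ z')
    (B : Finset ((Fin 5 → Bool) × ZMod 15)) :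
    480 * ∑' g, (if phi g ∈ B then EE θ ^ sig 4 g else 0) ≤
      B.card * (κ * ∑' g, EE θ ^ sig 4 g) := by
  have h1 := tsum_phi_mem θ Finset.univ
  simp only [Finset.mem_univ, if_true] at h1
  rw [tsum_phi_mem, h1, Finset.mul_sum, ← nsmul_eq_mul]
  refine Finset.sum_le_card_nsmul _ _ _ (fun z _ => ?_)
  rw [Finset.mul_sum]
  have h2 := Finset.card_nsmul_le_sum Finset.univ (fun z' => κ * mass θ z') (mass θ z)
    (fun z' _ => h z z')
  simpa [ZMod.card] using h2

lemma par_half {θ : ℝ} (hθ : 0 < θ) (π : Bool) :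
    ∑' g, EE θ ^ lam g ≤ (1 + EE (-θ)) * ∑' g, (if par g = π then EE θ ^ lam g else 0) := by
  have h1 : ∀ g, EE θ ^ lam g = (if par g = π then EE θ ^ lam g else 0) +
      (if par g = π then 0 else EE θ ^ lam g) := by
    intro g; split_ifs <;> simp
  rw [tsum_congr h1, ENNReal.tsum_add, add_mul, one_mul, ← ENNReal.tsum_mul_left,
    ← (Equiv.mulRight d).tsum_eq (fun g => if par g = π then 0 else EE θ ^ lam g)]
  gcongr with g
  simp only [Equiv.coe_mulRight, par_mul, par_d]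
  by_cases h : par g = π
  · rw [if_pos h, if_neg (by rw [← h]; cases par g <;> simp)]
    have := lam_mul_d g
    calc EE θ ^ lam (g * d) = EE (-θ) * EE θ ^ (lam (g * d) + 1) := by
          rw [pow_succ', ← mul_assoc, EE_neg_mul, one_mul]
      _ ≤ _ := mul_le_mul_right (EE_pow_anti hθ.le (by omega)) _
  · rw [if_pos (by revert h; cases par g <;> cases π <;> simp)]
    exact zero_le

lemma bad_bound {θ : ℝ} (hθ : 0 < θ) (p : ℕ → Prop) {C : ℝ≥0∞}
    (h : ∑' g, (if p (lam g) then EE θ ^ lam g else 0) ≤ C * ∑' g, EE θ ^ lam g) (u : U) :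
    ∑' g, (if p (lam (s4 g u)) then EE θ ^ sig 4 g else 0) ≤
      (C * (1 + EE (-θ))) * ∑' g, EE θ ^ sig 4 g := by
  refine fiber_le (gr4 u) (gr4_injective _) _ _ _ (fun g => ?_)
  simp only [sig4_gr4, s4_mul_gr4, if_true, pow_add]
  have e : ∀ (x y : ℝ≥0∞) (q : Prop), (if q then x * y else 0) = x * (if q then y else 0) := by
    intro x y q; split_ifs <;> simp
  simp only [e, ENNReal.tsum_mul_left]
  rw [mul_left_comm]
  gcongr
  refine coset_le (fun g => if p (lam g) then EE θ ^ lam g else 0) (fun g => EE θ ^ lam g)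
    (fun τ hτ g => by simp only [lam_T_mul _ hτ]) (fun τ hτ g => by simp only [lam_T_mul _ hτ])
    _ _ ?_
  calc _ ≤ ∑' g, (if p (lam g) then EE θ ^ lam g else 0) :=
        ENNReal.tsum_le_tsum (fun x => by split_ifs <;> simp)
    _ ≤ C * ∑' g, EE θ ^ lam g := h
    _ ≤ _ := by rw [mul_assoc]; gcongr; exact par_half hθ _

end Pool.Agent.MP_1b52a1_al.H21
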