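import Pool.Agent.MP_1b52a1_al.H21.Lam
import Pool.Agent.MP_1b52a1_al.H21.Cert

namespace Pool.Agent.MP_1b52a1_al.H21

noncomputable def s4 (g : Γ) (u : U) : Γ :=
  sec (sec (sec (sec g u.1) u.2.1) u.2.2.1) u.2.2.2

noncomputable def p4 (g : Γ) (u : U) : U :=
  (xor (rt g) u.1, xor (rt (sec g u.1)) u.2.1, xor (rt (sec (sec g u.1) u.2.1)) u.2.2.1,
    xor (rt (sec (sec (sec g u.1) u.2.1) u.2.2.1)) u.2.2.2)

lemma s4_mul (g h : Γ) (u : U) : s4 (g * h) u = s4 g (p4 h u) * s4 h u := by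
  simp [s4, p4]

lemma p4_mul (g h : Γ) (u : U) : p4 (g * h) u = p4 g (p4 h u) := by
  simp [p4]

lemma s4_one (u : U) : s4 1 u = 1 := by simp [s4]
lemma p4_one (u : U) : p4 1 u = u := by simp [p4]

lemma s4_inv (g : Γ) (u : U) : s4 g⁻¹ u = (s4 g (p4 g⁻¹ u))⁻¹ := by
  have := s4_mul g g⁻¹ u
  rw [mul_inv_cancel, s4_one] at this
  exact eq_inv_of_mul_eq_one_right this.symm

def InV : ℕ → Γ → Prop
  | 0, g => g ∈ T
  | r + 1, g => ∀ x, InV r (sec g x)

lemma InV_one (r : ℕ) : InV r 1 := by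
  induction r with
  | zero => exact one_mem T
  | succ r ih => intro x; simpa using ih

lemma InV_mul (r : ℕ) : ∀ g h, InV r g → InV r h → InV r (g * h) := by
  induction r with
  | zero => intro g h hg hh; exact mul_mem hg hh
  | succ r ih => intro g h hg hh x; rw [sec_mul]; exact ih _ _ (hg _) (hh _)

lemma InV_inv (r : ℕ) : ∀ g, InV r g → InV r g⁻¹ := by
  induction r with
  | zero => intro g hg; exact inv_mem hg
  | succ r ih => intro g hg x; rw [sec_inv]; exact ih _ (hg _)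

lemma InV_finite (r : ℕ) : {g | InV r g}.Finite := by
  induction r with
  | zero => exact T_finite
  | succ r ih => exact finite_of_sec ih

def V : Subgroup Γ where
  carrier := {g | InV 4 g}
  one_mem' := InV_one 4
  mul_mem' := fun hg hh => InV_mul 4 _ _ hg hh
  inv_mem' := fun hg => InV_inv 4 _ hg

lemma V_finite : (V : Set Γ).Finite := InV_finite 4

lemma mem_V_iff {g : Γ} : g ∈ V ↔ ∀ u, s4 g u ∈ T := by
  constructor
  · intro h u; exact h u.1 u.2.1 u.2.2.1 u.2.2.2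
  · intro h p q r s; exact h (p, q, r, s)

noncomputable def sig : ℕ → Γ → ℕ
  | 0, g => lam g
  | r + 1, g => sig r (sec g false) + sig r (sec g true)

lemma sig_mul_InV (r : ℕ) : ∀ g v, InV r v → sig r (g * v) = sig r g := by
  induction r with
  | zero => intro g v hv; exact lam_mul_T g hv
  | succ r ih =>
    intro g v hv
    simp only [sig, sec_mul, ih _ _ (hv _)]
    cases rt v <;> simp [add_comm]

lemma sig_inv (r : ℕ) : ∀ g, sig r g⁻¹ = sig r g := by
  induction r with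
  | zero => intro g; exact lam_inv g
  | succ r ih =>
    intro g
    simp only [sig, sec_inv, ih]
    cases rt g <;> simp [add_comm]

noncomputable def nn (g : Γ) (u : U) : ℤ := lam (s4 g u)

def LL (n : U → ℤ) : ℤ := ∑ v : Bool × Bool × Bool, n (false, v)
def RR (n : U → ℤ) : ℤ := ∑ v : Bool × Bool × Bool, n (true, v)

lemma LL_nn (g : Γ) : LL (nn g) = sig 3 (sec g false) := by
  simp [LL, nn, s4, sig, Fintype.sum_prod_type]; ring

lemma RR_nn (g : Γ) : RR (nn g) = sig 3 (sec g true) := by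
  simp [RR, nn, s4, sig, Fintype.sum_prod_type]; ring

lemma sig4_eq (g : Γ) : (sig 4 g : ℤ) = LL (nn g) + RR (nn g) := by
  rw [LL_nn, RR_nn]; simp [sig]

noncomputable def xx : Γ := (gr false (gr false tK) : K)
noncomputable def y4 : Γ := xx * b * xx⁻¹
noncomputable def y5 : Γ := xx * c * xx⁻¹

lemma xx_d : xx * d * xx⁻¹ = d := by
  apply ext_sec <;> simp [xx]

lemma y4_y4 : y4 * y4 = 1 := by simp [y4, mul_assoc]
lemma y5_y5 : y5 * y5 = 1 := by simp [y5, mul_assoc]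

def W : Subgroup Γ where
  carrier := {g | xx⁻¹ * g * xx = 1 ∨ xx⁻¹ * g * xx = b ∨ xx⁻¹ * g * xx = c ∨ xx⁻¹ * g * xx = d}
  one_mem' := by simp
  mul_mem' := by
    intro g h hg hh
    have : xx⁻¹ * (g * h) * xx = (xx⁻¹ * g * xx) * (xx⁻¹ * h * xx) := by group
    simp only [Set.mem_ofPred_eq, this] at hg hh ⊢
    rcases hg with hg | hg | hg | hg <;> rcases hh with hh | hh | hh | hh <;> simp [hg, hh]
  inv_mem' := by
    intro g hg
    have : xx⁻¹ * g⁻¹ * xx = (xx⁻¹ * g * xx)⁻¹ := by group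
    simp only [Set.mem_ofPred_eq, this] at hg ⊢
    rcases hg with hg | hg | hg | hg <;> simp [hg]

lemma mem_W_iff {g : Γ} : g ∈ W ↔ g = 1 ∨ g = y4 ∨ g = y5 ∨ g = d := by
  have key : ∀ z : Γ, xx⁻¹ * g * xx = z ↔ g = xx * z * xx⁻¹ := by
    intro z
    constructor
    · rintro rfl; group
    · rintro rfl; group
  show (_ ∨ _ ∨ _ ∨ _) ↔ _
  rw [key, key, key, key, xx_d, mul_one, mul_inv_cancel]
  rfl

lemma y4_mem_W : y4 ∈ W := mem_W_iff.2 (by simp)
lemma y5_mem_W : y5 ∈ W := mem_W_iff.2 (by simp)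
lemma d_mem_W : d ∈ W := mem_W_iff.2 (by simp)

lemma W_finite : (W : Set Γ).Finite :=
  (Set.toFinite ({1, y4, y5, d} : Set Γ)).subset (fun _ hg => mem_W_iff.1 hg)

lemma p4_a (u : U) : p4 a u = pa u := by simp [p4, pa]
lemma p4_b (u : U) : p4 b u = pb u := by
  rcases u with ⟨_ | _, _ | _, _ | _, _ | _⟩ <;> simp [p4, pb]
lemma p4_c (u : U) : p4 c u = pc u := by
  rcases u with ⟨_ | _, _ | _, _ | _, _ | _⟩ <;> simp [p4, pc]
lemma p4_y5 (u : U) : p4 y5 u = py u := by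
  rcases u with ⟨_ | _, _ | _, _ | _, _ | _⟩ <;> simp [p4, py, y5, xx]
lemma p4_y4 (u : U) : p4 y4 u = pz u := by
  rcases u with ⟨_ | _, _ | _, _ | _, _ | _⟩ <;> simp [p4, pz, y4, xx]

lemma a_mem_V : a ∈ V := mem_V_iff.2 (by intro u; simp [s4])
lemma b_mem_V : b ∈ V := mem_V_iff.2 (by
  intro u; rcases u with ⟨_ | _, _ | _, _ | _, _ | _⟩ <;> simp [s4])

lemma s4_y5 (u : U) : if jy u then s4 y5 u = d else s4 y5 u ∈ T := by
  rcases u with ⟨_ | _, _ | _, _ | _, _ | _⟩ <;> simp [s4, jy, y5, xx]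
lemma s4_y4 (u : U) : if jz u then s4 y4 u = d else s4 y4 u ∈ T := by
  rcases u with ⟨_ | _, _ | _, _ | _, _ | _⟩ <;> simp [s4, jz, y4, xx]
lemma s4_c (u : U) : if u = (true, true, true, true) then s4 c u = d else s4 c u ∈ T := by
  rcases u with ⟨_ | _, _ | _, _ | _, _ | _⟩ <;> simp [s4]

lemma VW_gen : Subgroup.closure ((V : Set Γ) ∪ W) = ⊤ :=
  closure_top_of (Subgroup.subset_closure (Or.inl a_mem_V))
    (Subgroup.subset_closure (Or.inl b_mem_V)) (Subgroup.subset_closure (Or.inr d_mem_W))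

lemma p4_gr3 (p q r : Bool) (k : K) (hk : rt (k : Γ) = false) (u : U) :
    p4 (gr p (gr q (gr r k)) : K) u = u := by
  rcases u with ⟨p', q', r', s⟩
  by_cases h1 : p' = p <;> by_cases h2 : q' = q <;> by_cases h3 : r' = r <;>
    simp [p4, h1, h2, h3, hk]

lemma s4_gr3 (p q r : Bool) (k : K) (u : U) :
    s4 (gr p (gr q (gr r k)) : K) u =
      if (u.1, u.2.1, u.2.2.1) = (p, q, r) then sec k u.2.2.2 else 1 := by
  rcases u with ⟨p', q', r', s⟩
  by_cases h1 : p' = p <;> by_cases h2 : q' = q <;> by_cases h3 : r' = r <;>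
    simp [s4, h1, h2, h3]

/-- local control at the five moving units -/
lemma exists_local (i : U → ℕ) : ∃ κ ∈ V, (∀ u, p4 κ u = u) ∧
    ∀ u, jy u = true → s4 κ u = (if u.2.2.2 then a * c else c * a) ^ (i u) := by
  let f : Bool → Bool → Bool → ℕ → Γ := fun p q r n => (gr p (gr q (gr r (tK ^ n))) : K)
  have hf1 : ∀ p q r n u, p4 (f p q r n) u = u := by
    intro p q r n u
    exact p4_gr3 p q r _ (by simp) u
  have hf2 : ∀ p q r n u, s4 (f p q r n) u =
      if (u.1, u.2.1, u.2.2.1) = (p, q, r) then (if u.2.2.2 then a * c else c * a) ^ n else 1 := by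
    intro p q r n u
    rw [s4_gr3]
    cases u.2.2.2 <;> simp
  have hf3 : ∀ p q r n, f p q r n ∈ V := by
    intro p q r n
    rw [mem_V_iff]
    intro u
    rw [hf2]
    split_ifs
    · exact ac_pow_mem n
    · exact ca_pow_mem n
    · exact one_mem _
  refine ⟨f false false false (i (false, false, false, true)) *
    f false false true (i (false, false, true, false)) *
    f false true false (i (false, true, false, false)) *
    f false true true (i (false, true, true, true)) *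
    f true true true (i (true, true, true, true)),
    mul_mem (mul_mem (mul_mem (mul_mem (hf3 _ _ _ _) (hf3 _ _ _ _)) (hf3 _ _ _ _)) (hf3 _ _ _ _))
      (hf3 _ _ _ _), ?_, ?_⟩
  · intro u; simp only [p4_mul, hf1]
  · intro u hu
    simp only [s4_mul, hf1, hf2]
    rcases u with ⟨_ | _, _ | _, _ | _, _ | _⟩ <;> simp [jy] at hu ⊢

def Ok (k : ℕ) (n : U → ℤ) : Prop :=
  (∀ u, 0 ≤ n u) ∧ ∀ g : Γ, (∀ u, nn g u ≤ n u ∧ nn g u % 2 = n u % 2) → g ∈ AA V W k

lemma ok_zero : Ok 0 (fun _ => 0) := by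
  refine ⟨fun _ => le_rfl, fun g hg => mem_AA_zero.2 (mem_V_iff.2 fun u => ?_)⟩
  have := (hg u).1
  rw [← lam_eq_zero]
  simp only [nn] at this
  omega

lemma nn_mul_V (g : Γ) {v : Γ} (hv : v ∈ V) (u : U) : nn (g * v) u = nn g (p4 v u) := by
  simp only [nn, s4_mul, lam_mul_T _ (mem_V_iff.1 hv u)]

lemma ok_V {k : ℕ} {n : U → ℤ} (h : Ok k n) {v : Γ} (hv : v ∈ V) :
    Ok k (fun u => n (p4 v u)) := by
  refine ⟨fun u => h.1 _, fun g hg => ?_⟩
  have : g * v⁻¹ ∈ AA V W k := by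
    refine h.2 _ fun u => ?_
    rw [nn_mul_V g (inv_mem hv)]
    have := hg (p4 v⁻¹ u)
    dsimp only at this
    rwa [← p4_mul, mul_inv_cancel, p4_one] at this
  simpa using AA_mul_V this hv

lemma ok_W {k : ℕ} {n : U → ℤ} (h : Ok k n) {w : Γ} (hw : w ∈ W) (hww : w * w = 1)
    (j : U → Bool) (hj : ∀ u, j u = true → jy u = true) (hj' : ∀ u, j (p4 w u) = j u)
    (hs : ∀ u, if j u then s4 w u = d else s4 w u ∈ T) :
    Ok (k + 1) (fun u => n (p4 w u) + if j u then 1 else 0) := by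
  refine ⟨fun u => ?_, fun g hg => ?_⟩
  · have := h.1 (p4 w u)
    dsimp only
    split_ifs <;> omega
  have hpp : ∀ u, p4 w (p4 w u) = u := by intro u; rw [← p4_mul, hww, p4_one]
  have key : ∀ u : U, ∃ i : ℕ, j u = true →
      (lam (s4 g u * (if u.2.2.2 then a * c else c * a) ^ i * d) : ℤ) ≤ n (p4 w u) ∧
      (lam (s4 g u * (if u.2.2.2 then a * c else c * a) ^ i * d) : ℤ) % 2 = n (p4 w u) % 2 := by
    intro u
    by_cases hu : j u = true
    · have h1 := hg u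
      simp only [hu, if_true, nn] at h1
      split_ifs
      · obtain ⟨i, hi⟩ := step_ac (s4 g u) _ (h.1 _) h1.1 h1.2
        exact ⟨i, fun _ => hi⟩
      · obtain ⟨i, hi⟩ := step_ca (s4 g u) _ (h.1 _) h1.1 h1.2
        exact ⟨i, fun _ => hi⟩
    · exact ⟨0, fun h => absurd h hu⟩
  choose i hi using key
  obtain ⟨κ, hκ, hp, hκs⟩ := exists_local i
  have : g * κ * w ∈ AA V W k := by
    refine h.2 _ fun u => ?_
    have h1 := hs u
    by_cases hu : j u = true
    · simp only [hu, if_true] at h1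
      have hu' : j (p4 w u) = true := by rw [hj', hu]
      have h2 := hi _ hu'
      rw [hpp] at h2
      simp only [nn, s4_mul, hp, h1, hκs _ (hj _ hu')]
      exact h2
    · rw [if_neg hu] at h1
      have h2 := hg (p4 w u)
      dsimp only at h2
      rw [hpp, hj', if_neg hu] at h2
      have h3 : nn (g * κ * w) u = nn g (p4 w u) := by
        rw [nn, s4_mul, lam_mul_T _ h1, ← nn, nn_mul_V g hκ, hp]
      rw [h3]
      simpa using h2
  have h2 := AA_mul_V (AA_mul_W this hw) (inv_mem hκ)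
  rwa [mul_assoc (g * κ), hww, mul_one, mul_inv_cancel_right] at h2

lemma ok_y5 {k : ℕ} {n : U → ℤ} (h : Ok k n) : Ok (k + 1) (fun u => n (py u) + wy u) := by
  have := ok_W h y5_mem_W y5_y5 jy (fun _ h => h) (by simp only [p4_y5]; decide) s4_y5
  simpa only [p4_y5, wy] using this

lemma ok_y4 {k : ℕ} {n : U → ℤ} (h : Ok k n) : Ok (k + 1) (fun u => n (pz u) + wz u) := by
  have := ok_W h y4_mem_W y4_y4 jz (by decide) (by simp only [p4_y4]; decide) s4_y4
  simpa only [p4_y4, wz] using this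

lemma ok_mv {k : ℕ} {n : U → ℤ} (h : Ok k n) (m : Mv) :
    Ok (k + km m) (fun u => n (pm m u) + wm m u) := by
  cases m
  · simpa only [pm, wm, km, add_zero, p4_a] using ok_V h a_mem_V
  · simpa only [pm, wm, km, add_zero, p4_b] using ok_V h b_mem_V
  · exact ok_y5 h

lemma ok_list {k : ℕ} {n : U → ℤ} (h : Ok k n) (l : List Mv) :
    Ok (k + kl l) (fun u => n (pl l u) + cl l u) := by
  induction l with
  | nil => simpa [kl, pl, cl] using h
  | cons m l ih =>
    have := ok_mv ih m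
    simpa only [kl, pl, cl, add_assoc] using this

/-- exact side sums, with `eL`, `eR` units of loss -/
def Ex (eL eR : ℤ) (k : ℕ) (n : U → ℤ) : Prop :=
  ∃ A : ℤ, LL n + eL = k + 3 * A ∧ RR n + eR + 3 * A = 4 * k

lemma LL_pa (n : U → ℤ) : LL (fun u => n (pa u)) = RR n := rfl
lemma RR_pa (n : U → ℤ) : RR (fun u => n (pa u)) = LL n := rfl

lemma ex_a {eL eR : ℤ} {k : ℕ} {n : U → ℤ} (h : Ex eL eR k n) :
    Ex eR eL k (fun u => n (pa u)) := by
  obtain ⟨A, h1, h2⟩ := h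
  refine ⟨k - A, ?_, ?_⟩
  · rw [LL_pa]; omega
  · rw [RR_pa]; omega

lemma ex_mv {k : ℕ} {n : U → ℤ} (h : Ex 0 0 k n) (m : Mv) :
    Ex 0 0 (k + km m) (fun u => n (pm m u) + wm m u) := by
  cases m
  · simpa only [pm, wm, km, add_zero] using ex_a h
  · obtain ⟨A, h1, h2⟩ := h
    refine ⟨A, ?_, ?_⟩
    · simp [LL, Fintype.sum_prod_type, pm, wm, km, pb] at h1 ⊢; omega
    · simp [RR, Fintype.sum_prod_type, pm, wm, km, pb] at h2 ⊢; omega
  · obtain ⟨A, h1, h2⟩ := h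
    refine ⟨A + 1, ?_, ?_⟩
    · simp [LL, Fintype.sum_prod_type, pm, wm, km, py, wy, jy] at h1 ⊢; omega
    · simp [RR, Fintype.sum_prod_type, pm, wm, km, py, wy, jy] at h2 ⊢; omega

lemma ex_list {k : ℕ} {n : U → ℤ} (h : Ex 0 0 k n) (l : List Mv) :
    Ex 0 0 (k + kl l) (fun u => n (pl l u) + cl l u) := by
  induction l with
  | nil => simpa [kl, pl, cl] using h
  | cons m l ih =>
    have := ex_mv ih m
    simpa only [kl, pl, cl, add_assoc] using this

lemma ex_y4 {eL eR : ℤ} {k : ℕ} {n : U → ℤ} (h : Ex eL eR k n) :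
    Ex eL (eR + 1) (k + 1) (fun u => n (pz u) + wz u) := by
  obtain ⟨A, h1, h2⟩ := h
  refine ⟨A + 1, ?_, ?_⟩
  · simp [LL, Fintype.sum_prod_type, pz, wz, jz] at h1 ⊢; omega
  · simp [RR, Fintype.sum_prod_type, pz, wz, jz] at h2 ⊢; omega

lemma nn_mul_mod (g h : Γ) (u : U) : nn (g * h) u % 2 = (nn g (p4 h u) + nn h u) % 2 := by
  simp only [nn, s4_mul]
  have h1 := lam_par (s4 g (p4 h u) * s4 h u)
  have h2 := lam_par (s4 g (p4 h u))
  have h3 := lam_par (s4 h u)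
  rw [par_mul] at h1
  revert h1 h2 h3
  cases par (s4 g (p4 h u)) <;> cases par (s4 h u) <;> simp <;> omega

lemma lam_d : lam d = 1 := by
  have h1 := lam_d_le
  have h2 := (lam_par d).1 par_d
  omega

lemma nn_of_if {w : Γ} {u : U} {p : Prop} [Decidable p]
    (h : if p then s4 w u = d else s4 w u ∈ T) : nn w u = if p then 1 else 0 := by
  split_ifs at h ⊢
  · simp [nn, h, lam_d]
  · simp [nn, lam_eq_zero.2 h]

def Pat (x : U → ℤ) (eL eR : ℤ) (k : ℕ) : Prop :=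
  ∃ n, Ok k n ∧ Ex eL eR k n ∧ ∀ u, x u % 2 = n u % 2

lemma pat_list {g s : Γ} {k : ℕ} (h : Pat (nn g) 0 0 k) (l : List Mv)
    (hp : ∀ u, p4 s u = pl l u) (hc : ∀ u, nn s u % 2 = cl l u % 2) :
    Pat (nn (g * s)) 0 0 (k + kl l) := by
  obtain ⟨n, h1, h2, h3⟩ := h
  refine ⟨_, ok_list h1 l, ex_list h2 l, fun u => ?_⟩
  rw [nn_mul_mod, hp]
  have := h3 (pl l u)
  have := hc u
  omega

lemma nn_V {v : Γ} (hv : v ∈ V) (u : U) : nn v u = 0 := by
  simp [nn, lam_eq_zero.2 (mem_V_iff.1 hv u)]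

lemma pat00 (g : Γ) : ∃ k, Pat (nn g) 0 0 k := by
  have ha : ∀ g, (∃ k, Pat (nn g) 0 0 k) → ∃ k, Pat (nn (g * a)) 0 0 k := by
    rintro g ⟨k, hk⟩
    exact ⟨_, pat_list hk [.a] p4_a (by intro u; simp [nn_V a_mem_V, cl, wm])⟩
  have hb : ∀ g, (∃ k, Pat (nn g) 0 0 k) → ∃ k, Pat (nn (g * b)) 0 0 k := by
    rintro g ⟨k, hk⟩
    exact ⟨_, pat_list hk [.b] p4_b (by intro u; simp [nn_V b_mem_V, cl, wm])⟩
  have hc : ∀ g, (∃ k, Pat (nn g) 0 0 k) → ∃ k, Pat (nn (g * c)) 0 0 k := by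
    rintro g ⟨k, hk⟩
    refine ⟨_, pat_list hk certC (fun u => by rw [p4_c, (certC_ok u).1]) (fun u => ?_)⟩
    rw [(certC_ok u).2, nn_of_if (s4_c u), ind]
    split_ifs <;> rfl
  induction g using ind_right with
  | h1 =>
    exact ⟨0, fun _ => 0, ok_zero, ⟨0, by simp [LL], by simp [RR]⟩,
      fun u => by rw [nn_V (one_mem V)]⟩
  | ha g ih => exact ha g ih
  | hb g ih => exact hb g ih
  | hc g ih => exact hc g ih
  | hd g ih =>
    have := hb _ (hc _ ih)
    rwa [mul_assoc, c_b] at this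

lemma pat_a {eL eR : ℤ} (h : ∀ g, ∃ k, Pat (nn g) eL eR k) (g : Γ) :
    ∃ k, Pat (nn g) eR eL k := by
  obtain ⟨k, n, h1, h2, h3⟩ := h (g * a)
  refine ⟨k, _, by simpa only [p4_a] using ok_V h1 a_mem_V, ex_a h2, fun u => ?_⟩
  rw [← h3, ← p4_a, ← nn_mul_V _ a_mem_V, mul_assoc, a_a, mul_one]

lemma pat_y4 {eL eR : ℤ} (h : ∀ g, ∃ k, Pat (nn g) eL eR k) (g : Γ) :
    ∃ k, Pat (nn g) eL (eR + 1) k := by
  obtain ⟨k, n, h1, h2, h3⟩ := h (g * y4)
  refine ⟨k + 1, _, ok_y4 h1, ex_y4 h2, fun u => ?_⟩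
  have h4 := nn_mul_mod (g * y4) y4 u
  rw [mul_assoc, y4_y4, mul_one, p4_y4, nn_of_if (s4_y4 u), ← wz] at h4
  have := h3 (pz u)
  omega

lemma pat_all (eL eR : Bool) (g : Γ) :
    ∃ k, Pat (nn g) (if eL then 1 else 0) (if eR then 1 else 0) k := by
  have h01 : ∀ g, ∃ k, Pat (nn g) 0 1 k := pat_y4 pat00
  have h10 : ∀ g, ∃ k, Pat (nn g) 1 0 k := pat_a h01
  have h11 : ∀ g, ∃ k, Pat (nn g) 1 1 k := pat_y4 h10
  cases eL <;> cases eR
  exacts [pat00 g, h01 g, h10 g, h11 g]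

lemma pat_bounded : ∃ K0 : ℕ, ∀ (eL eR : Bool) (g : Γ),
    ∃ k ≤ K0, Pat (nn g) (if eL then 1 else 0) (if eR then 1 else 0) k := by
  classical
  let P : Bool × Bool × (U → Bool) → ℕ → Prop := fun z k =>
    Pat (fun u => if z.2.2 u then 1 else 0) (if z.1 then 1 else 0) (if z.2.1 then 1 else 0) k
  let f : Bool × Bool × (U → Bool) → ℕ := fun z => if h : ∃ k, P z k then h.choose else 0
  obtain ⟨K0, hK0⟩ := Finite.exists_le f
  refine ⟨K0, fun eL eR g => ?_⟩
  let z : Bool × Bool × (U → Bool) := (eL, eR, fun u => decide (nn g u % 2 = 1))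
  have hz : ∀ u, (if z.2.2 u then 1 else 0 : ℤ) % 2 = nn g u % 2 := by
    intro u
    by_cases h : nn g u % 2 = 1
    · simp [z, h]
    · simp only [z, h, decide_false]
      simp; omega
  have hex : ∃ k, P z k := by
    obtain ⟨k, n, h1, h2, h3⟩ := pat_all eL eR g
    exact ⟨k, n, h1, h2, fun u => by rw [hz, h3]⟩
  refine ⟨f z, hK0 z, ?_⟩
  have : P z (f z) := by simp only [f, dif_pos hex]; exact hex.choose_spec
  obtain ⟨n, h1, h2, h3⟩ := this
  exact ⟨n, h1, h2, fun u => by rw [← h3, hz]⟩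

end Pool.Agent.MP_1b52a1_al.H21
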