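import Pool.Agent.MP_1b52a1_al.H21.Defs

namespace Pool.Agent.MP_1b52a1_al.H21

abbrev Γ : Type := ↥Grig

lemma act_a_a (w : List Bool) : act .a (act .a w) = w := by
  rcases w with _ | ⟨_ | _, w⟩ <;> simp [act]

lemma act_bcd (w : List Bool) :
    act .b (act .b w) = w ∧ act .c (act .c w) = w ∧ act .d (act .d w) = w ∧
    act .b (act .c w) = act .d w ∧ act .c (act .d w) = act .b w ∧ act .d (act .b w) = act .c w := by
  induction w with
  | nil => simp [act]
  | cons x w ih =>
    obtain ⟨h1, h2, h3, h4, h5, h6⟩ := ih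
    cases x <;> simp [act, act_a_a, *]

lemma act_invol (s : Gen) : Function.Involutive (act s) := by
  intro w
  cases s
  · exact act_a_a w
  · exact (act_bcd w).1
  · exact (act_bcd w).2.1
  · exact (act_bcd w).2.2.1

def gen (s : Gen) : Γ :=
  ⟨Function.Involutive.toPerm (act s) (act_invol s), Subgroup.subset_closure ⟨s, rfl⟩⟩

@[simp] lemma gen_apply (s : Gen) (w : List Bool) : (gen s).1 w = act s w := rfl

lemma gen_mul_self (s : Gen) : gen s * gen s = 1 := by
  apply Subtype.ext; ext1 w; exact act_invol s w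

lemma gen_inv (s : Gen) : (gen s)⁻¹ = gen s :=
  inv_eq_of_mul_eq_one_right (gen_mul_self s)

lemma induction_left {P : Γ → Prop} (h1 : P 1) (hs : ∀ s g, P g → P (gen s * g)) (g : Γ) :
    P g := by
  obtain ⟨g, hg⟩ := g
  induction hg using Subgroup.closure_induction_left with
  | one => exact h1
  | mul_left x hx y hy ih =>
    obtain ⟨s, hs'⟩ := hx
    have : x = (gen s).1 := by ext1 w; rw [hs']; rfl
    subst this
    exact hs s ⟨y, hy⟩ ih
  | inv_mul_cancel x hx y hy ih =>
    obtain ⟨s, hs'⟩ := hx
    have : x = (gen s).1 := by ext1 w; rw [hs']; rfl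
    subst this
    have h2 := hs s ⟨y, hy⟩ ih
    rw [← gen_inv] at h2
    exact h2

lemma induction_right {P : Γ → Prop} (h1 : P 1) (hs : ∀ s g, P g → P (g * gen s)) (g : Γ) :
    P g := by
  have : ∀ g : Γ, P g⁻¹ := by
    intro g
    induction g using induction_left with
    | h1 => simpa using h1
    | hs s g ih => rw [mul_inv_rev, gen_inv]; exact hs s _ ih
  simpa using this g⁻¹

lemma exists_struct (g : Γ) : g.1 [] = [] ∧ ∃ (r : Bool) (f : Bool → Γ),
    ∀ x w, g.1 (x :: w) = (xor r x) :: (f x).1 w := by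
  induction g using induction_left with
  | h1 => exact ⟨rfl, false, fun _ => 1, by intro x w; simp⟩
  | hs s g ih =>
    obtain ⟨h0, r, f, hf⟩ := ih
    refine ⟨?_, ?_⟩
    · show (gen s).1 (g.1 []) = []
      rw [h0]; cases s <;> rfl
    · have key : ∃ (r' : Bool) (f' : Bool → Γ), ∀ x w,
          (gen s).1 (x :: w) = (xor r' x) :: (f' x).1 w := by
        cases s
        · exact ⟨true, fun _ => 1, by intro x w; cases x <;> simp [act]⟩
        · exact ⟨false, fun x => if x then gen .c else gen .a, by
            intro x w; cases x <;> simp [act]⟩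
        · exact ⟨false, fun x => if x then gen .d else gen .a, by
            intro x w; cases x <;> simp [act]⟩
        · exact ⟨false, fun x => if x then gen .b else 1, by
            intro x w; cases x <;> simp [act]⟩
      obtain ⟨r', f', hf'⟩ := key
      refine ⟨xor r' r, fun x => f' (xor r x) * f x, ?_⟩
      intro x w
      show (gen s).1 (g.1 (x :: w)) = _
      rw [hf, hf']
      simp

noncomputable def rt (g : Γ) : Bool := (exists_struct g).2.choose

noncomputable def sec (g : Γ) : Bool → Γ := (exists_struct g).2.choose_spec.choose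

lemma apply_cons (g : Γ) (x : Bool) (w : List Bool) :
    g.1 (x :: w) = (xor (rt g) x) :: (sec g x).1 w :=
  (exists_struct g).2.choose_spec.choose_spec x w

lemma struct_unique {g : Γ} {r : Bool} {f : Bool → Γ}
    (h : ∀ x w, g.1 (x :: w) = (xor r x) :: (f x).1 w) : rt g = r ∧ ∀ x, sec g x = f x := by
  constructor
  · have := h false []
    rw [apply_cons] at this
    simpa using (List.cons.inj this).1
  · intro x
    apply Subtype.ext; ext1 w
    have := h x w
    rw [apply_cons] at this
    exact (List.cons.inj this).2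

lemma ext_sec {g h : Γ} (hr : rt g = rt h) (h0 : sec g false = sec h false)
    (h1 : sec g true = sec h true) : g = h := by
  apply Subtype.ext; ext1 w
  rcases w with _ | ⟨x, w⟩
  · rw [(exists_struct g).1, (exists_struct h).1]
  · rw [apply_cons, apply_cons, hr]
    cases x
    · rw [h0]
    · rw [h1]

lemma mul_struct (g h : Γ) : rt (g * h) = xor (rt g) (rt h) ∧
    ∀ x, sec (g * h) x = sec g (xor (rt h) x) * sec h x := by
  apply struct_unique
  intro x w
  show g.1 (h.1 (x :: w)) = _
  rw [apply_cons, apply_cons]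
  simp

@[simp] lemma rt_mul (g h : Γ) : rt (g * h) = xor (rt g) (rt h) := (mul_struct g h).1

@[simp] lemma sec_mul (g h : Γ) (x : Bool) :
    sec (g * h) x = sec g (xor (rt h) x) * sec h x := (mul_struct g h).2 x

lemma one_struct : rt 1 = false ∧ ∀ x, sec 1 x = 1 :=
  struct_unique (f := fun _ => 1) (by intro x w; simp)

@[simp] lemma rt_one : rt 1 = false := one_struct.1
@[simp] lemma sec_one (x : Bool) : sec 1 x = 1 := one_struct.2 x

@[simp] lemma rt_inv (g : Γ) : rt g⁻¹ = rt g := by
  have := rt_mul g⁻¹ g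
  rw [inv_mul_cancel, rt_one] at this
  revert this; cases rt g⁻¹ <;> cases rt g <;> simp

@[simp] lemma sec_inv (g : Γ) (x : Bool) : sec g⁻¹ x = (sec g (xor (rt g) x))⁻¹ := by
  have := sec_mul g g⁻¹ x
  rw [mul_inv_cancel, sec_one, rt_inv] at this
  exact (eq_inv_of_mul_eq_one_right this.symm)

def a : Γ := gen .a
def b : Γ := gen .b
def c : Γ := gen .c
def d : Γ := gen .d

lemma a_struct : rt a = true ∧ ∀ x, sec a x = 1 :=
  struct_unique (f := fun _ => 1) (by intro x w; cases x <;> simp [a, act])
lemma b_struct : rt b = false ∧ ∀ x, sec b x = if x then c else a :=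
  struct_unique (f := fun x => if x then c else a) (by intro x w; cases x <;> simp [a, b, c, act])
lemma c_struct : rt c = false ∧ ∀ x, sec c x = if x then d else a :=
  struct_unique (f := fun x => if x then d else a) (by intro x w; cases x <;> simp [a, d, c, act])
lemma d_struct : rt d = false ∧ ∀ x, sec d x = if x then b else 1 :=
  struct_unique (f := fun x => if x then b else 1) (by intro x w; cases x <;> simp [b, d, act])

@[simp] lemma rt_a : rt a = true := a_struct.1
@[simp] lemma rt_b : rt b = false := b_struct.1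
@[simp] lemma rt_c : rt c = false := c_struct.1
@[simp] lemma rt_d : rt d = false := d_struct.1
@[simp] lemma sec_a (x : Bool) : sec a x = 1 := a_struct.2 x
@[simp] lemma sec_b0 : sec b false = a := b_struct.2 false
@[simp] lemma sec_b1 : sec b true = c := b_struct.2 true
@[simp] lemma sec_c0 : sec c false = a := c_struct.2 false
@[simp] lemma sec_c1 : sec c true = d := c_struct.2 true
@[simp] lemma sec_d0 : sec d false = 1 := d_struct.2 false
@[simp] lemma sec_d1 : sec d true = b := d_struct.2 true

@[simp] lemma a_a : a * a = 1 := gen_mul_self _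
@[simp] lemma b_b : b * b = 1 := gen_mul_self _
@[simp] lemma c_c : c * c = 1 := gen_mul_self _
@[simp] lemma d_d : d * d = 1 := gen_mul_self _
@[simp] lemma a_inv : a⁻¹ = a := gen_inv _
@[simp] lemma b_inv : b⁻¹ = b := gen_inv _
@[simp] lemma c_inv : c⁻¹ = c := gen_inv _
@[simp] lemma d_inv : d⁻¹ = d := gen_inv _
@[simp] lemma b_c : b * c = d := by apply Subtype.ext; ext1 w; exact (act_bcd w).2.2.2.1
@[simp] lemma c_d : c * d = b := by apply Subtype.ext; ext1 w; exact (act_bcd w).2.2.2.2.1
@[simp] lemma d_b : d * b = c := by apply Subtype.ext; ext1 w; exact (act_bcd w).2.2.2.2.2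
@[simp] lemma c_b : c * b = d := by
  rw [← c_inv, ← b_inv, ← mul_inv_rev, b_c, d_inv]
@[simp] lemma d_c : d * c = b := by
  rw [← d_inv, ← c_inv, ← mul_inv_rev, c_d, b_inv]
@[simp] lemma b_d : b * d = c := by
  rw [← b_inv, ← d_inv, ← mul_inv_rev, d_b, c_inv]
@[simp] lemma a_a' (g : Γ) : a * (a * g) = g := by rw [← mul_assoc]; simp
@[simp] lemma b_b' (g : Γ) : b * (b * g) = g := by rw [← mul_assoc]; simp
@[simp] lemma c_c' (g : Γ) : c * (c * g) = g := by rw [← mul_assoc]; simp
@[simp] lemma d_d' (g : Γ) : d * (d * g) = g := by rw [← mul_assoc]; simp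
@[simp] lemma b_c' (g : Γ) : b * (c * g) = d * g := by rw [← mul_assoc]; simp
@[simp] lemma c_b' (g : Γ) : c * (b * g) = d * g := by rw [← mul_assoc]; simp
@[simp] lemma b_d' (g : Γ) : b * (d * g) = c * g := by rw [← mul_assoc]; simp
@[simp] lemma d_b' (g : Γ) : d * (b * g) = c * g := by rw [← mul_assoc]; simp
@[simp] lemma c_d' (g : Γ) : c * (d * g) = b * g := by rw [← mul_assoc]; simp
@[simp] lemma d_c' (g : Γ) : d * (c * g) = b * g := by rw [← mul_assoc]; simp

lemma ind_left {P : Γ → Prop} (h1 : P 1) (ha : ∀ g, P g → P (a * g)) (hb : ∀ g, P g → P (b * g))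
    (hc : ∀ g, P g → P (c * g)) (hd : ∀ g, P g → P (d * g)) (g : Γ) : P g := by
  induction g using induction_left with
  | h1 => exact h1
  | hs s g ih =>
    cases s
    exacts [ha g ih, hb g ih, hc g ih, hd g ih]

lemma ind_right {P : Γ → Prop} (h1 : P 1) (ha : ∀ g, P g → P (g * a)) (hb : ∀ g, P g → P (g * b))
    (hc : ∀ g, P g → P (g * c)) (hd : ∀ g, P g → P (g * d)) (g : Γ) : P g := by
  induction g using induction_right with
  | h1 => exact h1
  | hs s g ih =>
    cases s
    exacts [ha g ih, hb g ih, hc g ih, hd g ih]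

lemma ad4 : a * (d * (a * (d * (a * (d * (a * d)))))) = 1 := by
  apply ext_sec <;> simp

lemma da4 : d * (a * (d * (a * (d * (a * (d * a)))))) = 1 := by
  apply ext_sec <;> simp

lemma ca8 : (c * a) ^ 8 = 1 := by
  have : (c * a) ^ 8 = c * (a * (c * (a * (c * (a * (c * (a * (c * (a * (c * (a * (c * (a *
      (c * a)))))))))))))) := by
    simp only [pow_succ, pow_zero, one_mul, mul_assoc]
  rw [this]
  apply ext_sec <;> simp [ad4, da4]

lemma finite_of_sec {S : Set Γ} (hS : S.Finite) : {g : Γ | ∀ x, sec g x ∈ S}.Finite := by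
  have h : (Set.univ ×ˢ (S ×ˢ S) : Set (Bool × Γ × Γ)).Finite :=
    Set.finite_univ.prod (hS.prod hS)
  refine Set.Finite.of_finite_image (f := fun g => (rt g, sec g false, sec g true))
    (h.subset ?_) ?_
  · rintro _ ⟨g, hg, rfl⟩
    exact ⟨trivial, hg false, hg true⟩
  · intro g _ h _ hgh
    simp only [Prod.mk.injEq] at hgh
    exact ext_sec hgh.1 hgh.2.1 hgh.2.2

lemma sec_injective : Function.Injective (fun g : Γ => (rt g, sec g false, sec g true)) := by
  intro g h hgh
  simp only [Prod.mk.injEq] at hgh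
  exact ext_sec hgh.1 hgh.2.1 hgh.2.2

end Pool.Agent.MP_1b52a1_al.H21
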